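import Mathlib

set_option autoImplicit false

open MeasureTheory Set

namespace Pool.Agent.Helper601.XR

/-- signed data: `f` is `1_L - 1_K` for a set `L` with the same vertical and horizontal X-rays -/
structure Dat (K : Set (ℝ × ℝ)) (f : ℝ × ℝ → ℝ) : Prop where
  conv : Convex ℝ K
  comp : IsCompact K
  meas : Measurable f
  int : Integrable f
  pos : ∀ p, p ∉ K → 0 ≤ f p
  neg : ∀ p, p ∈ K → f p ≤ 0
  le1 : ∀ p, |f p| ≤ 1
  col : ∀ φ : ℝ → ℝ, Measurable φ → (∃ C, ∀ x, |φ x| ≤ C) → ∫ p, f p * φ p.1 = 0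
  row : ∀ φ : ℝ → ℝ, Measurable φ → (∃ C, ∀ x, |φ x| ≤ C) → ∫ p, f p * φ p.2 = 0

/-- the closed rectangle `[a,b] x [c,d]` lies in `K` and the four open corner regions miss `K` -/
def Good (K : Set (ℝ × ℝ)) (a b c d : ℝ) : Prop :=
  a ≤ b ∧ c ≤ d ∧ (∀ x y, a ≤ x → x ≤ b → c ≤ y → y ≤ d → (x, y) ∈ K) ∧
  (∀ x y, (x, y) ∈ K → (x < a ∨ b < x) → c ≤ y ∧ y ≤ d)

/-- no increasing switching rectangle -/
def NoN (K : Set (ℝ × ℝ)) : Prop :=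
  ∀ x1 x2 y1 y2 : ℝ, x1 < x2 → y1 < y2 → (x1, y1) ∈ K → (x2, y2) ∈ K →
    (x1, y2) ∉ K → (x2, y1) ∈ K

/-- mirror image in the line `x = 0` -/
def mir (K : Set (ℝ × ℝ)) : Set (ℝ × ℝ) := {p | (-p.1, p.2) ∈ K}

/-- mirror image in the diagonal -/
def swp (K : Set (ℝ × ℝ)) : Set (ℝ × ℝ) := {p | (p.2, p.1) ∈ K}

end Pool.Agent.Helper601.XR
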