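import Mathlib
import Pool.Agent.Helper601.XR.Defs

set_option autoImplicit false

open MeasureTheory Set

namespace Pool.Agent.Helper601.XR

def Verified (K : Set (ℝ × ℝ)) : Prop :=
  ∃ u : Fin 3 → ℝ × ℝ,
    (∀ i j : Fin 3, i ≠ j → LinearIndependent ℝ ![u i, u j]) ∧
    ∀ L : Set (ℝ × ℝ), MeasurableSet L →
      (∀ i : Fin 3, ∀ᵐ x ∂(volume : Measure (ℝ × ℝ)),
          (∫⁻ t : ℝ, L.indicator (1 : ℝ × ℝ → ENNReal) (x + t • u i)) =
          (∫⁻ t : ℝ, K.indicator (1 : ℝ × ℝ → ENNReal) (x + t • u i))) →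
      L =ᵐ[(volume : Measure (ℝ × ℝ))] K

end Pool.Agent.Helper601.XR
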