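import Mathlib
import Pool.Agent.Helper601.XR.Defs
import Pool.Agent.Helper601.XR.Verif

set_option autoImplicit false

open MeasureTheory Set

namespace Pool.Agent.Helper601.XR


theorem qmp_lin (Φ : (ℝ × ℝ) ≃ₗ[ℝ] (ℝ × ℝ)) :
    Measure.QuasiMeasurePreserving (Φ : ℝ × ℝ → ℝ × ℝ) volume volume := by
  have hc : Continuous (Φ : ℝ × ℝ → ℝ × ℝ) :=
    LinearMap.continuous_of_finiteDimensional (Φ : (ℝ × ℝ) →ₗ[ℝ] (ℝ × ℝ))
  refine ⟨hc.measurable, ?_⟩
  have hdet : LinearMap.det (Φ : (ℝ × ℝ) →ₗ[ℝ] (ℝ × ℝ)) ≠ 0 := (LinearEquiv.isUnit_det' Φ).ne_zero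
  have hm := Measure.map_linearMap_addHaar_eq_smul_addHaar
    (μ := (volume : Measure (ℝ × ℝ))) hdet
  have : Measure.map (Φ : ℝ × ℝ → ℝ × ℝ) volume =
      ENNReal.ofReal |(LinearMap.det (Φ : (ℝ × ℝ) →ₗ[ℝ] (ℝ × ℝ)))⁻¹| • volume := hm
  rw [this]
  exact Measure.smul_absolutelyContinuous

theorem ind_map (Φ : (ℝ × ℝ) ≃ₗ[ℝ] (ℝ × ℝ)) (S : Set (ℝ × ℝ)) (x v : ℝ × ℝ) (t : ℝ) :
    (Φ '' S).indicator (1 : ℝ × ℝ → ENNReal) (x + t • v) =
      S.indicator (1 : ℝ × ℝ → ENNReal) (Φ.symm x + t • Φ.symm v) := by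
  have h : (x + t • v) ∈ Φ '' S ↔ (Φ.symm x + t • Φ.symm v) ∈ S := by
    constructor
    · rintro ⟨s, hs, hse⟩
      have : Φ.symm x + t • Φ.symm v = s := by
        rw [← map_smul, ← map_add, ← hse]
        simp
      rw [this]; exact hs
    · intro hs
      refine ⟨_, hs, ?_⟩
      simp
  by_cases hx : (x + t • v) ∈ Φ '' S
  · rw [indicator_of_mem hx, indicator_of_mem (h.1 hx)]
    rfl
  · rw [indicator_of_notMem hx, indicator_of_notMem (fun h' => hx (h.2 h'))]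

theorem verified_of_map (Φ : (ℝ × ℝ) ≃ₗ[ℝ] (ℝ × ℝ)) (K : Set (ℝ × ℝ)) (h : Verified (Φ '' K)) :
    Verified K := by
  obtain ⟨v, hv, hL⟩ := h
  refine ⟨fun i => Φ.symm (v i), ?_, ?_⟩
  · intro i j hij
    have h1 := (hv i j hij).map' (Φ.symm : (ℝ × ℝ) →ₗ[ℝ] (ℝ × ℝ)) (LinearEquiv.ker _)
    have h2 : ((Φ.symm : (ℝ × ℝ) →ₗ[ℝ] (ℝ × ℝ)) ∘ ![v i, v j]) = ![Φ.symm (v i), Φ.symm (v j)] := by
      funext k
      fin_cases k <;> rfl
    rw [h2] at h1
    exact h1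
  · intro L hLm hLK
    have hc : Continuous (Φ.symm : ℝ × ℝ → ℝ × ℝ) :=
      LinearMap.continuous_of_finiteDimensional (Φ.symm : (ℝ × ℝ) →ₗ[ℝ] (ℝ × ℝ))
    have himg : Φ '' L = Φ.symm ⁻¹' L := by
      ext p
      constructor
      · rintro ⟨s, hs, rfl⟩
        simpa using hs
      · intro hp
        exact ⟨Φ.symm p, hp, by simp⟩
    have hm : MeasurableSet (Φ '' L) := by
      rw [himg]
      exact hc.measurable hLm
    have key := hL (Φ '' L) hm (by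
      intro i
      have h3 := (qmp_lin Φ.symm).ae (hLK i)
      filter_upwards [h3] with x hx
      simp only [ind_map]
      exact hx)
    have h4 := (qmp_lin Φ).preimage_ae_eq key
    rw [preimage_image_eq _ Φ.injective, preimage_image_eq _ Φ.injective] at h4
    exact h4


end Pool.Agent.Helper601.XR
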