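import Mathlib
import Pool.Agent.Helper601.XR.Defs

set_option autoImplicit false

open MeasureTheory Set

namespace Pool.Agent.Helper601.XR


theorem col_mass {K : Set (ℝ × ℝ)} {f : ℝ × ℝ → ℝ} (D : Dat K f) (A : Set ℝ) (hA : MeasurableSet A) :
    ∫ p in {p : ℝ × ℝ | p.1 ∈ A}, f p = 0 := by
  have hS : MeasurableSet {p : ℝ × ℝ | p.1 ∈ A} := measurable_fst hA
  rw [← integral_indicator hS]
  have h1 := D.col (A.indicator fun _ => 1) (measurable_const.indicator hA) ⟨1, fun x => by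
    by_cases hx : x ∈ A
    · rw [indicator_of_mem hx]; simp
    · rw [indicator_of_notMem hx]; simp⟩
  rw [← h1]
  apply integral_congr_ae
  refine Filter.Eventually.of_forall fun p => ?_
  by_cases hp : p.1 ∈ A
  · simp only
    rw [indicator_of_mem hp, indicator_of_mem (show p ∈ {p : ℝ × ℝ | p.1 ∈ A} from hp), mul_one]
  · simp only
    rw [indicator_of_notMem hp, indicator_of_notMem (show p ∉ {p : ℝ × ℝ | p.1 ∈ A} from hp), mul_zero]

theorem row_mass {K : Set (ℝ × ℝ)} {f : ℝ × ℝ → ℝ} (D : Dat K f) (A : Set ℝ) (hA : MeasurableSet A) :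
    ∫ p in {p : ℝ × ℝ | p.2 ∈ A}, f p = 0 := by
  have hS : MeasurableSet {p : ℝ × ℝ | p.2 ∈ A} := measurable_snd hA
  rw [← integral_indicator hS]
  have h1 := D.row (A.indicator fun _ => 1) (measurable_const.indicator hA) ⟨1, fun x => by
    by_cases hx : x ∈ A
    · rw [indicator_of_mem hx]; simp
    · rw [indicator_of_notMem hx]; simp⟩
  rw [← h1]
  apply integral_congr_ae
  refine Filter.Eventually.of_forall fun p => ?_
  by_cases hp : p.2 ∈ A
  · simp only
    rw [indicator_of_mem hp, indicator_of_mem (show p ∈ {p : ℝ × ℝ | p.2 ∈ A} from hp), mul_one]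
  · simp only
    rw [indicator_of_notMem hp, indicator_of_notMem (show p ∉ {p : ℝ × ℝ | p.2 ∈ A} from hp), mul_zero]

theorem null_x (x : ℝ) : ∀ᵐ p : ℝ × ℝ, p.1 ≠ x := by
  rw [ae_iff]
  have e : {p : ℝ × ℝ | ¬ p.1 ≠ x} = ({x} : Set ℝ) ×ˢ univ := by
    ext p
    simp
  rw [e, Measure.volume_eq_prod, Measure.prod_prod, Real.volume_singleton, zero_mul]

theorem null_y (y : ℝ) : ∀ᵐ p : ℝ × ℝ, p.2 ≠ y := by
  rw [ae_iff]
  have e : {p : ℝ × ℝ | ¬ p.2 ≠ y} = univ ×ˢ ({y} : Set ℝ) := by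
    ext p
    simp
  rw [e, Measure.volume_eq_prod, Measure.prod_prod, Real.volume_singleton, mul_zero]

/-- if `f ≥ 0` on a measurable set `S` and its integral there is `≤ 0` then `f = 0` a.e. on `S` -/
theorem zero_of_pos {f : ℝ × ℝ → ℝ} (hf : Integrable f) (S : Set (ℝ × ℝ)) (hS : MeasurableSet S)
    (h0 : ∀ p ∈ S, 0 ≤ f p) (h1 : ∫ p in S, f p ≤ 0) : ∀ᵐ p : ℝ × ℝ, p ∈ S → f p = 0 := by
  have h2 : 0 ≤ᵐ[volume.restrict S] f := by
    rw [Filter.EventuallyLE, ae_restrict_iff' hS]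
    exact Filter.Eventually.of_forall fun p hp => h0 p hp
  have h3 : ∫ p in S, f p = 0 := le_antisymm h1 (integral_nonneg_of_ae h2)
  have h4 := (setIntegral_eq_zero_iff_of_nonneg_ae h2 hf.integrableOn).1 h3
  rw [Filter.EventuallyEq, ae_restrict_iff' hS] at h4
  exact h4

/-- if `f ≤ 0` on a measurable set `S` and its integral there is `≥ 0` then `f = 0` a.e. on `S` -/
theorem zero_of_neg {f : ℝ × ℝ → ℝ} (hf : Integrable f) (S : Set (ℝ × ℝ)) (hS : MeasurableSet S)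
    (h0 : ∀ p ∈ S, f p ≤ 0) (h1 : 0 ≤ ∫ p in S, f p) : ∀ᵐ p : ℝ × ℝ, p ∈ S → f p = 0 := by
  have h := zero_of_pos (f := fun p => - f p) hf.neg S hS (fun p hp => neg_nonneg.2 (h0 p hp)) (by
    rw [integral_neg]
    linarith)
  filter_upwards [h] with p hp hpS
  have := hp hpS
  linarith



end Pool.Agent.Helper601.XR
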