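import Mathlib
import Pool.Agent.Helper601.XR.Defs
import Pool.Agent.Helper601.XR.Xbasic

set_option autoImplicit false

open MeasureTheory Set

namespace Pool.Agent.Helper601.XR


theorem compatL {K : Set (ℝ × ℝ)} {f : ℝ × ℝ → ℝ} (D : Dat K f) (a x0 l u : ℝ) (h0 : x0 ≤ a)
    (h1 : ∀ x y, x < x0 → (x, y) ∈ K → l ≤ y ∧ y ≤ u)
    (h2 : ∀ x y, x0 < x → x < a → l ≤ y → y ≤ u → (x, y) ∈ K) :
    ∫ p in {p : ℝ × ℝ | p.1 < a ∧ l ≤ p.2 ∧ p.2 ≤ u}, f p ≤ 0 ∧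
    (0 ≤ ∫ p in {p : ℝ × ℝ | p.1 < a ∧ l ≤ p.2 ∧ p.2 ≤ u}, f p →
      (∀ᵐ p : ℝ × ℝ, p.1 < x0 → (p.2 < l ∨ u < p.2) → f p = 0) ∧
      ∀ᵐ p : ℝ × ℝ, x0 < p.1 → p.1 < a → l ≤ p.2 → p.2 ≤ u → f p = 0) := by
  have m1 : ∀ c : ℝ, MeasurableSet {p : ℝ × ℝ | p.1 < c} := fun c =>
    measurableSet_lt measurable_fst measurable_const
  have m1' : ∀ c : ℝ, MeasurableSet {p : ℝ × ℝ | c < p.1} := fun c =>
    measurableSet_lt measurable_const measurable_fst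
  have m2 : ∀ c : ℝ, MeasurableSet {p : ℝ × ℝ | c ≤ p.2} := fun c =>
    measurableSet_le measurable_const measurable_snd
  have m3 : ∀ c : ℝ, MeasurableSet {p : ℝ × ℝ | p.2 ≤ c} := fun c =>
    measurableSet_le measurable_snd measurable_const
  have m4 : ∀ c : ℝ, MeasurableSet {p : ℝ × ℝ | p.2 < c} := fun c =>
    measurableSet_lt measurable_snd measurable_const
  have m5 : ∀ c : ℝ, MeasurableSet {p : ℝ × ℝ | c < p.2} := fun c =>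
    measurableSet_lt measurable_const measurable_snd
  have mA : MeasurableSet {p : ℝ × ℝ | p.1 < x0 ∧ l ≤ p.2 ∧ p.2 ≤ u} :=
    (m1 x0).inter ((m2 l).inter (m3 u))
  have mB : MeasurableSet {p : ℝ × ℝ | x0 < p.1 ∧ p.1 < a ∧ l ≤ p.2 ∧ p.2 ≤ u} :=
    (m1' x0).inter ((m1 a).inter ((m2 l).inter (m3 u)))
  have mA' : MeasurableSet {p : ℝ × ℝ | p.1 < x0 ∧ (p.2 < l ∨ u < p.2)} :=
    (m1 x0).inter ((m4 l).union (m5 u))
  have hR : ∫ p in {p : ℝ × ℝ | p.1 < a ∧ l ≤ p.2 ∧ p.2 ≤ u}, f p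
      = (∫ p in {p : ℝ × ℝ | p.1 < x0 ∧ l ≤ p.2 ∧ p.2 ≤ u}, f p)
        + ∫ p in {p : ℝ × ℝ | x0 < p.1 ∧ p.1 < a ∧ l ≤ p.2 ∧ p.2 ≤ u}, f p := by
    rw [← setIntegral_union ?_ mB D.int.integrableOn D.int.integrableOn]
    · apply setIntegral_congr_set
      filter_upwards [null_x x0] with p hp
      apply propext
      show (p.1 < a ∧ l ≤ p.2 ∧ p.2 ≤ u) ↔ ((p.1 < x0 ∧ l ≤ p.2 ∧ p.2 ≤ u) ∨
        (x0 < p.1 ∧ p.1 < a ∧ l ≤ p.2 ∧ p.2 ≤ u))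
      constructor
      · rintro ⟨h3, h4, h5⟩
        rcases lt_or_gt_of_ne hp with h6 | h6
        · exact Or.inl ⟨h6, h4, h5⟩
        · exact Or.inr ⟨h6, h3, h4, h5⟩
      · rintro (⟨h3, h4, h5⟩ | ⟨h3, h4, h5, h6⟩)
        · exact ⟨lt_of_lt_of_le h3 h0, h4, h5⟩
        · exact ⟨h4, h5, h6⟩
    · rw [Set.disjoint_left]
      rintro p ⟨h3, -⟩ ⟨h4, -⟩
      exact absurd h3 (not_lt.2 h4.le)
  have hC : (∫ p in {p : ℝ × ℝ | p.1 < x0 ∧ l ≤ p.2 ∧ p.2 ≤ u}, f p)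
        + ∫ p in {p : ℝ × ℝ | p.1 < x0 ∧ (p.2 < l ∨ u < p.2)}, f p = 0 := by
    rw [← col_mass D (Set.Iio x0) measurableSet_Iio,
      ← setIntegral_union ?_ mA' D.int.integrableOn D.int.integrableOn]
    · have e : ({p : ℝ × ℝ | p.1 < x0 ∧ l ≤ p.2 ∧ p.2 ≤ u} ∪
          {p : ℝ × ℝ | p.1 < x0 ∧ (p.2 < l ∨ u < p.2)}) = {p : ℝ × ℝ | p.1 ∈ Set.Iio x0} := by
        ext p
        show ((p.1 < x0 ∧ l ≤ p.2 ∧ p.2 ≤ u) ∨ (p.1 < x0 ∧ (p.2 < l ∨ u < p.2))) ↔ p.1 < x0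
        constructor
        · rintro (⟨h3, -⟩ | ⟨h3, -⟩) <;> exact h3
        · intro h3
          by_cases h4 : l ≤ p.2 ∧ p.2 ≤ u
          · exact Or.inl ⟨h3, h4⟩
          · right
            refine ⟨h3, ?_⟩
            rw [not_and_or, not_le, not_le] at h4
            exact h4
      rw [e]
    · rw [Set.disjoint_left]
      rintro p ⟨-, h3, h4⟩ ⟨-, h5 | h5⟩
      · exact absurd h3 (not_le.2 h5)
      · exact absurd h4 (not_le.2 h5)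
  have nB : ∀ p ∈ {p : ℝ × ℝ | x0 < p.1 ∧ p.1 < a ∧ l ≤ p.2 ∧ p.2 ≤ u}, f p ≤ 0 := by
    rintro p ⟨h3, h4, h5, h6⟩
    exact D.neg p (h2 p.1 p.2 h3 h4 h5 h6)
  have nA : ∀ p ∈ {p : ℝ × ℝ | p.1 < x0 ∧ (p.2 < l ∨ u < p.2)}, 0 ≤ f p := by
    rintro p ⟨h3, h4⟩
    apply D.pos p
    intro hK
    obtain ⟨h5, h6⟩ := h1 p.1 p.2 h3 hK
    rcases h4 with h4 | h4
    · exact absurd h5 (not_le.2 h4)
    · exact absurd h6 (not_le.2 h4)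
  have iB : ∫ p in {p : ℝ × ℝ | x0 < p.1 ∧ p.1 < a ∧ l ≤ p.2 ∧ p.2 ≤ u}, f p ≤ 0 :=
    setIntegral_nonpos mB nB
  have iA : 0 ≤ ∫ p in {p : ℝ × ℝ | p.1 < x0 ∧ (p.2 < l ∨ u < p.2)}, f p :=
    setIntegral_nonneg mA' nA
  refine ⟨by linarith, fun hpos => ⟨?_, ?_⟩⟩
  · have := zero_of_pos D.int _ mA' nA (by linarith)
    filter_upwards [this] with p hp h3 h4
    exact hp ⟨h3, h4⟩
  · have := zero_of_neg D.int _ mB nB (by linarith)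
    filter_upwards [this] with p hp h3 h4 h5 h6
    exact hp ⟨h3, h4, h5, h6⟩


end Pool.Agent.Helper601.XR
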