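import Mathlib
import Pool.Agent.Helper601.XR.Defs
import Pool.Agent.Helper601.XR.Xbasic

set_option autoImplicit false

open MeasureTheory Set

namespace Pool.Agent.Helper601.XR


theorem split_int {f : ℝ × ℝ → ℝ} (hf : Integrable f) (s t : Set (ℝ × ℝ)) (ht : MeasurableSet t) :
    (∫ p in s ∩ t, f p) + (∫ p in s \ t, f p) = ∫ p in s, f p :=
  integral_inter_add_sdiff ht hf.integrableOn

theorem meas_fst (A : Set ℝ) (hA : MeasurableSet A) : MeasurableSet {p : ℝ × ℝ | p.1 ∈ A} :=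
  measurable_fst hA

theorem meas_snd (A : Set ℝ) (hA : MeasurableSet A) : MeasurableSet {p : ℝ × ℝ | p.2 ∈ A} :=
  measurable_snd hA

/-- the 3 x 3 argument -/
theorem null33 {K : Set (ℝ × ℝ)} {f : ℝ × ℝ → ℝ} {a b c d : ℝ} (D : Dat K f) (h : Good K a b c d) :
    (∀ᵐ p : ℝ × ℝ, a ≤ p.1 → p.1 ≤ b → c ≤ p.2 → p.2 ≤ d → f p = 0) ∧
    (∀ᵐ p : ℝ × ℝ, (p.1 < a ∨ b < p.1) → (p.2 < c ∨ d < p.2) → f p = 0) := by
  obtain ⟨hab, hcd, hin, hout⟩ := h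
  have mR : MeasurableSet {p : ℝ × ℝ | p.2 ∈ Icc c d} := meas_snd _ measurableSet_Icc
  have mC : MeasurableSet {p : ℝ × ℝ | p.1 ∈ Icc a b} := meas_fst _ measurableSet_Icc
  have m1 : MeasurableSet {p : ℝ × ℝ | p.1 ∈ Iio a} := meas_fst _ measurableSet_Iio
  have m3 : MeasurableSet {p : ℝ × ℝ | p.1 ∈ Ioi b} := meas_fst _ measurableSet_Ioi
  -- corners
  have pos1 : ∀ p ∈ {p : ℝ × ℝ | p.1 ∈ Iio a} \ {p : ℝ × ℝ | p.2 ∈ Icc c d}, 0 ≤ f p := by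
    intro p hp
    apply D.pos
    intro hK
    exact hp.2 (hout p.1 p.2 hK (Or.inl hp.1))
  have pos3 : ∀ p ∈ {p : ℝ × ℝ | p.1 ∈ Ioi b} \ {p : ℝ × ℝ | p.2 ∈ Icc c d}, 0 ≤ f p := by
    intro p hp
    apply D.pos
    intro hK
    exact hp.2 (hout p.1 p.2 hK (Or.inr hp.1))
  have neg2 : ∀ p ∈ {p : ℝ × ℝ | p.1 ∈ Icc a b} ∩ {p : ℝ × ℝ | p.2 ∈ Icc c d}, f p ≤ 0 := by
    intro p hp
    exact D.neg p (hin p.1 p.2 hp.1.1 hp.1.2 hp.2.1 hp.2.2)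
  have i1 := split_int D.int {p : ℝ × ℝ | p.1 ∈ Iio a} _ mR
  have i3 := split_int D.int {p : ℝ × ℝ | p.1 ∈ Ioi b} _ mR
  rw [col_mass D _ measurableSet_Iio] at i1
  rw [col_mass D _ measurableSet_Ioi] at i3
  have c1 : 0 ≤ ∫ p in {p : ℝ × ℝ | p.1 ∈ Iio a} \ {p : ℝ × ℝ | p.2 ∈ Icc c d}, f p :=
    setIntegral_nonneg (m1.diff mR) pos1
  have c3 : 0 ≤ ∫ p in {p : ℝ × ℝ | p.1 ∈ Ioi b} \ {p : ℝ × ℝ | p.2 ∈ Icc c d}, f p :=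
    setIntegral_nonneg (m3.diff mR) pos3
  have c2 : ∫ p in {p : ℝ × ℝ | p.1 ∈ Icc a b} ∩ {p : ℝ × ℝ | p.2 ∈ Icc c d}, f p ≤ 0 :=
    setIntegral_nonpos (mC.inter mR) neg2
  -- the middle row
  have r0 := row_mass D (Icc c d) measurableSet_Icc
  have r1 := split_int D.int {p : ℝ × ℝ | p.2 ∈ Icc c d} _ m1
  have r2 := split_int D.int ({p : ℝ × ℝ | p.2 ∈ Icc c d} \ {p : ℝ × ℝ | p.1 ∈ Iio a}) _ mC
  have e1 : {p : ℝ × ℝ | p.2 ∈ Icc c d} ∩ {p : ℝ × ℝ | p.1 ∈ Iio a} =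
      {p : ℝ × ℝ | p.1 ∈ Iio a} ∩ {p : ℝ × ℝ | p.2 ∈ Icc c d} := inter_comm _ _
  have e2 : ({p : ℝ × ℝ | p.2 ∈ Icc c d} \ {p : ℝ × ℝ | p.1 ∈ Iio a}) ∩ {p : ℝ × ℝ | p.1 ∈ Icc a b} =
      {p : ℝ × ℝ | p.1 ∈ Icc a b} ∩ {p : ℝ × ℝ | p.2 ∈ Icc c d} := by
    ext p
    constructor
    · rintro ⟨⟨h1, h2⟩, h3⟩
      exact ⟨h3, h1⟩
    · rintro ⟨h3, h1⟩
      exact ⟨⟨h1, fun h2 => not_lt.2 h3.1 h2⟩, h3⟩
  have e3 : ({p : ℝ × ℝ | p.2 ∈ Icc c d} \ {p : ℝ × ℝ | p.1 ∈ Iio a}) \ {p : ℝ × ℝ | p.1 ∈ Icc a b} =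
      {p : ℝ × ℝ | p.1 ∈ Ioi b} ∩ {p : ℝ × ℝ | p.2 ∈ Icc c d} := by
    ext p
    constructor
    · rintro ⟨⟨h1, h2⟩, h3⟩
      refine ⟨?_, h1⟩
      by_contra h4
      exact h3 ⟨not_lt.1 h2, not_lt.1 h4⟩
    · rintro ⟨h3, h1⟩
      have h3' : b < p.1 := h3
      refine ⟨⟨h1, fun h2 => ?_⟩, fun h4 => not_lt.2 h4.2 h3'⟩
      have h2' : p.1 < a := h2
      linarith
  rw [e1, r0] at r1
  rw [e2, e3] at r2
  have z2 : 0 ≤ ∫ p in {p : ℝ × ℝ | p.1 ∈ Icc a b} ∩ {p : ℝ × ℝ | p.2 ∈ Icc c d}, f p := by linarith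
  have z1 : ∫ p in {p : ℝ × ℝ | p.1 ∈ Iio a} \ {p : ℝ × ℝ | p.2 ∈ Icc c d}, f p ≤ 0 := by linarith
  have z3 : ∫ p in {p : ℝ × ℝ | p.1 ∈ Ioi b} \ {p : ℝ × ℝ | p.2 ∈ Icc c d}, f p ≤ 0 := by linarith
  have a2 := zero_of_neg D.int _ (mC.inter mR) neg2 z2
  have a1 := zero_of_pos D.int _ (m1.diff mR) pos1 z1
  have a3 := zero_of_pos D.int _ (m3.diff mR) pos3 z3
  constructor
  · filter_upwards [a2] with p hp h1 h2 h3 h4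
    exact hp ⟨⟨h1, h2⟩, ⟨h3, h4⟩⟩
  · filter_upwards [a1, a3] with p hp1 hp3 h1 h2
    have hn : p ∉ {p : ℝ × ℝ | p.2 ∈ Icc c d} := by
      intro h3
      rcases h2 with h2 | h2
      · exact not_lt.2 h3.1 h2
      · exact not_lt.2 h3.2 h2
    rcases h1 with h1 | h1
    · exact hp1 ⟨h1, hn⟩
    · exact hp3 ⟨h1, hn⟩

theorem box {K : Set (ℝ × ℝ)} {f : ℝ × ℝ → ℝ} (D : Dat K f) (xm xM ym yM : ℝ)
    (h : ∀ p ∈ K, xm ≤ p.1 ∧ p.1 ≤ xM ∧ ym ≤ p.2 ∧ p.2 ≤ yM) :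
    ∀ᵐ p : ℝ × ℝ, (p.1 < xm ∨ xM < p.1 ∨ p.2 < ym ∨ yM < p.2) → f p = 0 := by
  have mx : MeasurableSet {p : ℝ × ℝ | p.1 ∈ (Iio xm ∪ Ioi xM)} :=
    meas_fst _ (measurableSet_Iio.union measurableSet_Ioi)
  have my : MeasurableSet {p : ℝ × ℝ | p.2 ∈ (Iio ym ∪ Ioi yM)} :=
    meas_snd _ (measurableSet_Iio.union measurableSet_Ioi)
  have a1 := zero_of_pos D.int _ mx (by
    intro p hp
    apply D.pos
    intro hK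
    obtain ⟨h1, h2, h3, h4⟩ := h p hK
    rcases hp with hp | hp
    · exact not_lt.2 h1 hp
    · exact not_lt.2 h2 hp) (le_of_eq (col_mass D _ (measurableSet_Iio.union measurableSet_Ioi)))
  have a2 := zero_of_pos D.int _ my (by
    intro p hp
    apply D.pos
    intro hK
    obtain ⟨h1, h2, h3, h4⟩ := h p hK
    rcases hp with hp | hp
    · exact not_lt.2 h3 hp
    · exact not_lt.2 h4 hp) (le_of_eq (row_mass D _ (measurableSet_Iio.union measurableSet_Ioi)))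
  filter_upwards [a1, a2] with p hp1 hp2 hh
  rcases hh with hh | hh | hh | hh
  · exact hp1 (Or.inl hh)
  · exact hp1 (Or.inr hh)
  · exact hp2 (Or.inl hh)
  · exact hp2 (Or.inr hh)


end Pool.Agent.Helper601.XR
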