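import Mathlib
import Pool.Agent.Helper601.XR.Defs
import Pool.Agent.Helper601.XR.Xbasic
import Pool.Agent.Helper601.XR.Xcompat

set_option autoImplicit false

open MeasureTheory Set

namespace Pool.Agent.Helper601.XR


theorem side_aux {K : Set (ℝ × ℝ)} {f : ℝ × ℝ → ℝ} (D : Dat K f) (a : ℝ)
    (hnest : ∀ x x' y, x < x' → x' < a → (x, y) ∈ K → (x', y) ∈ K)
    (hQ : ∀ x0 l u, x0 < a → l ≤ u → (∀ y, (x0, y) ∈ K ↔ l ≤ y ∧ y ≤ u) →
      0 ≤ ∫ p in {p : ℝ × ℝ | p.1 < a ∧ l ≤ p.2 ∧ p.2 ≤ u}, f p) (x0 : ℝ) (hx0 : x0 < a) :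
    ∀ᵐ p : ℝ × ℝ, (p.1 < x0 → (x0, p.2) ∉ K → f p = 0) ∧
      (x0 < p.1 → p.1 < a → (x0, p.2) ∈ K → f p = 0) := by
  obtain ⟨S, hS⟩ : ∃ S : Set ℝ, S = {y | (x0, y) ∈ K} := ⟨_, rfl⟩
  have hmem : ∀ y, y ∈ S ↔ (x0, y) ∈ K := fun y => by rw [hS]; rfl
  rcases S.eq_empty_or_nonempty with hE | hne
  · have hno : ∀ y, (x0, y) ∉ K := by
      intro y hy
      have := (hmem y).2 hy
      rw [hE] at this
      exact this
    have h1 : ∀ᵐ p : ℝ × ℝ, p ∈ {p : ℝ × ℝ | p.1 ∈ Iio x0} → f p = 0 := by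
      apply zero_of_pos D.int _ (measurable_fst measurableSet_Iio)
      · intro p hp
        apply D.pos
        intro hpK
        exact hno p.2 (hnest p.1 x0 p.2 hp hx0 hpK)
      · exact (col_mass D _ measurableSet_Iio).le
    filter_upwards [h1] with p hp
    exact ⟨fun h _ => hp h, fun _ _ h => absurd h (hno _)⟩
  · have hcont : Continuous (fun y : ℝ => ((x0, y) : ℝ × ℝ)) := by fun_prop
    have hScomp : IsCompact S := by
      have h1 : IsCompact (Prod.snd '' K) := D.comp.image continuous_snd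
      have h2 : IsClosed S := by
        have : S = (fun y : ℝ => ((x0, y) : ℝ × ℝ)) ⁻¹' K := by rw [hS]; rfl
        rw [this]
        exact D.comp.isClosed.preimage hcont
      refine h1.of_isClosed_subset h2 ?_
      intro y hy
      exact ⟨(x0, y), (hmem y).1 hy, rfl⟩
    have hSconv : Convex ℝ S := by
      intro y hy z hz s t hs ht hst
      rw [hmem] at hy hz ⊢
      have := D.conv hy hz hs ht hst
      have e : s • ((x0, y) : ℝ × ℝ) + t • ((x0, z) : ℝ × ℝ) = (x0, s • y + t • z) := by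
        ext
        · show s * x0 + t * x0 = x0
          rw [← add_mul, hst, one_mul]
        · rfl
      rwa [e] at this
    have hord := hSconv.ordConnected
    obtain ⟨l, hl⟩ : ∃ l, l = sInf S := ⟨_, rfl⟩
    obtain ⟨u, hu⟩ : ∃ u, u = sSup S := ⟨_, rfl⟩
    have hlS : l ∈ S := by rw [hl]; exact hScomp.sInf_mem hne
    have huS : u ∈ S := by rw [hu]; exact hScomp.sSup_mem hne
    have hiff : ∀ y, (x0, y) ∈ K ↔ l ≤ y ∧ y ≤ u := by
      intro y
      rw [← hmem]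
      constructor
      · intro hy
        constructor
        · rw [hl]; exact csInf_le hScomp.bddBelow hy
        · rw [hu]; exact le_csSup hScomp.bddAbove hy
      · intro hy
        exact hord.out hlS huS hy
    have hlu : l ≤ u := ((hiff l).1 ((hmem l).1 hlS)).2
    obtain ⟨-, h2⟩ := compatL D a x0 l u hx0.le
      (by
        intro x y hx hxy
        exact (hiff y).1 (hnest x x0 y hx hx0 hxy))
      (by
        intro x y hx hxa hy1 hy2
        exact hnest x0 x y hx hxa ((hiff y).2 ⟨hy1, hy2⟩))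
    obtain ⟨h3, h4⟩ := h2 (hQ x0 l u hx0 hlu hiff)
    filter_upwards [h3, h4] with p hp1 hp2
    constructor
    · intro h5 h6
      apply hp1 h5
      by_contra hcon
      push Not at hcon
      exact h6 ((hiff p.2).2 hcon)
    · intro h5 h6 h7
      obtain ⟨h8, h9⟩ := (hiff p.2).1 h7
      exact hp2 h5 h6 h8 h9

theorem side {K : Set (ℝ × ℝ)} {f : ℝ × ℝ → ℝ} (D : Dat K f) (a : ℝ)
    (hnest : ∀ x x' y, x < x' → x' < a → (x, y) ∈ K → (x', y) ∈ K)
    (hQ : ∀ x0 l u, x0 < a → l ≤ u → (∀ y, (x0, y) ∈ K ↔ l ≤ y ∧ y ≤ u) →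
      0 ≤ ∫ p in {p : ℝ × ℝ | p.1 < a ∧ l ≤ p.2 ∧ p.2 ≤ u}, f p) :
    ∀ᵐ p : ℝ × ℝ, p.1 < a → f p = 0 := by
  have h1 : ∀ᵐ p : ℝ × ℝ, ∀ q : ℚ, (q : ℝ) < a →
      ((p.1 < q → ((q : ℝ), p.2) ∉ K → f p = 0) ∧
      ((q : ℝ) < p.1 → p.1 < a → ((q : ℝ), p.2) ∈ K → f p = 0)) := by
    rw [ae_all_iff]
    intro q
    by_cases hq : (q : ℝ) < a
    · filter_upwards [side_aux D a hnest hQ q hq] with p hp _
      exact hp
    · exact Filter.Eventually.of_forall (fun p h => absurd h hq)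
  have h2 : ∀ᵐ p : ℝ × ℝ, p ∉ frontier K := by
    have := D.conv.addHaar_frontier (volume : Measure (ℝ × ℝ))
    exact measure_eq_zero_iff_ae_notMem.1 this
  filter_upwards [h1, h2] with p hp hfr hpa
  have hc : Continuous (fun x : ℝ => ((x, p.2) : ℝ × ℝ)) := by fun_prop
  by_cases hin : p ∈ interior K
  · have ho : IsOpen ((fun x : ℝ => ((x, p.2) : ℝ × ℝ)) ⁻¹' interior K) :=
      isOpen_interior.preimage hc
    obtain ⟨δ, hδ, hball⟩ := Metric.isOpen_iff.1 ho p.1 hin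
    obtain ⟨q, hq1, hq2⟩ := exists_rat_btwn (show p.1 - δ < p.1 by linarith)
    refine (hp q (hq2.trans hpa)).2 hq2 hpa ?_
    apply interior_subset
    apply hball
    rw [Metric.mem_ball, Real.dist_eq, abs_lt]
    constructor <;> linarith
  · have hnK : p ∉ K := by
      intro hpK
      apply hfr
      rw [D.comp.isClosed.frontier_eq]
      exact ⟨hpK, hin⟩
    have ho : IsOpen ((fun x : ℝ => ((x, p.2) : ℝ × ℝ)) ⁻¹' Kᶜ) :=
      D.comp.isClosed.isOpen_compl.preimage hc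
    obtain ⟨δ, hδ, hball⟩ := Metric.isOpen_iff.1 ho p.1 hnK
    obtain ⟨q, hq1, hq2⟩ := exists_rat_btwn (show p.1 < min a (p.1 + δ) from
      lt_min hpa (by linarith))
    have hqa : (q : ℝ) < a := lt_of_lt_of_le hq2 (min_le_left _ _)
    have hqd : (q : ℝ) < p.1 + δ := lt_of_lt_of_le hq2 (min_le_right _ _)
    refine (hp q hqa).1 hq1 ?_
    apply hball
    rw [Metric.mem_ball, Real.dist_eq, abs_lt]
    constructor <;> linarith


end Pool.Agent.Helper601.XR
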