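import Mathlib
import Pool.Agent.Helper601.XR.Defs

set_option autoImplicit false

open MeasureTheory Set

namespace Pool.Agent.Helper601.XR


theorem mpS : MeasurePreserving (MeasurableEquiv.prodComm : ℝ × ℝ ≃ᵐ ℝ × ℝ)
    (volume : Measure (ℝ × ℝ)) (volume : Measure (ℝ × ℝ)) :=
  Measure.measurePreserving_swap

/-- mirror equivalence -/
noncomputable def mirE : ℝ × ℝ ≃ᵐ ℝ × ℝ := (MeasurableEquiv.neg ℝ).prodCongr (MeasurableEquiv.refl ℝ)

theorem mpM : MeasurePreserving mirE (volume : Measure (ℝ × ℝ)) (volume : Measure (ℝ × ℝ)) :=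
  (Measure.measurePreserving_neg (volume : Measure ℝ)).prod (MeasurePreserving.id volume)

theorem Dat.swap {K : Set (ℝ × ℝ)} {f : ℝ × ℝ → ℝ} (D : Dat K f) :
    Dat (swp K) (fun p => f (p.2, p.1)) where
  conv := D.conv.linear_preimage ((LinearMap.snd ℝ ℝ ℝ).prod (LinearMap.fst ℝ ℝ ℝ))
  comp := (Homeomorph.prodComm ℝ ℝ).isCompact_preimage.mpr D.comp
  meas := D.meas.comp measurable_swap
  int := (mpS.integrable_comp_emb MeasurableEquiv.prodComm.measurableEmbedding).2 D.int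
  pos := fun p hp => D.pos _ hp
  neg := fun p hp => D.neg _ hp
  le1 := fun p => D.le1 _
  col := fun φ h1 h2 => by
    have := mpS.integral_comp' (fun p : ℝ × ℝ => f p * φ p.2)
    rw [D.row φ h1 h2] at this
    exact this
  row := fun φ h1 h2 => by
    have := mpS.integral_comp' (fun p : ℝ × ℝ => f p * φ p.1)
    rw [D.col φ h1 h2] at this
    exact this

theorem Dat.mir {K : Set (ℝ × ℝ)} {f : ℝ × ℝ → ℝ} (D : Dat K f) :
    Dat (mir K) (fun p => f (-p.1, p.2)) where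
  conv := D.conv.linear_preimage ((-(LinearMap.fst ℝ ℝ ℝ)).prod (LinearMap.snd ℝ ℝ ℝ))
  comp := ((Homeomorph.neg ℝ).prodCongr (Homeomorph.refl ℝ)).isCompact_preimage.mpr D.comp
  meas := D.meas.comp mirE.measurable
  int := (mpM.integrable_comp_emb mirE.measurableEmbedding).2 D.int
  pos := fun p hp => D.pos _ hp
  neg := fun p hp => D.neg _ hp
  le1 := fun p => D.le1 _
  col := fun φ h1 h2 => by
    have := mpM.integral_comp' (fun p : ℝ × ℝ => f p * φ (-p.1))
    obtain ⟨C, hC⟩ := h2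
    rw [D.col (fun x => φ (-x)) (h1.comp measurable_neg) ⟨C, fun x => hC _⟩] at this
    rw [← this]
    refine integral_congr_ae (Filter.Eventually.of_forall fun p => ?_)
    change f (-p.1, p.2) * φ p.1 = f (-p.1, p.2) * φ (- -p.1)
    rw [neg_neg]
  row := fun φ h1 h2 => by
    have := mpM.integral_comp' (fun p : ℝ × ℝ => f p * φ p.2)
    rw [D.row φ h1 h2] at this
    exact this

theorem Good.swap {K : Set (ℝ × ℝ)} {a b c d : ℝ} (h : Good K a b c d) : Good (swp K) c d a b := by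
  obtain ⟨h1, h2, h3, h4⟩ := h
  refine ⟨h2, h1, fun x y a1 a2 a3 a4 => h3 y x a3 a4 a1 a2, fun x y hxy hx => ?_⟩
  by_contra hcon
  have hy : y < a ∨ b < y := by
    rcases lt_or_ge y a with h | h
    · exact Or.inl h
    · rcases lt_or_ge b y with h' | h'
      · exact Or.inr h'
      · exact absurd ⟨h, h'⟩ hcon
  have := h4 y x hxy hy
  rcases hx with hx | hx
  · linarith [this.1]
  · linarith [this.2]

theorem Good.mir {K : Set (ℝ × ℝ)} {a b c d : ℝ} (h : Good K a b c d) :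
    Good (mir K) (-b) (-a) c d := by
  obtain ⟨h1, h2, h3, h4⟩ := h
  refine ⟨by linarith, h2, fun x y a1 a2 a3 a4 => h3 (-x) y (by linarith) (by linarith) a3 a4,
    fun x y hxy hx => h4 (-x) y hxy ?_⟩
  rcases hx with hx | hx
  · right; linarith
  · left; linarith

theorem NoN.swap {K : Set (ℝ × ℝ)} (h : NoN K) : NoN (swp K) := by
  intro x1 x2 y1 y2 hx hy h1 h2 h3
  by_contra hcon
  exact h3 (h y1 y2 x1 x2 hy hx h1 h2 hcon)

theorem ae_swap (P : ℝ × ℝ → Prop) (h : ∀ᵐ p : ℝ × ℝ, P (p.2, p.1)) : ∀ᵐ p : ℝ × ℝ, P p :=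
  mpS.quasiMeasurePreserving.ae h

theorem ae_mir (P : ℝ × ℝ → Prop) (h : ∀ᵐ p : ℝ × ℝ, P (-p.1, p.2)) : ∀ᵐ p : ℝ × ℝ, P p := by
  have := mpM.quasiMeasurePreserving.ae h
  filter_upwards [this] with p hp
  have e : (-(mirE p).1, (mirE p).2) = p := by
    change (- -p.1, p.2) = p
    rw [neg_neg]
  rwa [e] at hp

theorem setint_swap (S : Set (ℝ × ℝ)) (f : ℝ × ℝ → ℝ) :
    ∫ p in {p : ℝ × ℝ | (p.2, p.1) ∈ S}, f (p.2, p.1) = ∫ p in S, f p :=
  mpS.setIntegral_preimage_emb MeasurableEquiv.prodComm.measurableEmbedding f S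

theorem setint_mir (S : Set (ℝ × ℝ)) (f : ℝ × ℝ → ℝ) :
    ∫ p in {p : ℝ × ℝ | (-p.1, p.2) ∈ S}, f (-p.1, p.2) = ∫ p in S, f p :=
  mpM.setIntegral_preimage_emb mirE.measurableEmbedding f S


end Pool.Agent.Helper601.XR
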