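import Mathlib
import Pool.Agent.Helper601.XR.Defs
import Pool.Agent.Helper601.XR.Xbasic
import Pool.Agent.Helper601.XR.Xcompat
import Pool.Agent.Helper601.XR.Xnull33
import Pool.Agent.Helper601.XR.Xside
import Pool.Agent.Helper601.XR.Xsym

set_option autoImplicit false

open MeasureTheory Set

namespace Pool.Agent.Helper601.XR

lemma row_conv' {K : Set (ℝ × ℝ)} (hK : Convex ℝ K) {a b x y : ℝ} (ha : (a, y) ∈ K)
    (hb : (b, y) ∈ K) (h1 : a ≤ x) (h2 : x ≤ b) : (x, y) ∈ K := by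
  have hc : Convex ℝ {x : ℝ | (x, y) ∈ K} := by
    intro u hu v hv s t hs ht hst
    have h := hK hu hv hs ht hst
    have e : s • (u, y) + t • (v, y) = (s • u + t • v, y) := by
      ext
      · simp
      · simp only [Prod.smul_mk, Prod.mk_add_mk, smul_eq_mul]
        rw [← add_mul, hst, one_mul]
    rw [e] at h
    exact h
  exact hc.ordConnected.out ha hb ⟨h1, h2⟩

lemma col_conv' {K : Set (ℝ × ℝ)} (hK : Convex ℝ K) {a b x y : ℝ} (ha : (x, a) ∈ K)
    (hb : (x, b) ∈ K) (h1 : a ≤ y) (h2 : y ≤ b) : (x, y) ∈ K := by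
  have hc : Convex ℝ {y : ℝ | (x, y) ∈ K} := by
    intro u hu v hv s t hs ht hst
    have h := hK hu hv hs ht hst
    have e : s • (x, u) + t • (x, v) = (x, s • u + t • v) := by
      ext
      · simp only [Prod.smul_mk, Prod.mk_add_mk, smul_eq_mul]
        rw [← add_mul, hst, one_mul]
      · simp
    rw [e] at h
    exact h
  exact hc.ordConnected.out ha hb ⟨h1, h2⟩

lemma chain_col {K : Set (ℝ × ℝ)} (hN : NoN K) (hP : NoN (mir K)) {x0 x : ℝ} (hx : x0 < x)
    {y1 y2 : ℝ} (hy1 : (x0, y1) ∈ K)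
    (hn1 : (x, y1) ∉ K) (hy2 : (x, y2) ∈ K) : (x0, y2) ∈ K := by
  by_contra hn2
  rcases lt_trichotomy y1 y2 with h | h | h
  · exact hn1 (hN x0 x y1 y2 hx h hy1 hy2 hn2)
  · rw [h] at hn1
    exact hn1 hy2
  · have := hP (-x) (-x0) y2 y1 (neg_lt_neg hx) h (by simpa [mir] using hy2)
      (by simpa [mir] using hy1) (by simpa [mir] using hn1)
    exact hn2 (by simpa [mir] using this)

lemma left_case {K : Set (ℝ × ℝ)} {f : ℝ × ℝ → ℝ} (D : Dat K f) (hN : NoN K) (hP : NoN (mir K))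
    (p ym yM : ℝ) (hbox : ∀ z ∈ K, ym ≤ z.2 ∧ z.2 ≤ yM) (h1 : (p, ym) ∈ K) (h2 : (p, yM) ∈ K) :
    ∀ᵐ z : ℝ × ℝ, z.1 < p → f z = 0 := by
  refine side D p ?_ ?_
  · intro x x' y hxx hx' hxy
    have hb := hbox _ hxy
    have hpy : (p, y) ∈ K := col_conv' D.conv h1 h2 hb.1 hb.2
    exact row_conv' D.conv hxy hpy hxx.le hx'.le
  · intro x0 l u hx0 hlu hcol
    have hl : (x0, l) ∈ K := (hcol l).2 ⟨le_rfl, hlu⟩
    have hu : (x0, u) ∈ K := (hcol u).2 ⟨hlu, le_rfl⟩
    have hKm : MeasurableSet K := D.comp.isClosed.measurableSet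
    set A : Set ℝ := {x | p ≤ x ∧ (x, l) ∈ K ∧ (x, u) ∈ K} with hA
    have hAm : MeasurableSet A := by
      refine (measurableSet_Ici).inter (MeasurableSet.inter ?_ ?_)
      · exact (measurable_id.prodMk measurable_const) hKm
      · exact (measurable_id.prodMk measurable_const) hKm
    set B : Set ℝ := {x | p ≤ x} \ A with hB
    have hBm : MeasurableSet B := (measurableSet_Ici).diff hAm
    have hBK : ∀ x ∈ B, ∀ y, (x, y) ∈ K → l ≤ y ∧ y ≤ u := by
      rintro x ⟨hx1, hx2⟩ y hy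
      rw [← hcol]
      have hx1' : x0 < x := lt_of_lt_of_le hx0 hx1
      by_cases c1 : (x, l) ∈ K
      · by_cases c2 : (x, u) ∈ K
        · exact absurd ⟨hx1, c1, c2⟩ hx2
        · exact chain_col hN hP hx1' hu c2 hy
      · exact chain_col hN hP hx1' hl c1 hy
    have mfst : ∀ S : Set ℝ, MeasurableSet S → MeasurableSet {z : ℝ × ℝ | z.1 ∈ S} :=
      fun S hS => measurable_fst hS
    have msnd : ∀ S : Set ℝ, MeasurableSet S → MeasurableSet {z : ℝ × ℝ | z.2 ∈ S} :=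
      fun S hS => measurable_snd hS
    -- the pieces
    set R : Set (ℝ × ℝ) := {z | z.2 ∈ Icc l u} with hR
    have hRm : MeasurableSet R := msnd _ measurableSet_Icc
    set P : Set (ℝ × ℝ) := {z | z.1 ∈ Iio p} with hPd
    have hPm : MeasurableSet P := mfst _ measurableSet_Iio
    set SA : Set (ℝ × ℝ) := {z | z.1 ∈ A} with hSA
    have hSAm : MeasurableSet SA := mfst _ hAm
    set SB : Set (ℝ × ℝ) := {z | z.1 ∈ B} with hSB
    have hSBm : MeasurableSet SB := mfst _ hBm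
    have e0 : (∫ z in R, f z) = 0 := row_mass D _ measurableSet_Icc
    have eB : (∫ z in SB, f z) = 0 := col_mass D _ hBm
    have e1 : (∫ z in R ∩ P, f z) + (∫ z in R \ P, f z) = ∫ z in R, f z :=
      integral_inter_add_sdiff hPm D.int.integrableOn
    have e2 : (∫ z in (R \ P) ∩ SA, f z) + (∫ z in (R \ P) \ SA, f z) = ∫ z in R \ P, f z :=
      integral_inter_add_sdiff hSAm D.int.integrableOn
    have e3 : (∫ z in SB ∩ R, f z) + (∫ z in SB \ R, f z) = ∫ z in SB, f z :=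
      integral_inter_add_sdiff hRm D.int.integrableOn
    have e4 : (R \ P) \ SA = SB ∩ R := by
      ext z
      constructor
      · rintro ⟨⟨a1, a2⟩, a3⟩
        exact ⟨⟨(not_lt.1 a2 : p ≤ z.1), a3⟩, a1⟩
      · rintro ⟨⟨a2, a3⟩, a1⟩
        exact ⟨⟨a1, fun h => absurd (show z.1 < p from h) (not_lt.2 a2)⟩, a3⟩
    have n1 : (∫ z in (R \ P) ∩ SA, f z) ≤ 0 := by
      refine setIntegral_nonpos ((hRm.diff hPm).inter hSAm) ?_
      rintro ⟨x, y⟩ ⟨⟨a1, a2⟩, a3⟩
      exact D.neg _ (col_conv' D.conv a3.2.1 a3.2.2 a1.1 a1.2)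
    have n2 : 0 ≤ ∫ z in SB \ R, f z := by
      refine setIntegral_nonneg (hSBm.diff hRm) ?_
      rintro ⟨x, y⟩ ⟨a1, a2⟩
      exact D.pos _ fun h => a2 (hBK x a1 y h)
    have e5 : {z : ℝ × ℝ | z.1 < p ∧ l ≤ z.2 ∧ z.2 ≤ u} = R ∩ P := by
      ext z
      constructor
      · rintro ⟨a1, a2, a3⟩
        exact ⟨⟨a2, a3⟩, a1⟩
      · rintro ⟨⟨a2, a3⟩, a1⟩
        exact ⟨a1, a2, a3⟩
    rw [e5]
    rw [e4] at e2
    linarith

/-- Case I: no switching rectangle at all, full column at `x = p` -/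
theorem case1 {K : Set (ℝ × ℝ)} {f : ℝ × ℝ → ℝ} (D : Dat K f) (hN : NoN K) (hP : NoN (mir K))
    (p ym yM : ℝ) (hbox : ∀ z ∈ K, ym ≤ z.2 ∧ z.2 ≤ yM) (h1 : (p, ym) ∈ K) (h2 : (p, yM) ∈ K) :
    ∀ᵐ z : ℝ × ℝ, f z = 0 := by
  have L := left_case D hN hP p ym yM hbox h1 h2
  have hmm : mir (mir K) = K := by
    ext z
    simp [mir]
  have R := left_case D.mir hP (by rw [hmm]; exact hN) (-p) ym yM
    (fun z hz => hbox (-z.1, z.2) hz) (by simpa [mir] using h1) (by simpa [mir] using h2)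
  have R' : ∀ᵐ z : ℝ × ℝ, p < z.1 → f z = 0 := by
    refine ae_mir (fun z => p < z.1 → f z = 0) ?_
    filter_upwards [R] with z hz h
    exact hz (by have : p < -z.1 := h; linarith)
  filter_upwards [L, R', null_x p] with z hL hR hne
  rcases lt_trichotomy z.1 p with h | h | h
  · exact hL h
  · exact absurd h hne
  · exact hR h


end Pool.Agent.Helper601.XR
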