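import Mathlib
import Pool.Agent.Helper601.XR.Defs

set_option autoImplicit false

open MeasureTheory Set

namespace Pool.Agent.Helper601.XR


theorem conj_norm (K : Set (ℝ × ℝ)) (hK : IsCompact K) (hi : (interior K).Nonempty) :
    ∃ (Φ : (ℝ × ℝ) ≃ₗ[ℝ] (ℝ × ℝ)) (xm xM ym yM p q : ℝ), xm < xM ∧ ym < yM ∧
      (∀ z ∈ Φ '' K, xm ≤ z.1 ∧ z.1 ≤ xM ∧ ym ≤ z.2 ∧ z.2 ≤ yM) ∧
      (xm, q) ∈ Φ '' K ∧ (xM, q) ∈ Φ '' K ∧ (p, ym) ∈ Φ '' K ∧ (p, yM) ∈ Φ '' K := by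
  classical
  obtain ⟨z, hz⟩ := hi
  have hne : K.Nonempty := ⟨z, interior_subset hz⟩
  -- the maximum
  obtain ⟨⟨a, b, c, d⟩, ⟨ha, hb, hc, hd⟩, hmax⟩ :=
    (hK.prod (hK.prod (hK.prod hK))).exists_isMaxOn
      (hne.prod (hne.prod (hne.prod hne)))
      (f := fun w : (ℝ × ℝ) × (ℝ × ℝ) × (ℝ × ℝ) × (ℝ × ℝ) =>
        (w.2.1.1 - w.1.1) * (w.2.2.2.2 - w.2.2.1.2) - (w.2.1.2 - w.1.2) * (w.2.2.2.1 - w.2.2.1.1))
      (by fun_prop)
  simp only at ha hb hc hd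
  have hm : ∀ a' b' c' d' : ℝ × ℝ, a' ∈ K → b' ∈ K → c' ∈ K → d' ∈ K →
      (b'.1 - a'.1) * (d'.2 - c'.2) - (b'.2 - a'.2) * (d'.1 - c'.1) ≤
      (b.1 - a.1) * (d.2 - c.2) - (b.2 - a.2) * (d.1 - c.1) := by
    intro a' b' c' d' h1 h2 h3 h4
    exact hmax (show (a', b', c', d') ∈ K ×ˢ K ×ˢ K ×ˢ K from ⟨h1, h2, h3, h4⟩)
  obtain ⟨D, hD⟩ : ∃ D, D = (b.1 - a.1) * (d.2 - c.2) - (b.2 - a.2) * (d.1 - c.1) := ⟨_, rfl⟩
  have hD0 : 0 < D := by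
    obtain ⟨ε, hε, hball⟩ := Metric.mem_nhds_iff.1 (mem_interior_iff_mem_nhds.1 hz)
    have hin : ∀ s t : ℝ, |s| < ε → |t| < ε → (z.1 + s, z.2 + t) ∈ K := by
      intro s t hs ht
      apply hball
      rw [Metric.mem_ball, Prod.dist_eq]
      simp only [Real.dist_eq, add_sub_cancel_left]
      exact max_lt hs ht
    have he : |ε / 2| < ε := by rw [abs_of_pos (by linarith)]; linarith
    have he' : |-(ε / 2)| < ε := by rw [abs_neg]; exact he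
    have h0 : |(0 : ℝ)| < ε := by rw [abs_zero]; exact hε
    have := hm (z.1 + -(ε / 2), z.2 + 0) (z.1 + ε / 2, z.2 + 0) (z.1 + 0, z.2 + -(ε / 2))
      (z.1 + 0, z.2 + ε / 2) (hin _ _ he' h0) (hin _ _ he h0) (hin _ _ h0 he') (hin _ _ h0 he)
    simp only at this
    rw [hD]
    nlinarith
  obtain ⟨u1, hu1⟩ : ∃ x, x = b.1 - a.1 := ⟨_, rfl⟩
  obtain ⟨u2, hu2⟩ : ∃ x, x = b.2 - a.2 := ⟨_, rfl⟩
  obtain ⟨v1, hv1⟩ : ∃ x, x = d.1 - c.1 := ⟨_, rfl⟩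
  obtain ⟨v2, hv2⟩ : ∃ x, x = d.2 - c.2 := ⟨_, rfl⟩
  have hDuv : D = u1 * v2 - u2 * v1 := by rw [hD, hu1, hu2, hv1, hv2]
  have hDne : u1 * v2 - u2 * v1 ≠ 0 := by rw [← hDuv]; exact hD0.ne'
  let Φ : (ℝ × ℝ) ≃ₗ[ℝ] (ℝ × ℝ) :=
    { toFun := fun X => ((X.1 * v2 - X.2 * v1) / D, (u1 * X.2 - u2 * X.1) / D)
      map_add' := by
        intro X Y
        ext
        · simp only [Prod.fst_add, Prod.snd_add]; ring
        · simp only [Prod.fst_add, Prod.snd_add]; ring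
      map_smul' := by
        intro r X
        ext
        · simp only [Prod.smul_fst, Prod.smul_snd, smul_eq_mul, RingHom.id_apply]; ring
        · simp only [Prod.smul_fst, Prod.smul_snd, smul_eq_mul, RingHom.id_apply]; ring
      invFun := fun w => (w.1 * u1 + w.2 * v1, w.1 * u2 + w.2 * v2)
      left_inv := by
        intro X
        ext
        · show (X.1 * v2 - X.2 * v1) / D * u1 + (u1 * X.2 - u2 * X.1) / D * v1 = X.1
          rw [div_mul_eq_mul_div, div_mul_eq_mul_div, ← add_div, div_eq_iff hD0.ne', hDuv]; ring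
        · show (X.1 * v2 - X.2 * v1) / D * u2 + (u1 * X.2 - u2 * X.1) / D * v2 = X.2
          rw [div_mul_eq_mul_div, div_mul_eq_mul_div, ← add_div, div_eq_iff hD0.ne', hDuv]; ring
      right_inv := by
        intro w
        ext
        · show ((w.1 * u1 + w.2 * v1) * v2 - (w.1 * u2 + w.2 * v2) * v1) / D = w.1
          rw [div_eq_iff hD0.ne', hDuv]; ring
        · show (u1 * (w.1 * u2 + w.2 * v2) - u2 * (w.1 * u1 + w.2 * v1)) / D = w.2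
          rw [div_eq_iff hD0.ne', hDuv]; ring }
  have hΦ : ∀ X, Φ X = ((X.1 * v2 - X.2 * v1) / D, (u1 * X.2 - u2 * X.1) / D) := fun X => rfl
  refine ⟨Φ, (a.1 * v2 - a.2 * v1) / D, (b.1 * v2 - b.2 * v1) / D,
    (u1 * c.2 - u2 * c.1) / D, (u1 * d.2 - u2 * d.1) / D,
    (c.1 * v2 - c.2 * v1) / D, (u1 * a.2 - u2 * a.1) / D, ?_, ?_, ?_, ?_, ?_, ?_, ?_⟩
  · apply div_lt_div_of_pos_right _ hD0
    rw [hu1, hu2] at hDuv
    nlinarith
  · apply div_lt_div_of_pos_right _ hD0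
    rw [hv1, hv2] at hDuv
    nlinarith
  · rintro w ⟨X, hX, rfl⟩
    rw [hΦ]
    have h1 := hm a X c d ha hX hc hd
    have h2 := hm X b c d hX hb hc hd
    have h3 := hm a b c X ha hb hc hX
    have h4 := hm a b X d ha hb hX hd
    rw [← hu1, ← hu2, ← hv1, ← hv2] at h1 h2
    rw [← hu1, ← hu2] at h3 h4
    rw [← hv1, ← hv2] at h3 h4
    simp only
    refine ⟨div_le_div_of_nonneg_right ?_ hD0.le, div_le_div_of_nonneg_right ?_ hD0.le,
      div_le_div_of_nonneg_right ?_ hD0.le, div_le_div_of_nonneg_right ?_ hD0.le⟩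
    · rw [hu1, hu2] at h2; linarith
    · rw [hu1, hu2] at h1; linarith
    · rw [hv1, hv2] at h4; linarith
    · rw [hv1, hv2] at h3; linarith
  · exact ⟨a, ha, by rw [hΦ]⟩
  · refine ⟨b, hb, ?_⟩
    rw [hΦ]
    ext
    · rfl
    · simp only
      congr 1
      rw [hu1, hu2]; ring
  · exact ⟨c, hc, by rw [hΦ]⟩
  · refine ⟨d, hd, ?_⟩
    rw [hΦ]
    ext
    · simp only
      congr 1
      rw [hv1, hv2]; ring
    · rfl


end Pool.Agent.Helper601.XR
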