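import Mathlib
import Pool.Agent.Helper601.XR.Defs
import Pool.Agent.Helper601.XR.Xbasic
import Pool.Agent.Helper601.XR.Xnull33

set_option autoImplicit false

open MeasureTheory Set

namespace Pool.Agent.Helper601.XR


/-- the mass function on the left of the line `x = a` -/
noncomputable def HH (f : ℝ × ℝ → ℝ) (a y : ℝ) : ℝ := ∫ p in {p : ℝ × ℝ | p.1 < a ∧ p.2 < y}, f p

theorem int_zero833 {f : ℝ × ℝ → ℝ} {S : Set (ℝ × ℝ)} (hS : MeasurableSet S)
    (h : ∀ᵐ p : ℝ × ℝ, p ∈ S → f p = 0) : ∫ p in S, f p = 0 := by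
  have h1 : ∫ p in S, f p = ∫ p in S, (0 : ℝ) := setIntegral_congr_ae hS h
  rw [h1]; simp

theorem meas833_lt (a y : ℝ) : MeasurableSet {p : ℝ × ℝ | p.1 < a ∧ p.2 < y} :=
  (measurableSet_lt measurable_fst measurable_const).inter
    (measurableSet_lt measurable_snd measurable_const)

theorem meas833_ge (a y : ℝ) : MeasurableSet {p : ℝ × ℝ | p.1 < a ∧ y ≤ p.2} :=
  (measurableSet_lt measurable_fst measurable_const).inter
    (measurableSet_le measurable_const measurable_snd)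

theorem meas833_mid (a l u : ℝ) : MeasurableSet {p : ℝ × ℝ | p.1 < a ∧ l ≤ p.2 ∧ p.2 < u} :=
  (measurableSet_lt measurable_fst measurable_const).inter
    ((measurableSet_le measurable_const measurable_snd).inter
    (measurableSet_lt measurable_snd measurable_const))

theorem HH_c {K : Set (ℝ × ℝ)} {f : ℝ × ℝ → ℝ} {a b c d : ℝ} (D : Dat K f) (h : Good K a b c d) :
    HH f a c = 0 := by
  unfold HH
  refine int_zero833 (meas833_lt a c) ?_
  filter_upwards [(null33 D h).2] with p hp hpS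
  exact hp (Or.inl hpS.1) (Or.inl hpS.2)

theorem HH_d {K : Set (ℝ × ℝ)} {f : ℝ × ℝ → ℝ} {a b c d : ℝ} (D : Dat K f) (h : Good K a b c d) :
    HH f a d = 0 := by
  have h1 := col_mass D (Iio a) measurableSet_Iio
  have h2 : {p : ℝ × ℝ | p.1 ∈ Iio a} = {p : ℝ × ℝ | p.1 < a ∧ p.2 < d} ∪
      {p : ℝ × ℝ | p.1 < a ∧ d ≤ p.2} := by
    ext p
    constructor
    · intro hp
      have hp' : p.1 < a := hp
      rcases lt_or_ge p.2 d with h3 | h3
      · exact Or.inl ⟨hp', h3⟩
      · exact Or.inr ⟨hp', h3⟩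
    · rintro (hp | hp)
      · exact hp.1
      · exact hp.1
  have hdisj : Disjoint {p : ℝ × ℝ | p.1 < a ∧ p.2 < d} {p : ℝ × ℝ | p.1 < a ∧ d ≤ p.2} := by
    rw [Set.disjoint_left]
    intro p hp hp2
    exact absurd hp2.2 (not_le.mpr hp.2)
  rw [h2, setIntegral_union hdisj (meas833_ge a d) D.int.integrableOn D.int.integrableOn] at h1
  have h4 : ∫ p in {p : ℝ × ℝ | p.1 < a ∧ d ≤ p.2}, f p = 0 := by
    refine int_zero833 (meas833_ge a d) ?_
    filter_upwards [(null33 D h).2, null_y d] with p hp hpd hpS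
    exact hp (Or.inl hpS.1) (Or.inr (lt_of_le_of_ne hpS.2 (Ne.symm hpd)))
  rw [h4, add_zero] at h1
  exact h1

theorem HH_sub {f : ℝ × ℝ → ℝ} (hf : Integrable f) (a l u : ℝ) (hlu : l ≤ u) :
    HH f a u - HH f a l = ∫ p in {p : ℝ × ℝ | p.1 < a ∧ l ≤ p.2 ∧ p.2 ≤ u}, f p := by
  have h2 : {p : ℝ × ℝ | p.1 < a ∧ p.2 < u} = {p : ℝ × ℝ | p.1 < a ∧ p.2 < l} ∪
      {p : ℝ × ℝ | p.1 < a ∧ l ≤ p.2 ∧ p.2 < u} := by
    ext p
    constructor
    · intro hp
      rcases lt_or_ge p.2 l with h3 | h3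
      · exact Or.inl ⟨hp.1, h3⟩
      · exact Or.inr ⟨hp.1, h3, hp.2⟩
    · rintro (hp | hp)
      · exact ⟨hp.1, lt_of_lt_of_le hp.2 hlu⟩
      · exact ⟨hp.1, hp.2.2⟩
  have hdisj : Disjoint {p : ℝ × ℝ | p.1 < a ∧ p.2 < l}
      {p : ℝ × ℝ | p.1 < a ∧ l ≤ p.2 ∧ p.2 < u} := by
    rw [Set.disjoint_left]
    intro p hp hp2
    exact absurd hp2.2.1 (not_le.mpr hp.2)
  unfold HH
  rw [h2, setIntegral_union hdisj (meas833_mid a l u) hf.integrableOn hf.integrableOn]
  rw [add_sub_cancel_left]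
  refine setIntegral_congr_set ?_
  filter_upwards [null_y u] with p hp
  have : (p ∈ {p : ℝ × ℝ | p.1 < a ∧ l ≤ p.2 ∧ p.2 < u}) =
      (p ∈ {p : ℝ × ℝ | p.1 < a ∧ l ≤ p.2 ∧ p.2 ≤ u}) := by
    apply propext
    constructor
    · intro h; exact ⟨h.1, h.2.1, h.2.2.le⟩
    · intro h; exact ⟨h.1, h.2.1, lt_of_le_of_ne h.2.2 hp⟩
  exact this

theorem HH_cont {f : ℝ × ℝ → ℝ} (hf : Integrable f) (a : ℝ) : Continuous (HH f a) := by
  have h0 : HH f a = fun y => ∫ p, ({p : ℝ × ℝ | p.1 < a ∧ p.2 < y}).indicator f p := by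
    funext y
    unfold HH
    rw [integral_indicator (meas833_lt a y)]
  rw [h0, continuous_iff_continuousAt]
  intro y0
  refine continuousAt_of_dominated (bound := fun p => |f p|) ?_ ?_ hf.abs ?_
  · exact Filter.Eventually.of_forall fun y =>
      (hf.indicator (meas833_lt a y)).aestronglyMeasurable
  · refine Filter.Eventually.of_forall fun y => Filter.Eventually.of_forall fun p => ?_
    exact norm_indicator_le_norm_self f p
  · filter_upwards [null_y y0] with p hp
    rcases lt_or_gt_of_ne hp with h | h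
    · have : (fun y => ({p : ℝ × ℝ | p.1 < a ∧ p.2 < y}).indicator f p) =ᶠ[nhds y0]
          fun _ => ({p : ℝ × ℝ | p.1 < a}).indicator f p := by
        filter_upwards [lt_mem_nhds h] with y hy
        by_cases ha : p.1 < a
        · rw [indicator_of_mem (show p ∈ {p : ℝ × ℝ | p.1 < a ∧ p.2 < y} from ⟨ha, hy⟩),
            indicator_of_mem (show p ∈ {p : ℝ × ℝ | p.1 < a} from ha)]
        · rw [indicator_of_notMem (show p ∉ {p : ℝ × ℝ | p.1 < a ∧ p.2 < y} from fun h => ha h.1),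
            indicator_of_notMem (show p ∉ {p : ℝ × ℝ | p.1 < a} from ha)]
      exact continuousAt_const.congr this.symm
    · have : (fun y => ({p : ℝ × ℝ | p.1 < a ∧ p.2 < y}).indicator f p) =ᶠ[nhds y0]
          fun _ => 0 := by
        filter_upwards [gt_mem_nhds h] with y hy
        rw [indicator_of_notMem (show p ∉ {p : ℝ × ℝ | p.1 < a ∧ p.2 < y} from
          fun h => absurd h.2 (not_lt.mpr hy.le))]
      exact continuousAt_const.congr this.symm


end Pool.Agent.Helper601.XR
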