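import Mathlib
import Pool.Agent.Helper601.XR.Defs
import Pool.Agent.Helper601.XR.Xbasic
import Pool.Agent.Helper601.XR.Xcompat
import Pool.Agent.Helper601.XR.Xhfun
import Pool.Agent.Helper601.XR.Xnull33
import Pool.Agent.Helper601.XR.Xsym

set_option autoImplicit false

open MeasureTheory Set

namespace Pool.Agent.Helper601.XR

theorem HH_L {K : Set (ℝ × ℝ)} {f : ℝ × ℝ → ℝ} (D : Dat K f) (a x0 l u : ℝ) (hlu : l ≤ u)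
    (h0 : x0 ≤ a)
    (h1 : ∀ x y, x < x0 → (x, y) ∈ K → l ≤ y ∧ y ≤ u)
    (h2 : ∀ x y, x0 < x → x < a → l ≤ y → y ≤ u → (x, y) ∈ K) :
    HH f a u ≤ HH f a l := by
  have h := (compatL D a x0 l u h0 h1 h2).1
  have e := HH_sub D.int a l u hlu
  linarith

/-- masses on the right are opposite to those on the left -/
theorem right_left {K : Set (ℝ × ℝ)} {f : ℝ × ℝ → ℝ} {a b c d : ℝ} (D : Dat K f)
    (h : Good K a b c d) (l u : ℝ) (hcl : c ≤ l) (hud : u ≤ d) :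
    ∫ p in {p : ℝ × ℝ | b < p.1 ∧ l ≤ p.2 ∧ p.2 ≤ u}, f p =
      - ∫ p in {p : ℝ × ℝ | p.1 < a ∧ l ≤ p.2 ∧ p.2 ≤ u}, f p := by
  have m1 : MeasurableSet {p : ℝ × ℝ | p.1 < a} := measurableSet_lt measurable_fst measurable_const
  have m1' : MeasurableSet {p : ℝ × ℝ | a ≤ p.1 ∧ p.1 ≤ b} :=
    (measurableSet_le measurable_const measurable_fst).inter
      (measurableSet_le measurable_fst measurable_const)
  have m3 : MeasurableSet {p : ℝ × ℝ | b < p.1} := measurableSet_lt measurable_const measurable_fst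
  have m2 : MeasurableSet {p : ℝ × ℝ | l ≤ p.2 ∧ p.2 ≤ u} :=
    (measurableSet_le measurable_const measurable_snd).inter
      (measurableSet_le measurable_snd measurable_const)
  have hr := row_mass D (Set.Icc l u) measurableSet_Icc
  have e : {p : ℝ × ℝ | p.2 ∈ Set.Icc l u} =
      ({p : ℝ × ℝ | p.1 < a ∧ l ≤ p.2 ∧ p.2 ≤ u} ∪
        {p : ℝ × ℝ | (a ≤ p.1 ∧ p.1 ≤ b) ∧ l ≤ p.2 ∧ p.2 ≤ u}) ∪
        {p : ℝ × ℝ | b < p.1 ∧ l ≤ p.2 ∧ p.2 ≤ u} := by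
    ext p
    show (l ≤ p.2 ∧ p.2 ≤ u) ↔ (((p.1 < a ∧ l ≤ p.2 ∧ p.2 ≤ u) ∨
      ((a ≤ p.1 ∧ p.1 ≤ b) ∧ l ≤ p.2 ∧ p.2 ≤ u)) ∨ (b < p.1 ∧ l ≤ p.2 ∧ p.2 ≤ u))
    rcases lt_or_ge p.1 a with h1 | h1 <;> rcases le_or_gt p.1 b with h2 | h2 <;> tauto
  have hab := h.1
  have n3 : MeasurableSet {p : ℝ × ℝ | b < p.1 ∧ l ≤ p.2 ∧ p.2 ≤ u} := m3.inter m2
  have n2 : MeasurableSet {p : ℝ × ℝ | (a ≤ p.1 ∧ p.1 ≤ b) ∧ l ≤ p.2 ∧ p.2 ≤ u} := m1'.inter m2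
  rw [e, setIntegral_union ?_ n3 D.int.integrableOn D.int.integrableOn,
    setIntegral_union ?_ n2 D.int.integrableOn D.int.integrableOn] at hr
  · have hm : ∫ p in {p : ℝ × ℝ | (a ≤ p.1 ∧ p.1 ≤ b) ∧ l ≤ p.2 ∧ p.2 ≤ u}, f p = 0 := by
      apply setIntegral_eq_zero_of_ae_eq_zero
      filter_upwards [(null33 D h).1] with p hp hq
      exact hp hq.1.1 hq.1.2 (hcl.trans hq.2.1) (hq.2.2.trans hud)
    linarith
  · rw [Set.disjoint_left]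
    rintro p ⟨h3, -⟩ ⟨h4, -⟩
    linarith [h4.1]
  · rw [Set.disjoint_left]
    rintro p (⟨h3, -⟩ | ⟨h3, -⟩) ⟨h4, -⟩
    · linarith
    · linarith [h3.2]

theorem HH_R {K : Set (ℝ × ℝ)} {f : ℝ × ℝ → ℝ} {a b c d : ℝ} (D : Dat K f) (h : Good K a b c d)
    (x0 l u : ℝ) (hcl : c ≤ l) (hlu : l ≤ u) (hud : u ≤ d) (h0 : b ≤ x0)
    (h1 : ∀ x y, x0 < x → (x, y) ∈ K → l ≤ y ∧ y ≤ u)
    (h2 : ∀ x y, b < x → x < x0 → l ≤ y → y ≤ u → (x, y) ∈ K) :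
    HH f a l ≤ HH f a u := by
  have e := HH_sub D.int a l u hlu
  have e2 := right_left D h l u hcl hud
  have e3 := (compatL D.mir (-b) (-x0) l u (by linarith)
    (fun x y hx hy => h1 (-x) y (by linarith) hy)
    (fun x y hx hy h3 h4 => h2 (-x) y (by linarith) (by linarith) h3 h4)).1
  have e4 := setint_mir {p : ℝ × ℝ | b < p.1 ∧ l ≤ p.2 ∧ p.2 ≤ u} f
  have e5 : {p : ℝ × ℝ | (-p.1, p.2) ∈ {p : ℝ × ℝ | b < p.1 ∧ l ≤ p.2 ∧ p.2 ≤ u}} =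
      {p : ℝ × ℝ | p.1 < -b ∧ l ≤ p.2 ∧ p.2 ≤ u} := by
    ext p
    show (b < -p.1 ∧ l ≤ p.2 ∧ p.2 ≤ u) ↔ (p.1 < -b ∧ l ≤ p.2 ∧ p.2 ≤ u)
    rw [lt_neg]
  rw [e5] at e4
  linarith

end Pool.Agent.Helper601.XR
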