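import Mathlib
import Pool.Agent.Helper601.XR.Defs

set_option autoImplicit false

open MeasureTheory Set

namespace Pool.Agent.Helper601.XR


theorem h170_seg {K : Set (ℝ × ℝ)} (hc : Convex ℝ K) {x1 y1 x2 y2 t : ℝ} (h1 : (x1, y1) ∈ K)
    (h2 : (x2, y2) ∈ K) (t0 : 0 ≤ t) (t1 : t ≤ 1) :
    (x1 + t * (x2 - x1), y1 + t * (y2 - y1)) ∈ K := by
  have := hc h1 h2 (by linarith : 0 ≤ 1 - t) t0 (by ring)
  have e : (1 - t) • ((x1, y1) : ℝ × ℝ) + t • ((x2, y2) : ℝ × ℝ) =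
      (x1 + t * (x2 - x1), y1 + t * (y2 - y1)) := by
    ext <;> simp <;> ring
  rwa [e] at this

theorem h170_tt {x1 x2 x : ℝ} (hx : (x1 < x ∧ x ≤ x2) ∨ (x2 ≤ x ∧ x < x1)) :
    ∃ t, 0 < t ∧ t ≤ 1 ∧ (x ≠ x2 → t < 1) ∧ x1 + t * (x2 - x1) = x := by
  rcases hx with ⟨h1, h2⟩ | ⟨h1, h2⟩
  · have hp : 0 < x2 - x1 := by linarith
    refine ⟨(x - x1) / (x2 - x1), div_pos (by linarith) hp, (div_le_one hp).2 (by linarith), ?_, ?_⟩
    · intro hne
      have : x < x2 := lt_of_le_of_ne h2 hne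
      exact (div_lt_one hp).2 (by linarith)
    · field_simp; ring
  · have hp : 0 < x1 - x2 := by linarith
    refine ⟨(x1 - x) / (x1 - x2), div_pos (by linarith) hp, (div_le_one hp).2 (by linarith), ?_, ?_⟩
    · intro hne
      have : x2 < x := lt_of_le_of_ne h1 (Ne.symm hne)
      exact (div_lt_one hp).2 (by linarith)
    · field_simp; ring

theorem h170_segx {K : Set (ℝ × ℝ)} (hc : Convex ℝ K) {x1 y1 x2 y2 x : ℝ} (h1 : (x1, y1) ∈ K)
    (h2 : (x2, y2) ∈ K) (hx : (x1 < x ∧ x ≤ x2) ∨ (x2 ≤ x ∧ x < x1)) :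
    ∃ t, 0 < t ∧ t ≤ 1 ∧ (x ≠ x2 → t < 1) ∧ (x, y1 + t * (y2 - y1)) ∈ K := by
  obtain ⟨t, t0, t1, t2, t3⟩ := h170_tt hx
  refine ⟨t, t0, t1, t2, ?_⟩
  have := h170_seg hc h1 h2 t0.le t1
  rwa [t3] at this

theorem h170_segy {K : Set (ℝ × ℝ)} (hc : Convex ℝ K) {x1 y1 x2 y2 y : ℝ} (h1 : (x1, y1) ∈ K)
    (h2 : (x2, y2) ∈ K) (hy : (y1 < y ∧ y ≤ y2) ∨ (y2 ≤ y ∧ y < y1)) :
    ∃ t, 0 < t ∧ t ≤ 1 ∧ (y ≠ y2 → t < 1) ∧ (x1 + t * (x2 - x1), y) ∈ K := by
  obtain ⟨t, t0, t1, t2, t3⟩ := h170_tt hy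
  refine ⟨t, t0, t1, t2, ?_⟩
  have := h170_seg hc h1 h2 t0.le t1
  rwa [t3] at this

theorem h170_rw {K : Set (ℝ × ℝ)} (hc : Convex ℝ K) {x1 x2 x y : ℝ} (h1 : (x1, y) ∈ K)
    (h2 : (x2, y) ∈ K) (hx1 : x1 ≤ x) (hx2 : x ≤ x2) : (x, y) ∈ K := by
  rcases eq_or_lt_of_le hx1 with rfl | h
  · exact h1
  · obtain ⟨t, -, -, -, h3⟩ := h170_segx hc h1 h2 (Or.inl ⟨h, hx2⟩)
    simpa using h3

theorem h170_cl {K : Set (ℝ × ℝ)} (hc : Convex ℝ K) {x y1 y2 y : ℝ} (h1 : (x, y1) ∈ K)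
    (h2 : (x, y2) ∈ K) (hy1 : y1 ≤ y) (hy2 : y ≤ y2) : (x, y) ∈ K := by
  rcases eq_or_lt_of_le hy1 with rfl | h
  · exact h1
  · obtain ⟨t, -, -, -, h3⟩ := h170_segy hc h1 h2 (Or.inl ⟨h, hy2⟩)
    simpa using h3

theorem h170_rcomp {K : Set (ℝ × ℝ)} (hK : IsCompact K) (y : ℝ) : IsCompact {x | (x, y) ∈ K} := by
  have h1 : IsCompact (Prod.fst '' (K ∩ {p | p.2 = y})) :=
    (hK.inter_right (isClosed_eq continuous_snd continuous_const)).image continuous_fst
  have e : {x | (x, y) ∈ K} = Prod.fst '' (K ∩ {p : ℝ × ℝ | p.2 = y}) := by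
    ext x
    constructor
    · intro hx
      exact ⟨(x, y), ⟨hx, rfl⟩, rfl⟩
    · rintro ⟨⟨x', y'⟩, ⟨g1, g2⟩, g3⟩
      have h2' : y' = y := g2
      have h3' : x' = x := g3
      subst h2'; subst h3'
      exact g1
  rw [e]; exact h1

theorem h170_ccomp {K : Set (ℝ × ℝ)} (hK : IsCompact K) (x c d : ℝ) :
    IsCompact {t | (x, t) ∈ K ∧ c ≤ t ∧ t ≤ d} := by
  have h1 : IsCompact (Prod.snd '' (K ∩ {p | p.1 = x})) :=
    (hK.inter_right (isClosed_eq continuous_fst continuous_const)).image continuous_snd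
  have e : {t | (x, t) ∈ K ∧ c ≤ t ∧ t ≤ d} = (Prod.snd '' (K ∩ {p : ℝ × ℝ | p.1 = x})) ∩ Icc c d := by
    ext t
    constructor
    · rintro ⟨h1, h2, h3⟩
      exact ⟨⟨(x, t), ⟨h1, rfl⟩, rfl⟩, h2, h3⟩
    · rintro ⟨⟨⟨x', y'⟩, ⟨g1, g2⟩, g3⟩, h4, h5⟩
      have h2' : x' = x := g2
      have h3' : y' = t := g3
      subst h2'; subst h3'
      exact ⟨g1, h4, h5⟩
  rw [e]; exact h1.inter_right isClosed_Icc

theorem claimG {K : Set (ℝ × ℝ)} (hK : IsCompact K) (hc : Convex ℝ K) (hN : NoN K) {a b c d : ℝ}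
    (hG : Good K a b c d) (H : ℝ → ℝ) (Hc : H c = 0) (Hd : H d = 0)
    (HL : ∀ x0 l u, x0 ≤ a → c ≤ l → l ≤ u → u ≤ d →
      (∀ x y, x < x0 → (x, y) ∈ K → l ≤ y ∧ y ≤ u) →
      (∀ x y, x0 < x → x < a → l ≤ y → y ≤ u → (x, y) ∈ K) → H u ≤ H l)
    (HR : ∀ x0 l u, b ≤ x0 → c ≤ l → l ≤ u → u ≤ d →
      (∀ x y, x0 < x → (x, y) ∈ K → l ≤ y ∧ y ≤ u) →
      (∀ x y, b < x → x < x0 → l ≤ y → y ≤ u → (x, y) ∈ K) → H l ≤ H u)
    (y v : ℝ) (hcy : c ≤ y) (hyd : y ≤ d) (hv : v < 0) (hHy : H y ≤ v)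
    (hy' : ∀ t, y < t → t ≤ d → v < H t) :
    ∃ xL xR l, Good K xL xR l y ∧ xL < a ∧ b < xR ∧ c ≤ l ∧
      (∀ x0 y0, (x0, y0) ∈ K → x0 ≤ xL → y0 ≤ d → y0 ≤ y) := by
  obtain ⟨hab, hcd, hrect, hcor⟩ := hG
  have hyc : c < y := by
    rcases eq_or_lt_of_le hcy with h | h
    · exfalso; rw [← h, Hc] at hHy; linarith
    · exact h
  have hyd' : y < d := by
    rcases eq_or_lt_of_le hyd with h | h
    · exfalso; rw [h, Hd] at hHy; linarith
    · exact h
  have hay : (a, y) ∈ K := hrect a y le_rfl hab hcy hyd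
  have hby : (b, y) ∈ K := hrect b y hab le_rfl hcy hyd
  obtain ⟨xL, hxL, hxLmin⟩ := (h170_rcomp hK y).exists_isLeast ⟨a, hay⟩
  obtain ⟨xR, hxR, hxRmax⟩ := (h170_rcomp hK y).exists_isGreatest ⟨a, hay⟩
  have hLmin : ∀ x, (x, y) ∈ K → xL ≤ x := fun x hx => hxLmin hx
  have hRmax : ∀ x, (x, y) ∈ K → x ≤ xR := fun x hx => hxRmax hx
  have hLK : (xL, y) ∈ K := hxL
  have hRK : (xR, y) ∈ K := hxR
  have hLa : xL ≤ a := hLmin a hay
  have hbR : b ≤ xR := hRmax b hby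
  clear hxL hxLmin hxR hxRmax
  have had : (a, d) ∈ K := hrect a d le_rfl hab hcd le_rfl
  have hbc : (b, c) ∈ K := hrect b c hab le_rfl le_rfl hcd
  -- step 1
  have step1 : ∀ x0 y0, (x0, y0) ∈ K → x0 ≤ xL → y0 ≤ d → y0 ≤ y := by
    intro x0 y0 h0 hx0 hy0
    by_contra hcon
    push Not at hcon
    obtain ⟨u, ⟨huK, huc, hud⟩, humax⟩ := (h170_ccomp hK xL c d).exists_isGreatest ⟨y, hLK, hcy, hyd⟩
    have humax' : ∀ t, (xL, t) ∈ K → c ≤ t → t ≤ d → t ≤ u := fun t h1 h2 h3 => humax ⟨h1, h2, h3⟩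
    have huy : y < u := by
      rcases eq_or_lt_of_le hx0 with h | h
      · rw [h] at h0
        have := humax' y0 h0 (by linarith) hy0
        linarith
      · obtain ⟨t, t0, t1, -, ht⟩ := h170_segx hc h0 had (Or.inl ⟨h, hLa⟩)
        have e1 : 0 ≤ t * (d - y0) := mul_nonneg t0.le (by linarith)
        have e2 : t * (d - y0) ≤ 1 * (d - y0) := mul_le_mul_of_nonneg_right t1 (by linarith)
        have := humax' _ ht (by linarith) (by linarith)
        linarith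
    have key := HL xL y u hLa hcy huy.le hud ?_ ?_
    · have := hy' u huy hud
      linarith
    · intro x y' hx hxy'
      obtain ⟨g1, g2⟩ := hcor x y' hxy' (Or.inl (by linarith))
      constructor
      · by_contra hlt
        push Not at hlt
        obtain ⟨t, t0, t1, t2, ht⟩ := h170_segy hc hxy' h0 (Or.inl ⟨hlt, hcon.le⟩)
        have t2' := t2 hcon.ne
        have e1 : t * (x0 - x) ≤ t * (xL - x) := mul_le_mul_of_nonneg_left (by linarith) t0.le
        have e2 : t * (xL - x) < 1 * (xL - x) := mul_lt_mul_of_pos_right t2' (by linarith)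
        have := hLmin _ ht
        linarith
      · by_contra hlt
        push Not at hlt
        obtain ⟨t, t0, t1, -, ht⟩ := h170_segx hc hxy' had (Or.inl ⟨hx, hLa⟩)
        have e1 : 0 ≤ t * (d - y') := mul_nonneg t0.le (by linarith)
        have e2 : t * (d - y') ≤ 1 * (d - y') := mul_le_mul_of_nonneg_right t1 (by linarith)
        have := humax' _ ht (by linarith) (by linarith)
        linarith
    · intro x y' hx hxa h1 h2
      have h3 : (x, y) ∈ K := h170_rw hc hLK hay hx.le hxa.le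
      have h4 : (x, u) ∈ K := h170_rw hc huK (hrect a u le_rfl hab huc hud) hx.le hxa.le
      exact h170_cl hc h3 h4 h1 h2
  have hLa' : xL < a := by
    rcases eq_or_lt_of_le hLa with h | h
    · exfalso
      have := step1 a d had h.ge le_rfl
      linarith
    · exact h
  -- step 2
  have step2 : ∀ x' y', (x', y') ∈ K → xR < x' → y' ≤ y := by
    intro x' y' h0 hx'
    by_contra hcon
    push Not at hcon
    obtain ⟨g1, g2⟩ := hcor x' y' h0 (Or.inr (by linarith))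
    have h1 : (xL, y') ∉ K := by
      intro h
      have := step1 xL y' h le_rfl g2
      linarith
    have h2 := hN xL x' y y' (by linarith) hcon hLK h0 h1
    have := hRmax x' h2
    linarith
  obtain ⟨l, ⟨hlK, hlc, hld⟩, hlmin⟩ := (h170_ccomp hK xR c d).exists_isLeast ⟨y, hRK, hcy, hyd⟩
  have hlmin' : ∀ t, (xR, t) ∈ K → c ≤ t → t ≤ d → l ≤ t := fun t h1 h2 h3 => hlmin ⟨h1, h2, h3⟩
  have hly : l ≤ y := hlmin' y hRK hcy hyd
  have hfirst : ∀ x y', xR < x → (x, y') ∈ K → l ≤ y' ∧ y' ≤ y := by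
    intro x y' hx hxy'
    refine ⟨?_, step2 x y' hxy' hx⟩
    obtain ⟨g1, g2⟩ := hcor x y' hxy' (Or.inr (by linarith))
    by_contra hlt
    push Not at hlt
    obtain ⟨t, t0, t1, -, ht⟩ := h170_segx hc hxy' hbc (Or.inr ⟨hbR, hx⟩)
    have e1 : t * (y' - c) ≤ 1 * (y' - c) := mul_le_mul_of_nonneg_right t1 (by linarith)
    have e2 : 0 ≤ t * (y' - c) := mul_nonneg t0.le (by linarith)
    have e3 : y' + t * (c - y') = y' - t * (y' - c) := by ring
    rw [e3] at ht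
    have := hlmin' _ ht (by linarith) (by linarith)
    linarith
  have hbl : (b, l) ∈ K := hrect b l hab le_rfl hlc hld
  have hal : (a, l) ∈ K := hrect a l le_rfl hab hlc hld
  have hHl : H l ≤ v := by
    refine le_trans (HR xR l y hbR hlc hly hyd hfirst ?_) hHy
    intro x y' hx hxR h1 h2
    have h3 : (x, y) ∈ K := h170_rw hc hby hRK hx.le hxR.le
    have h4 : (x, l) ∈ K := h170_rw hc hbl hlK hx.le hxR.le
    exact h170_cl hc h4 h3 h1 h2
  have hcl : c < l := by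
    rcases eq_or_lt_of_le hlc with h | h
    · exfalso; rw [← h, Hc] at hHl; linarith
    · exact h
  have hbR' : b < xR := by
    rcases eq_or_lt_of_le hbR with h | h
    · exfalso
      rw [h] at hbc
      have := hlmin' c hbc le_rfl hcd
      linarith
    · exact h
  -- step 3a
  have step3a : ∀ x' y', (x', y') ∈ K → x' < xL → l ≤ y' := by
    intro x' y' h0 hx'
    by_contra hlt
    push Not at hlt
    obtain ⟨g1, g2⟩ := hcor x' y' h0 (Or.inl (by linarith))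
    have h1 : (x', y) ∉ K := by
      intro h
      have := hLmin x' h
      linarith
    have h2 := hN x' xR y' y (by linarith) (by linarith) h0 hRK h1
    have := hlmin' y' h2 g1 g2
    linarith
  -- step 3b
  have step3b : (xL, l) ∈ K := by
    by_contra hnot
    obtain ⟨x1, hx1, hx1min⟩ := (h170_rcomp hK l).exists_isLeast ⟨a, hal⟩
    have hx1K : (x1, l) ∈ K := hx1
    have h1min : ∀ x, (x, l) ∈ K → x1 ≤ x := fun x hx => hx1min hx
    have hx1a : x1 ≤ a := h1min a hal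
    have hLx1 : xL < x1 := by
      by_contra hcon
      push Not at hcon
      exact hnot (h170_rw hc hx1K hal hcon hLa)
    have hx1y : (x1, y) ∈ K := h170_rw hc hLK hay hLx1.le hx1a
    obtain ⟨u1, ⟨huK, huc, hud⟩, humax⟩ := (h170_ccomp hK x1 c d).exists_isGreatest ⟨l, hx1K, hlc, hld⟩
    have humax' : ∀ t, (x1, t) ∈ K → c ≤ t → t ≤ d → t ≤ u1 := fun t h1 h2 h3 => humax ⟨h1, h2, h3⟩
    have hlu : l ≤ u1 := humax' l hx1K hlc hld
    have key := HL x1 l u1 hx1a hlc hlu hud ?_ ?_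
    · have hu1y : u1 ≤ y := by
        by_contra hcon
        push Not at hcon
        have := hy' u1 hcon hud
        linarith
      obtain ⟨t, t0, t1, -, ht⟩ := h170_segx hc hLK had (Or.inl ⟨hLx1, hx1a⟩)
      have e1 : 0 < t * (d - y) := mul_pos t0 (by linarith)
      have e2 : t * (d - y) ≤ 1 * (d - y) := mul_le_mul_of_nonneg_right t1 (by linarith)
      have := humax' _ ht (by linarith) (by linarith)
      linarith
    · intro x y' hx hxy'
      obtain ⟨g1, g2⟩ := hcor x y' hxy' (Or.inl (by linarith))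
      constructor
      · by_contra hlt
        push Not at hlt
        rcases lt_or_ge x xL with h | h
        · have := step3a x y' hxy' h
          linarith
        · have h3 : (x, y) ∈ K := h170_rw hc hLK hay h (by linarith)
          have h4 : (x, l) ∈ K := h170_cl hc hxy' h3 hlt.le hly
          have := h1min x h4
          linarith
      · by_contra hlt
        push Not at hlt
        obtain ⟨t, t0, t1, -, ht⟩ := h170_segx hc hxy' had (Or.inl ⟨hx, hx1a⟩)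
        have e1 : 0 ≤ t * (d - y') := mul_nonneg t0.le (by linarith)
        have e2 : t * (d - y') ≤ 1 * (d - y') := mul_le_mul_of_nonneg_right t1 (by linarith)
        have := humax' _ ht (by linarith) (by linarith)
        linarith
    · intro x y' hx hxa h1 h2
      have h3 : (x, l) ∈ K := h170_rw hc hx1K hal hx.le hxa.le
      have h4 : (x, u1) ∈ K := h170_rw hc huK (hrect a u1 le_rfl hab huc hud) hx.le hxa.le
      exact h170_cl hc h3 h4 h1 h2
  refine ⟨xL, xR, l, ⟨by linarith, hly, ?_, ?_⟩, hLa', hbR', hlc, step1⟩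
  · intro x t hx1 hx2 ht1 ht2
    have h3 : (x, l) ∈ K := h170_rw hc step3b hlK hx1 hx2
    have h4 : (x, y) ∈ K := h170_rw hc hLK hRK hx1 hx2
    exact h170_cl hc h3 h4 ht1 ht2
  · intro x t hxt hx
    rcases hx with hx | hx
    · obtain ⟨g1, g2⟩ := hcor x t hxt (Or.inl (by linarith))
      exact ⟨step3a x t hxt hx, step1 x t hxt hx.le g2⟩
    · exact hfirst x t hx hxt


end Pool.Agent.Helper601.XR
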