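import Mathlib
import Pool.Agent.Helper601.XR.Defs
import Pool.Agent.Helper601.XR.Xbasic
import Pool.Agent.Helper601.XR.Xhfun
import Pool.Agent.Helper601.XR.Xnull33

set_option autoImplicit false

open MeasureTheory Set

namespace Pool.Agent.Helper601.XR


theorem incr {K : Set (ℝ × ℝ)} {f : ℝ × ℝ → ℝ} {a b c d : ℝ} (D : Dat K f) (hG : Good K a b c d)
    (y1 y2 l1 l2 p1 p2 q1 q2 : ℝ) (h12 : y1 < y2) (hd : y2 ≤ d)
    (g1 : Good K p1 q1 l1 y1) (g2 : Good K p2 q2 l2 y2) (hp2 : p2 < a) (hq2 : b < q2)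
    (m1 : ∀ x0 y0, (x0, y0) ∈ K → x0 ≤ p1 → y0 ≤ d → y0 ≤ y1) :
    p1 < p2 ∧ HH f a y2 - HH f a y1 ≤ (p2 - p1) * (y2 - y1) := by
  obtain ⟨g1a, g1b, g1c, g1d⟩ := g1
  obtain ⟨g2a, g2b, g2c, g2d⟩ := g2
  have hp12 : p1 < p2 := by
    by_contra hcon
    push Not at hcon
    have h1 : (p2, y2) ∈ K := g2c p2 y2 le_rfl g2a g2b le_rfl
    have h2 := m1 p2 y2 h1 hcon hd
    linarith
  refine ⟨hp12, ?_⟩
  have hK1 : (p1, y1) ∈ K := g1c p1 y1 le_rfl g1a g1b le_rfl
  have hl2 : l2 ≤ y1 := (g2d p1 y1 hK1 (Or.inl hp12)).1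
  rw [HH_sub D.int a y1 y2 h12.le]
  have hS : MeasurableSet {p : ℝ × ℝ | p.1 < a ∧ y1 ≤ p.2 ∧ p.2 ≤ y2} := by
    apply MeasurableSet.inter (measurableSet_lt measurable_fst measurable_const)
    apply MeasurableSet.inter (measurableSet_le measurable_const measurable_snd)
    exact measurableSet_le measurable_snd measurable_const
  have hR : MeasurableSet (Icc p1 p2 ×ˢ Icc y1 y2 : Set (ℝ × ℝ)) :=
    measurableSet_Icc.prod measurableSet_Icc
  have hvol : (volume (Icc p1 p2 ×ˢ Icc y1 y2 : Set (ℝ × ℝ))) =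
      ENNReal.ofReal (p2 - p1) * ENNReal.ofReal (y2 - y1) := by
    rw [Measure.volume_eq_prod, Measure.prod_prod, Real.volume_Icc, Real.volume_Icc]
  rw [← integral_indicator hS]
  have hint : ∫ p : ℝ × ℝ, (Icc p1 p2 ×ˢ Icc y1 y2 : Set (ℝ × ℝ)).indicator (1 : ℝ × ℝ → ℝ) p =
      (p2 - p1) * (y2 - y1) := by
    rw [integral_indicator_one hR, Measure.real, hvol, ENNReal.toReal_mul,
      ENNReal.toReal_ofReal (by linarith), ENNReal.toReal_ofReal (by linarith)]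
  rw [← hint]
  have hg1' : Good K p1 q1 l1 y1 := ⟨g1a, g1b, g1c, g1d⟩
  have hg2' : Good K p2 q2 l2 y2 := ⟨g2a, g2b, g2c, g2d⟩
  apply integral_mono_ae (D.int.indicator hS)
  · refine (integrable_indicator_iff hR).2 ?_
    refine integrableOn_const (by rw [hvol]; exact (ENNReal.mul_lt_top ENNReal.ofReal_lt_top
      ENNReal.ofReal_lt_top).ne) (by simp)
  · filter_upwards [null_y y1, (null33 D hg1').2, (null33 D hg2').1] with p hp0 hp1 hp2'
    by_cases hpS : p ∈ {p : ℝ × ℝ | p.1 < a ∧ y1 ≤ p.2 ∧ p.2 ≤ y2}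
    · rw [indicator_of_mem hpS]
      obtain ⟨hpa, hpb, hpc⟩ := hpS
      have hy1 : y1 < p.2 := lt_of_le_of_ne hpb hp0.symm
      by_cases hc1 : p.1 < p1
      · rw [hp1 (Or.inl hc1) (Or.inr hy1)]
        exact indicator_nonneg (fun _ _ => zero_le_one) _
      · by_cases hc2 : p2 ≤ p.1
        · rw [hp2' hc2 (by linarith [hG.1]) (by linarith) hpc]
          exact indicator_nonneg (fun _ _ => zero_le_one) _
        · have hmem : p ∈ (Icc p1 p2 ×ˢ Icc y1 y2 : Set (ℝ × ℝ)) := by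
            push Not at hc1 hc2
            exact ⟨⟨hc1, hc2.le⟩, ⟨hpb, hpc⟩⟩
          rw [indicator_of_mem hmem]
          exact (le_abs_self _).trans (D.le1 p)
    · rw [indicator_of_notMem hpS]
      exact indicator_nonneg (fun _ _ => zero_le_one) _


end Pool.Agent.Helper601.XR
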