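import Mathlib
import Pool.Agent.Helper601.XR.Defs

set_option autoImplicit false

open MeasureTheory Set

namespace Pool.Agent.Helper601.XR


theorem abs_part (h A : ℝ) (hh : 0 < h) (P : ℝ → ℝ → ℝ → Prop)
    (hex : ∀ v, -h < v → v < 0 → ∃ y x, P v y x ∧ |x| ≤ A ∧ |y| ≤ A)
    (hinc : ∀ v1 v2 y1 y2 x1 x2, v1 < v2 → P v1 y1 x1 → P v2 y2 x2 →
      x1 < x2 ∧ y1 < y2 ∧ v2 - v1 ≤ (x2 - x1) * (y2 - y1)) : False := by
  obtain ⟨n, hn⟩ := exists_nat_gt (8 * A ^ 2 / h + 2)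
  have hq : 0 ≤ 8 * A ^ 2 / h := by positivity
  have hn2 : (2 : ℝ) < n := by linarith
  have hn8 : 8 * A ^ 2 < n * h := by
    have : 8 * A ^ 2 / h < n := by linarith
    rwa [div_lt_iff₀ hh] at this
  set δ : ℝ := h / (n + 2) with hδ
  have hδ0 : 0 < δ := by positivity
  have hδn : δ * (n + 2) = h := by rw [hδ]; field_simp
  have h1 : ∀ i : ℕ, ∃ y x, i ≤ n → P (-h + δ * (i + 1)) y x ∧ |x| ≤ A ∧ |y| ≤ A := by
    intro i
    by_cases hi : i ≤ n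
    · have hi' : (i : ℝ) ≤ n := by exact_mod_cast hi
      have hi0 : (0 : ℝ) ≤ i := by positivity
      obtain ⟨y, x, hP⟩ := hex (-h + δ * (i + 1)) (by nlinarith) (by nlinarith)
      exact ⟨y, x, fun _ => hP⟩
    · exact ⟨0, 0, fun h => absurd h hi⟩
  choose y x hyx using h1
  have hstep : ∀ i ∈ Finset.range n, Real.sqrt δ ≤ (x (i + 1) - x i) / 2 + (y (i + 1) - y i) / 2 := by
    intro i hi
    rw [Finset.mem_range] at hi
    obtain ⟨hP1, -, -⟩ := hyx i hi.le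
    obtain ⟨hP2, -, -⟩ := hyx (i + 1) hi
    obtain ⟨a1, a2, a3⟩ := hinc _ _ _ _ _ _ (by push_cast; nlinarith) hP1 hP2
    have e : -h + δ * (((i + 1 : ℕ) : ℝ) + 1) - (-h + δ * ((i : ℝ) + 1)) = δ := by push_cast; ring
    rw [e] at a3
    apply Real.sqrt_le_iff.2
    constructor
    · linarith
    · nlinarith [sq_nonneg ((x (i + 1) - x i) - (y (i + 1) - y i))]
  have hsum := Finset.sum_le_sum hstep
  rw [Finset.sum_const, Finset.card_range, nsmul_eq_mul, Finset.sum_add_distrib, ← Finset.sum_div,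
    ← Finset.sum_div, Finset.sum_range_sub, Finset.sum_range_sub] at hsum
  obtain ⟨-, b1, b2⟩ := hyx 0 (Nat.zero_le _)
  obtain ⟨-, b3, b4⟩ := hyx n le_rfl
  have c1 := abs_le.1 b1
  have c2 := abs_le.1 b2
  have c3 := abs_le.1 b3
  have c4 := abs_le.1 b4
  have hns : (n : ℝ) * Real.sqrt δ ≤ 2 * A := by linarith [c1.1, c2.1, c3.2, c4.2]
  have hsq : ((n : ℝ) * Real.sqrt δ) ^ 2 ≤ (2 * A) ^ 2 := by
    apply pow_le_pow_left₀ (by positivity) hns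
  rw [mul_pow, Real.sq_sqrt hδ0.le] at hsq
  have h5 : (n : ℝ) ^ 2 * h ≤ (2 * A) ^ 2 * (n + 2) := by
    calc (n : ℝ) ^ 2 * h = ((n : ℝ) ^ 2 * δ) * (n + 2) := by rw [← hδn]; ring
      _ ≤ _ := by gcongr
  have h6 : (2 * A) ^ 2 * ((n : ℝ) + 2) ≤ 8 * A ^ 2 * n := by
    nlinarith [sq_nonneg A]
  nlinarith


end Pool.Agent.Helper601.XR
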