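import Mathlib
import Pool.Agent.Helper601.XR.Defs
import Pool.Agent.Helper601.XR.Xbasic
import Pool.Agent.Helper601.XR.Xclaimg
import Pool.Agent.Helper601.XR.Xhfun
import Pool.Agent.Helper601.XR.Xhlr
import Pool.Agent.Helper601.XR.Xincr
import Pool.Agent.Helper601.XR.Xpart

set_option autoImplicit false

open MeasureTheory Set

namespace Pool.Agent.Helper601.XR


theorem HH_nonneg {K : Set (ℝ × ℝ)} {f : ℝ × ℝ → ℝ} {a b c d : ℝ} (D : Dat K f) (hN : NoN K)
    (hG : Good K a b c d) (y : ℝ) (hcy : c ≤ y) (hyd : y ≤ d) : 0 ≤ HH f a y := by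
  by_contra hneg
  push Not at hneg
  obtain ⟨h, hh⟩ : ∃ h : ℝ, h = -HH f a y := ⟨_, rfl⟩
  have hhpos : 0 < h := by rw [hh]; linarith
  have hcont := HH_cont D.int a
  have hHc := HH_c D hG
  have hHd := HH_d D hG
  obtain ⟨A, hA⟩ := (isBounded_iff_forall_norm_le).1 D.comp.isBounded
  refine abs_part h A hhpos (fun v y x => c ≤ y ∧ y ≤ d ∧ HH f a y = v ∧
    (∀ t, y < t → t ≤ d → v < HH f a t) ∧ ∃ xR l, Good K x xR l y ∧ x < a ∧ b < xR ∧ c ≤ l ∧
      (∀ x0 y0, (x0, y0) ∈ K → x0 ≤ x → y0 ≤ d → y0 ≤ y)) ?_ ?_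
  · intro v hv1 hv0
    have hcomp : IsCompact ({t | HH f a t ≤ v} ∩ Icc c d) := by
      rw [inter_comm]
      exact isCompact_Icc.inter_right (isClosed_le hcont continuous_const)
    have hne : ({t | HH f a t ≤ v} ∩ Icc c d).Nonempty := by
      refine ⟨y, ?_, hcy, hyd⟩
      show HH f a y ≤ v
      linarith
    obtain ⟨m, ⟨hm1, hm2, hm3⟩, hmax⟩ := hcomp.exists_isGreatest hne
    have hm1' : HH f a m ≤ v := hm1
    have hmd : m < d := by
      rcases hm3.lt_or_eq with h1 | h1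
      · exact h1
      · rw [h1, hHd] at hm1'
        linarith
    have hgt : ∀ t, m < t → t ≤ d → v < HH f a t := by
      intro t ht1 ht2
      by_contra hcon
      push Not at hcon
      have := hmax ⟨hcon, hm2.trans ht1.le, ht2⟩
      linarith
    have hmv : HH f a m = v := by
      rcases hm1'.lt_or_eq with h1 | h1
      · exfalso
        have h2 : ∀ᶠ t in nhds m, HH f a t < v := (hcont.tendsto m).eventually (gt_mem_nhds h1)
        have h3 : ∀ᶠ t in nhdsWithin m (Ioi m), HH f a t < v := h2.filter_mono nhdsWithin_le_nhds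
        have h4 : ∀ᶠ t in nhdsWithin m (Ioi m), t ∈ Ioo m d := Ioo_mem_nhdsGT hmd
        obtain ⟨t, ht1, ht2⟩ := (h3.and h4).exists
        have := hgt t ht2.1 ht2.2.le
        linarith
      · exact h1
    obtain ⟨xL, xR, l, g1, g2, g3, g4, g5⟩ := claimG D.comp D.conv hN hG (HH f a) hHc hHd
      (fun x0 l u h0 _ hlu _ h1 h2 => HH_L D a x0 l u hlu h0 h1 h2)
      (fun x0 l u h0 hcl hlu hud h1 h2 => HH_R D hG x0 l u hcl hlu hud h0 h1 h2)
      m v hm2 hm3 hv0 hm1' hgt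
    have hmem : (xL, m) ∈ K := g1.2.2.1 xL m le_rfl g1.1 g1.2.1 le_rfl
    have hnorm := hA _ hmem
    refine ⟨m, xL, ⟨hm2, hm3, hmv, hgt, xR, l, g1, g2, g3, g4, g5⟩, ?_, ?_⟩
    · exact (norm_fst_le (xL, m)).trans hnorm
    · exact (norm_snd_le (xL, m)).trans hnorm
  · rintro v1 v2 y1 y2 x1 x2 hv ⟨a1, a2, a3, a4, q1, l1, g1, p1, r1, s1, m1⟩
      ⟨b1, b2, b3, b4, q2, l2, g2, p2, r2, s2, m2⟩
    have hy : y1 < y2 := by
      by_contra hcon
      push Not at hcon
      rcases hcon.lt_or_eq with h1 | h1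
      · have := b4 y1 h1 a2
        linarith
      · rw [h1] at b3
        linarith
    have := incr D hG y1 y2 l1 l2 x1 x2 q1 q2 hy b2 g1 g2 p2 r2 m1
    rw [a3, b3] at this
    exact ⟨this.1, hy, this.2⟩


end Pool.Agent.Helper601.XR
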