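import Mathlib
import Pool.Agent.Helper601.XR.Defs
import Pool.Agent.Helper601.XR.Xbasic
import Pool.Agent.Helper601.XR.Xhfun
import Pool.Agent.Helper601.XR.Xnull33

set_option autoImplicit false

open MeasureTheory Set

namespace Pool.Agent.Helper601.XR


/-- clamp to `[c,d]` -/
noncomputable def mcl (c d t : ℝ) : ℝ := max c (min d t)

theorem mcl_continuous (c d : ℝ) : Continuous (mcl c d) := by
  unfold mcl; fun_prop

theorem mcl_of_mem {c d t : ℝ} (h1 : c ≤ t) (h2 : t ≤ d) : mcl c d t = t := by
  unfold mcl; rw [min_eq_right h2, max_eq_right h1]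

theorem mcl_bdd (c d : ℝ) (t : ℝ) : ‖mcl c d t‖ ≤ |c| + |d| := by
  unfold mcl
  rw [Real.norm_eq_abs, abs_le]
  have h1 := neg_abs_le c
  have h2 := le_abs_self c
  have h3 := neg_abs_le d
  have h4 := le_abs_self d
  have h5 := abs_nonneg c
  have h6 := abs_nonneg d
  constructor
  · exact le_trans (by linarith) (le_max_left _ _)
  · apply max_le (by linarith)
    exact (min_le_left _ _).trans (by linarith)

theorem moment_int {f : ℝ × ℝ → ℝ} (hf : Integrable f) (c d : ℝ) :
    Integrable (fun p : ℝ × ℝ => f p * mcl c d p.2) := by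
  have h := hf.bdd_mul (c := |c| + |d|)
    (f := fun p : ℝ × ℝ => mcl c d p.2)
    (((mcl_continuous c d).comp continuous_snd).aestronglyMeasurable)
    (Filter.Eventually.of_forall (fun p => mcl_bdd c d p.2))
  refine h.congr (Filter.Eventually.of_forall (fun p => ?_))
  exact mul_comm _ _

theorem moment_inner (c d t v : ℝ) (hcd : c ≤ d) :
    ∫ y in Ioc c d, (if t < y then v else 0) = v * (d - mcl c d t) := by
  have h1 : ∀ y : ℝ, (if t < y then v else 0) = (Ioi t).indicator (fun _ => v) y := by
    intro y
    by_cases h : t < y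
    · rw [if_pos h, indicator_of_mem (mem_Ioi.mpr h)]
    · rw [if_neg h, indicator_of_notMem (fun h' => h (mem_Ioi.mp h'))]
  simp only [h1]
  rw [setIntegral_indicator measurableSet_Ioi, Ioc_inter_Ioi, setIntegral_const,
    Measure.real, Real.volume_Ioc, smul_eq_mul, ENNReal.toReal_ofReal', mul_comm]
  congr 1
  unfold mcl
  rcases le_total t c with h | h
  · have h2 : c ⊔ t = c := max_eq_left h
    rw [h2, max_eq_left (by linarith), min_eq_right (by linarith), max_eq_left h]
  · rcases le_total t d with h' | h'
    · have h2 : c ⊔ t = t := max_eq_right h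
      rw [h2, max_eq_left (by linarith), min_eq_right h', max_eq_right h]
    · have h2 : c ⊔ t = t := max_eq_right h
      rw [h2, max_eq_right (by linarith), min_eq_left h', max_eq_right hcd, sub_self]

theorem moment_right {f : ℝ × ℝ → ℝ} {a c d : ℝ} (hf : Integrable f) (hcd : c ≤ d) :
    ∫ y in c..d, HH f a y = ∫ p in {p : ℝ × ℝ | p.1 < a}, f p * (d - mcl c d p.2) := by
  rw [intervalIntegral.integral_of_le hcd]
  set S : Set (ℝ × (ℝ × ℝ)) := {q | q.2.1 < a ∧ q.2.2 < q.1} with hS
  have hSm : MeasurableSet S := by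
    apply MeasurableSet.inter
    · exact measurableSet_lt (measurable_fst.comp measurable_snd) measurable_const
    · exact measurableSet_lt (measurable_snd.comp measurable_snd) measurable_fst
  have hint : Integrable (S.indicator (fun q : ℝ × (ℝ × ℝ) => f q.2))
      ((volume.restrict (Ioc c d)).prod volume) := by
    apply Integrable.indicator _ hSm
    exact hf.comp_snd (volume.restrict (Ioc c d))
  have hHH : ∀ y, HH f a y = ∫ p : ℝ × ℝ, S.indicator (fun q : ℝ × (ℝ × ℝ) => f q.2) (y, p) := by
    intro y
    unfold HH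
    rw [← integral_indicator]
    · apply integral_congr_ae
      apply Filter.Eventually.of_forall
      intro p
      simp only [indicator, hS, mem_setOf_eq]
    · apply MeasurableSet.inter
      · exact measurableSet_lt measurable_fst measurable_const
      · exact measurableSet_lt measurable_snd measurable_const
  have hHH2 : (fun y => HH f a y) =
      fun y => ∫ p : ℝ × ℝ, S.indicator (fun q : ℝ × (ℝ × ℝ) => f q.2) (y, p) := funext hHH
  rw [hHH2, integral_integral_swap (f := fun y p => S.indicator (fun q : ℝ × (ℝ × ℝ) => f q.2) (y, p))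
    hint, ← integral_indicator (measurableSet_lt measurable_fst measurable_const)]
  apply integral_congr_ae
  apply Filter.Eventually.of_forall
  intro p
  by_cases hp : p.1 < a
  · rw [indicator_of_mem (show p ∈ {p : ℝ × ℝ | p.1 < a} from hp)]
    simp only
    rw [← moment_inner c d p.2 (f p) hcd]
    apply integral_congr_ae
    apply Filter.Eventually.of_forall
    intro y
    simp only [indicator, hS, mem_setOf_eq, hp, true_and]
  · rw [indicator_of_notMem (show p ∉ {p : ℝ × ℝ | p.1 < a} from hp)]
    simp only [indicator, hS, mem_setOf_eq, hp, false_and, if_false, integral_zero]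

theorem moment {K : Set (ℝ × ℝ)} {f : ℝ × ℝ → ℝ} {a b c d : ℝ} (D : Dat K f) (hG : Good K a b c d) :
    ∫ p in {p : ℝ × ℝ | b < p.1}, f p * p.2 = ∫ y in c..d, HH f a y := by
  obtain ⟨h1, h2⟩ := null33 D hG
  have hab : a ≤ b := hG.1
  have hcd : c ≤ d := hG.2.1
  have hf := D.int
  have hfm := moment_int hf c d
  have hmA : MeasurableSet {p : ℝ × ℝ | p.1 < a} := measurableSet_lt measurable_fst measurable_const
  have hmB : MeasurableSet {p : ℝ × ℝ | b < p.1} := measurableSet_lt measurable_const measurable_fst
  -- right hand side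
  rw [moment_right hf hcd]
  have e1 : ∫ p in {p : ℝ × ℝ | p.1 < a}, f p * (d - mcl c d p.2) =
      - ∫ p in {p : ℝ × ℝ | p.1 < a}, f p * mcl c d p.2 := by
    have h3 : ∀ p : ℝ × ℝ, f p * (d - mcl c d p.2) = f p * d - f p * mcl c d p.2 := by
      intro p; ring
    simp only [h3]
    rw [integral_sub (hf.mul_const d).integrableOn hfm.integrableOn, integral_mul_const]
    have h4 := col_mass D (Iio a) measurableSet_Iio
    have h5 : {p : ℝ × ℝ | p.1 ∈ Iio a} = {p : ℝ × ℝ | p.1 < a} := rfl
    rw [h5] at h4
    rw [h4]; ring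
  rw [e1]
  -- left hand side
  have e2 : ∫ p in {p : ℝ × ℝ | b < p.1}, f p * p.2 =
      ∫ p in {p : ℝ × ℝ | b < p.1}, f p * mcl c d p.2 := by
    apply setIntegral_congr_ae hmB
    filter_upwards [h2] with p hp hpb
    by_cases hc : c ≤ p.2
    · by_cases hd : p.2 ≤ d
      · rw [mcl_of_mem hc hd]
      · rw [hp (Or.inr hpb) (Or.inr (not_le.mp hd))]; ring
    · rw [hp (Or.inr hpb) (Or.inl (not_le.mp hc))]; ring
  rw [e2]
  classical
  have hrow := D.row (fun y => if c ≤ y ∧ y ≤ d then y else 0) (by
    apply Measurable.ite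
    · exact measurableSet_Icc
    · exact measurable_id
    · exact measurable_const) ⟨|c| + |d|, by
      intro x
      split_ifs with hx
      · have := mcl_bdd c d x
        rwa [mcl_of_mem hx.1 hx.2] at this
      · rw [abs_zero]; positivity⟩
  have e3 : (fun p : ℝ × ℝ => f p * (if c ≤ p.2 ∧ p.2 ≤ d then p.2 else 0)) =ᵐ[volume]
      fun p => {p : ℝ × ℝ | p.1 < a}.indicator (fun p => f p * mcl c d p.2) p +
        {p : ℝ × ℝ | b < p.1}.indicator (fun p => f p * mcl c d p.2) p := by
    filter_upwards [h1, h2] with p hp1 hp2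
    simp only [indicator, mem_setOf_eq]
    by_cases hA : p.1 < a
    · have hB : ¬ b < p.1 := by linarith
      rw [if_pos hA, if_neg hB, add_zero]
      by_cases hc : c ≤ p.2 ∧ p.2 ≤ d
      · rw [if_pos hc, mcl_of_mem hc.1 hc.2]
      · have : p.2 < c ∨ d < p.2 := by
          by_contra hcon
          push Not at hcon
          exact hc hcon
        rw [hp2 (Or.inl hA) this]; ring
    · by_cases hB : b < p.1
      · rw [if_neg hA, if_pos hB, zero_add]
        by_cases hc : c ≤ p.2 ∧ p.2 ≤ d
        · rw [if_pos hc, mcl_of_mem hc.1 hc.2]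
        · have : p.2 < c ∨ d < p.2 := by
            by_contra hcon
            push Not at hcon
            exact hc hcon
          rw [hp2 (Or.inr hB) this]; ring
      · rw [if_neg hA, if_neg hB, add_zero]
        by_cases hc : c ≤ p.2 ∧ p.2 ≤ d
        · rw [hp1 (not_lt.mp hA) (not_lt.mp hB) hc.1 hc.2]; ring
        · rw [if_neg hc]; ring
  rw [integral_congr_ae e3, integral_add (hfm.indicator hmA) (hfm.indicator hmB),
    integral_indicator hmA, integral_indicator hmB] at hrow
  linarith


end Pool.Agent.Helper601.XR
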