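import Mathlib
import Pool.Agent.Helper601.XR.Defs
import Pool.Agent.Helper601.XR.Xbasic
import Pool.Agent.Helper601.XR.Xnull33

set_option autoImplicit false

open MeasureTheory Set

namespace Pool.Agent.Helper601.XR


theorem third {K : Set (ℝ × ℝ)} {f : ℝ × ℝ → ℝ} {a b c d : ℝ} (D : Dat K f) (hG : Good K a b c d)
    (hab : a < b) (hcd : c < d)
    (h3 : ∀ φ : ℝ → ℝ, Measurable φ → (∃ C, ∀ x, |φ x| ≤ C) →
      ∫ p, f p * φ ((d - c) * p.1 + (b - a) * p.2) = 0) :
    (b - a) * (∫ p in {p : ℝ × ℝ | b < p.1}, f p * p.2) +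
      (d - c) * (∫ p in {p : ℝ × ℝ | d < p.2}, f p * p.1) = 0 := by
  obtain ⟨M, hM⟩ := D.comp.isBounded.exists_norm_le
  have hb := box D (-M) M (-M) M (by
    intro p hp
    have h1 := (norm_fst_le p).trans (hM p hp)
    have h2 := (norm_snd_le p).trans (hM p hp)
    rw [Real.norm_eq_abs, abs_le] at h1 h2
    exact ⟨h1.1, h1.2, h2.1, h2.2⟩)
  have hbox : ∀ᵐ p : ℝ × ℝ, f p = 0 ∨ (-M ≤ p.1 ∧ p.1 ≤ M ∧ -M ≤ p.2 ∧ p.2 ≤ M) := by
    filter_upwards [hb] with p hp
    by_cases h : p.1 < -M ∨ M < p.1 ∨ p.2 < -M ∨ M < p.2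
    · left; exact hp h
    · right
      push Not at h
      exact ⟨h.1, h.2.1, h.2.2.1, h.2.2.2⟩
  obtain ⟨hn1, hn2⟩ := null33 D hG
  have hS1 : MeasurableSet {p : ℝ × ℝ | b < p.1} := measurableSet_lt measurable_const measurable_fst
  have hS2 : MeasurableSet {p : ℝ × ℝ | d < p.2} := measurableSet_lt measurable_const measurable_snd
  -- integrability
  have hi1 : Integrable (fun p : ℝ × ℝ => f p * p.1) := by
    apply (D.int.norm.const_mul M).mono' (D.meas.mul measurable_fst).aestronglyMeasurable
    filter_upwards [hbox] with p hp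
    show ‖f p * p.1‖ ≤ M * ‖f p‖
    rcases hp with h | ⟨h1, h2, h3, h4⟩
    · rw [h, zero_mul, norm_zero, mul_zero]
    · rw [norm_mul, mul_comm]
      apply mul_le_mul_of_nonneg_right _ (norm_nonneg _)
      rw [Real.norm_eq_abs, abs_le]; exact ⟨h1, h2⟩
  have hi2 : Integrable (fun p : ℝ × ℝ => f p * p.2) := by
    apply (D.int.norm.const_mul M).mono' (D.meas.mul measurable_snd).aestronglyMeasurable
    filter_upwards [hbox] with p hp
    show ‖f p * p.2‖ ≤ M * ‖f p‖
    rcases hp with h | ⟨h1, h2, h3, h4⟩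
    · rw [h, zero_mul, norm_zero, mul_zero]
    · rw [norm_mul, mul_comm]
      apply mul_le_mul_of_nonneg_right _ (norm_nonneg _)
      rw [Real.norm_eq_abs, abs_le]; exact ⟨h3, h4⟩
  -- clamps
  have hcl : ∀ x : ℝ, |max (-M) (min x M)| ≤ |M| := by
    intro x
    rw [abs_le]
    have h1 := le_abs_self M
    have h2 := neg_abs_le M
    have h0 := abs_nonneg M
    constructor
    · exact le_trans (by linarith) (le_max_left _ _)
    · apply max_le
      · linarith
      · exact (min_le_right _ _).trans h1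
  have hcl' : ∀ x : ℝ, -M ≤ x → x ≤ M → max (-M) (min x M) = x := by
    intro x h1 h2
    rw [min_eq_left h2, max_eq_right h1]
  have c1 : ∫ p in {p : ℝ × ℝ | b < p.1}, f p = 0 := col_mass D (Ioi b) measurableSet_Ioi
  have r1 : ∫ p in {p : ℝ × ℝ | d < p.2}, f p = 0 := row_mass D (Ioi d) measurableSet_Ioi
  have c2 : ∫ p in {p : ℝ × ℝ | b < p.1}, f p * p.1 = 0 := by
    rw [← integral_indicator hS1, ← D.col (fun x => if b < x then max (-M) (min x M) else 0)
      (Measurable.ite (measurableSet_lt measurable_const measurable_id) (by fun_prop) measurable_const)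
      ⟨|M|, fun x => by
        split_ifs
        · exact hcl x
        · rw [abs_zero]; exact abs_nonneg M⟩]
    apply integral_congr_ae
    filter_upwards [hbox] with p hp
    by_cases h : b < p.1
    · have hm : p ∈ {p : ℝ × ℝ | b < p.1} := h
      rw [indicator_of_mem hm]
      simp only [if_pos h]
      rcases hp with h0 | ⟨h1, h2, h3, h4⟩
      · rw [h0]; ring
      · rw [hcl' _ h1 h2]
    · have hm : p ∉ {p : ℝ × ℝ | b < p.1} := h
      rw [indicator_of_notMem hm]
      simp only [if_neg h, mul_zero]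
  have r2 : ∫ p in {p : ℝ × ℝ | d < p.2}, f p * p.2 = 0 := by
    rw [← integral_indicator hS2, ← D.row (fun x => if d < x then max (-M) (min x M) else 0)
      (Measurable.ite (measurableSet_lt measurable_const measurable_id) (by fun_prop) measurable_const)
      ⟨|M|, fun x => by
        split_ifs
        · exact hcl x
        · rw [abs_zero]; exact abs_nonneg M⟩]
    apply integral_congr_ae
    filter_upwards [hbox] with p hp
    by_cases h : d < p.2
    · have hm : p ∈ {p : ℝ × ℝ | d < p.2} := h
      rw [indicator_of_mem hm]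
      simp only [if_pos h]
      rcases hp with h0 | ⟨h1, h2, h3, h4⟩
      · rw [h0]; ring
      · rw [hcl' _ h3 h4]
    · have hm : p ∉ {p : ℝ × ℝ | d < p.2} := h
      rw [indicator_of_notMem hm]
      simp only [if_neg h, mul_zero]
  obtain ⟨s0, hs0⟩ : ∃ s0, s0 = (d - c) * a + (b - a) * d := ⟨_, rfl⟩
  have hs0' : s0 = (d - c) * b + (b - a) * c := by rw [hs0]; ring
  obtain ⟨C, hC⟩ : ∃ C, C = (d - c) * M + (b - a) * M - s0 := ⟨_, rfl⟩
  have hdc : 0 < d - c := by linarith
  have hba : 0 < b - a := by linarith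
  have hi3 : Integrable (fun p : ℝ × ℝ => f p * ((d - c) * p.1 + (b - a) * p.2 - s0)) := by
    have := ((hi1.const_mul (d - c)).add (hi2.const_mul (b - a))).sub (D.int.const_mul s0)
    refine this.congr (Filter.Eventually.of_forall fun p => ?_)
    simp only [Pi.sub_apply, Pi.add_apply]
    ring
  have e3 := h3 (fun t => max 0 (min (t - s0) C)) (by fun_prop) ⟨|C|, fun t => by
    rw [abs_of_nonneg (le_max_left _ _)]
    apply max_le (abs_nonneg _)
    exact (min_le_right _ _).trans (le_abs_self _)⟩
  have hmain : ∫ p, f p * max 0 (min ((d - c) * p.1 + (b - a) * p.2 - s0) C) =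
      (∫ p in {p : ℝ × ℝ | b < p.1}, f p * ((d - c) * p.1 + (b - a) * p.2 - s0)) +
      ∫ p in {p : ℝ × ℝ | d < p.2}, f p * ((d - c) * p.1 + (b - a) * p.2 - s0) := by
    rw [← integral_indicator hS1, ← integral_indicator hS2,
      ← integral_add (hi3.indicator hS1) (hi3.indicator hS2)]
    apply integral_congr_ae
    filter_upwards [hbox, hn1, hn2] with p hp h1 h2
    by_cases hf : f p = 0
    · have e1 : {p : ℝ × ℝ | b < p.1}.indicator (fun p => f p * ((d - c) * p.1 + (b - a) * p.2 - s0)) p = 0 := by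
        by_cases h : p ∈ {p : ℝ × ℝ | b < p.1}
        · rw [indicator_of_mem h, hf, zero_mul]
        · rw [indicator_of_notMem h]
      have e2 : {p : ℝ × ℝ | d < p.2}.indicator (fun p => f p * ((d - c) * p.1 + (b - a) * p.2 - s0)) p = 0 := by
        by_cases h : p ∈ {p : ℝ × ℝ | d < p.2}
        · rw [indicator_of_mem h, hf, zero_mul]
        · rw [indicator_of_notMem h]
      rw [e1, e2, hf]; ring
    · rcases hp with h0 | ⟨b1, b2, b3, b4⟩
      · exact absurd h0 hf
      have hsC : (d - c) * p.1 + (b - a) * p.2 - s0 ≤ C := by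
        rw [hC]; nlinarith
      rw [min_eq_left hsC]
      rcases lt_or_ge b p.1 with hx | hx
      · have hy1 : c ≤ p.2 := by
          by_contra h; push Not at h
          exact hf (h2 (Or.inr hx) (Or.inl h))
        have hy2 : p.2 ≤ d := by
          by_contra h; push Not at h
          exact hf (h2 (Or.inr hx) (Or.inr h))
        have m1 : p ∈ {p : ℝ × ℝ | b < p.1} := hx
        have m2 : p ∉ {p : ℝ × ℝ | d < p.2} := not_lt.mpr hy2
        rw [indicator_of_mem m1, indicator_of_notMem m2, add_zero, max_eq_right]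
        rw [hs0']; nlinarith
      · have m1 : p ∉ {p : ℝ × ℝ | b < p.1} := not_lt.mpr hx
        rw [indicator_of_notMem m1, zero_add]
        rcases lt_or_ge d p.2 with hy | hy
        · have hx1 : a ≤ p.1 := by
            by_contra h; push Not at h
            exact hf (h2 (Or.inl h) (Or.inr hy))
          have m2 : p ∈ {p : ℝ × ℝ | d < p.2} := hy
          rw [indicator_of_mem m2, max_eq_right]
          rw [hs0]; nlinarith
        · have m2 : p ∉ {p : ℝ × ℝ | d < p.2} := not_lt.mpr hy
          rw [indicator_of_notMem m2, max_eq_left, mul_zero]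
          rcases lt_or_ge p.1 a with hx' | hx'
          · rw [hs0]; nlinarith
          · rcases lt_or_ge p.2 c with hy' | hy'
            · rw [hs0']; nlinarith
            · exact absurd (h1 hx' hx hy' hy) hf
  rw [hmain] at e3
  have l1 : ∀ S : Set (ℝ × ℝ), ∫ p in S, f p * ((d - c) * p.1 + (b - a) * p.2 - s0) =
      (d - c) * (∫ p in S, f p * p.1) + (b - a) * (∫ p in S, f p * p.2) - s0 * ∫ p in S, f p := by
    intro S
    have j1 : Integrable (fun p : ℝ × ℝ => (d - c) * (f p * p.1)) (volume.restrict S) :=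
      (hi1.const_mul _).integrableOn
    have j2 : Integrable (fun p : ℝ × ℝ => (b - a) * (f p * p.2)) (volume.restrict S) :=
      (hi2.const_mul _).integrableOn
    have j3 : Integrable (fun p : ℝ × ℝ => s0 * f p) (volume.restrict S) :=
      (D.int.const_mul _).integrableOn
    have j4 : Integrable (fun p : ℝ × ℝ => (d - c) * (f p * p.1) + (b - a) * (f p * p.2)) (volume.restrict S) :=
      j1.add j2
    rw [← integral_const_mul, ← integral_const_mul, ← integral_const_mul, ← integral_add j1 j2,
      ← integral_sub j4 j3]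
    apply integral_congr_ae
    refine Filter.Eventually.of_forall fun p => ?_
    simp only
    ring
  rw [l1, l1, c1, c2, r1, r2] at e3
  linarith


end Pool.Agent.Helper601.XR
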