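import Mathlib
import Pool.Agent.Helper601.XR.Defs
import Pool.Agent.Helper601.XR.Xbasic
import Pool.Agent.Helper601.XR.Xcompat
import Pool.Agent.Helper601.XR.Xhfun
import Pool.Agent.Helper601.XR.Xhlr
import Pool.Agent.Helper601.XR.Xhnonneg
import Pool.Agent.Helper601.XR.Xmoment
import Pool.Agent.Helper601.XR.Xnull33
import Pool.Agent.Helper601.XR.Xside
import Pool.Agent.Helper601.XR.Xsym
import Pool.Agent.Helper601.XR.Xthird

set_option autoImplicit false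

open MeasureTheory Set

namespace Pool.Agent.Helper601.XR


theorem nest_aux {K : Set (ℝ × ℝ)} {a b c d : ℝ} (hK : Convex ℝ K) (hG : Good K a b c d) :
    ∀ x x' y, x < x' → x' < a → (x, y) ∈ K → (x', y) ∈ K := by
  intro x x' y h1 h2 h3
  obtain ⟨hab, hcd, hin, hcor⟩ := hG
  have hy := hcor x y h3 (Or.inl (h1.trans h2))
  have hay : (a, y) ∈ K := hin a y le_rfl hab hy.1 hy.2
  have hpos : 0 < a - x := by linarith
  have h4 := hK h3 hay (a := (a - x') / (a - x)) (b := (x' - x) / (a - x))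
    (div_nonneg (by linarith) hpos.le) (div_nonneg (by linarith) hpos.le)
    (by field_simp; ring)
  have h5 : ((a - x') / (a - x)) • ((x, y) : ℝ × ℝ) + ((x' - x) / (a - x)) • ((a, y) : ℝ × ℝ) =
      (x', y) := by
    ext
    · simp only [Prod.smul_mk, Prod.mk_add_mk, smul_eq_mul]
      field_simp
      ring
    · simp only [Prod.smul_mk, Prod.mk_add_mk, smul_eq_mul]
      field_simp
      ring
  rwa [h5] at h4

theorem two_sides {K : Set (ℝ × ℝ)} {f : ℝ × ℝ → ℝ} {a b c d : ℝ} (D : Dat K f)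
    (hG : Good K a b c d) (h0 : ∀ y, c ≤ y → y ≤ d → HH f a y = 0) :
    (∀ᵐ p : ℝ × ℝ, p.1 < a → f p = 0) ∧ (∀ᵐ p : ℝ × ℝ, b < p.1 → f p = 0) := by
  have hzero : ∀ l u, c ≤ l → l ≤ u → u ≤ d →
      ∫ p in {p : ℝ × ℝ | p.1 < a ∧ l ≤ p.2 ∧ p.2 ≤ u}, f p = 0 := by
    intro l u h1 h2 h3
    rw [← HH_sub D.int a l u h2, h0 u (h1.trans h2) h3, h0 l h1 (h2.trans h3), sub_zero]
  refine ⟨side D a (nest_aux D.conv hG) ?_, ?_⟩
  · intro x0 l u hx0 hlu hcol
    have hl := hG.2.2.2 x0 l ((hcol l).2 ⟨le_rfl, hlu⟩) (Or.inl hx0)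
    have hu := hG.2.2.2 x0 u ((hcol u).2 ⟨hlu, le_rfl⟩) (Or.inl hx0)
    exact (hzero l u hl.1 hlu hu.2).ge
  · refine ae_mir _ ?_
    have hs := side D.mir (-b) (nest_aux D.mir.conv hG.mir) ?_
    · filter_upwards [hs] with p hp hbp
      exact hp (by linarith)
    · intro x0 l u hx0 hlu hcol
      have hl := hG.2.2.2 (-x0) l ((hcol l).2 ⟨le_rfl, hlu⟩) (Or.inr (by linarith))
      have hu := hG.2.2.2 (-x0) u ((hcol u).2 ⟨hlu, le_rfl⟩) (Or.inr (by linarith))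
      have e1 := setint_mir {p : ℝ × ℝ | b < p.1 ∧ l ≤ p.2 ∧ p.2 ≤ u} f
      have e2 : {p : ℝ × ℝ | (-p.1, p.2) ∈ {p : ℝ × ℝ | b < p.1 ∧ l ≤ p.2 ∧ p.2 ≤ u}} =
          {p : ℝ × ℝ | p.1 < -b ∧ l ≤ p.2 ∧ p.2 ≤ u} := by
        ext p
        simp only [Set.mem_ofPred_eq]
        constructor
        · rintro ⟨h1, h2⟩
          exact ⟨by linarith, h2⟩
        · rintro ⟨h1, h2⟩
          exact ⟨by linarith, h2⟩
      rw [e2, right_left D hG l u hl.1 hu.2, hzero l u hl.1 hlu hu.2, neg_zero] at e1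
      exact e1.ge

theorem zero_aux {K : Set (ℝ × ℝ)} {f : ℝ × ℝ → ℝ} {a b c d : ℝ} (D : Dat K f) (hN : NoN K)
    (hG : Good K a b c d) (hcd : c < d) (h : ∫ y in c..d, HH f a y ≤ 0) :
    ∀ y, c ≤ y → y ≤ d → HH f a y = 0 := by
  intro y h1 h2
  by_contra hne
  have hpos : 0 < HH f a y := lt_of_le_of_ne (HH_nonneg D hN hG y h1 h2) (Ne.symm hne)
  have := intervalIntegral.integral_pos hcd (HH_cont D.int a).continuousOn
    (fun x hx => HH_nonneg D hN hG x hx.1.le hx.2) ⟨y, ⟨h1, h2⟩, hpos⟩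
  linarith

theorem core {K : Set (ℝ × ℝ)} {f : ℝ × ℝ → ℝ} {a b c d : ℝ} (D : Dat K f) (hN : NoN K)
    (hG : Good K a b c d) (hab : a < b) (hcd : c < d)
    (h3 : ∀ φ : ℝ → ℝ, Measurable φ → (∃ C, ∀ x, |φ x| ≤ C) →
      ∫ p, f p * φ ((d - c) * p.1 + (b - a) * p.2) = 0) :
    ∀ᵐ p : ℝ × ℝ, f p = 0 := by
  have m1 := moment D hG
  have m2 := moment D.swap hG.swap
  have e1 := setint_swap {p : ℝ × ℝ | d < p.2} (fun p => f p * p.1)
  have e2 : {p : ℝ × ℝ | (p.2, p.1) ∈ {p : ℝ × ℝ | d < p.2}} = {p : ℝ × ℝ | d < p.1} := by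
    ext p
    simp only [Set.mem_ofPred_eq]
  rw [e2] at e1
  simp only at e1 m2
  have m3 : ∫ p in {p : ℝ × ℝ | d < p.2}, f p * p.1 =
      ∫ x in a..b, HH (fun p => f (p.2, p.1)) c x := by
    rw [← e1]
    exact m2
  have ht := third D hG hab hcd h3
  rw [m1, m3] at ht
  have n1 : 0 ≤ ∫ y in c..d, HH f a y :=
    intervalIntegral.integral_nonneg hcd.le fun y hy => HH_nonneg D hN hG y hy.1 hy.2
  have n2 : 0 ≤ ∫ x in a..b, HH (fun p => f (p.2, p.1)) c x :=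
    intervalIntegral.integral_nonneg hab.le
      fun y hy => HH_nonneg D.swap hN.swap hG.swap y hy.1 hy.2
  have p1 : 0 ≤ (b - a) * ∫ y in c..d, HH f a y := mul_nonneg (by linarith) n1
  have p2 : 0 ≤ (d - c) * ∫ x in a..b, HH (fun p => f (p.2, p.1)) c x :=
    mul_nonneg (by linarith) n2
  have z1 : ∫ y in c..d, HH f a y ≤ 0 := by
    have : (b - a) * ∫ y in c..d, HH f a y ≤ 0 := by linarith
    by_contra hcon
    push Not at hcon
    have := mul_pos (sub_pos.2 hab) hcon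
    linarith
  have z2 : ∫ x in a..b, HH (fun p => f (p.2, p.1)) c x ≤ 0 := by
    have : (d - c) * ∫ x in a..b, HH (fun p => f (p.2, p.1)) c x ≤ 0 := by linarith
    by_contra hcon
    push Not at hcon
    have := mul_pos (sub_pos.2 hcd) hcon
    linarith
  have s1 := two_sides D hG (zero_aux D hN hG hcd z1)
  have s2 := two_sides D.swap hG.swap (zero_aux D.swap hN.swap hG.swap hab z2)
  have t1 : ∀ᵐ p : ℝ × ℝ, p.2 < c → f p = 0 := ae_swap _ s2.1
  have t2 : ∀ᵐ p : ℝ × ℝ, d < p.2 → f p = 0 := ae_swap _ s2.2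
  filter_upwards [s1.1, s1.2, t1, t2, (null33 D hG).1] with p q1 q2 q3 q4 q5
  rcases lt_or_ge p.1 a with k1 | k1
  · exact q1 k1
  rcases lt_or_ge b p.1 with k2 | k2
  · exact q2 k2
  rcases lt_or_ge p.2 c with k3 | k3
  · exact q3 k3
  rcases lt_or_ge d p.2 with k4 | k4
  · exact q4 k4
  exact q5 k1 k2 k3 k4


end Pool.Agent.Helper601.XR
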