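import Mathlib
import Pool.Agent.Helper601.XR.Defs

set_option autoImplicit false

open MeasureTheory Set

namespace Pool.Agent.Helper601.XR


theorem xr_slab (k1 k2 : ℝ) (u : ℝ × ℝ) (hk : k1 * u.1 + k2 * u.2 = 1) (p : ℝ × ℝ) :
    ∫⁻ t : ℝ, {q : ℝ × ℝ | 0 ≤ k1 * q.1 + k2 * q.2 ∧ k1 * q.1 + k2 * q.2 < 1}.indicator
      (1 : ℝ × ℝ → ENNReal) (p - t • u) = 1 := by
  have h1 : ∀ t : ℝ, {q : ℝ × ℝ | 0 ≤ k1 * q.1 + k2 * q.2 ∧ k1 * q.1 + k2 * q.2 < 1}.indicator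
      (1 : ℝ × ℝ → ENNReal) (p - t • u) =
      (Ioc (k1 * p.1 + k2 * p.2 - 1) (k1 * p.1 + k2 * p.2)).indicator (1 : ℝ → ENNReal) t := by
    intro t
    have h2 : k1 * (p - t • u).1 + k2 * (p - t • u).2 = k1 * p.1 + k2 * p.2 - t := by
      simp only [Prod.fst_sub, Prod.snd_sub, Prod.smul_fst, Prod.smul_snd, smul_eq_mul]
      linear_combination (-t) * hk
    by_cases h : t ∈ Ioc (k1 * p.1 + k2 * p.2 - 1) (k1 * p.1 + k2 * p.2)
    · rw [indicator_of_mem h, indicator_of_mem]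
      · rfl
      · show 0 ≤ k1 * (p - t • u).1 + k2 * (p - t • u).2 ∧ k1 * (p - t • u).1 + k2 * (p - t • u).2 < 1
        rw [h2]
        exact ⟨by linarith [h.2], by linarith [h.1]⟩
    · rw [indicator_of_notMem h, indicator_of_notMem]
      intro h3
      apply h
      have h4 : 0 ≤ k1 * (p - t • u).1 + k2 * (p - t • u).2 ∧
        k1 * (p - t • u).1 + k2 * (p - t • u).2 < 1 := h3
      rw [h2] at h4
      exact ⟨by linarith [h4.2], by linarith [h4.1]⟩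
  simp only [h1]
  rw [lintegral_indicator_one measurableSet_Ioc, Real.volume_Ioc]
  simp

theorem xr_key (k1 k2 : ℝ) (u : ℝ × ℝ) (hk : k1 * u.1 + k2 * u.2 = 1) (α β : ℝ)
    (hαβ : α * u.1 + β * u.2 = 0) (E : Set (ℝ × ℝ)) (hE : MeasurableSet E) (ψ : ℝ → ENNReal)
    (hψ : Measurable ψ) :
    ∫⁻ p : ℝ × ℝ, {q : ℝ × ℝ | 0 ≤ k1 * q.1 + k2 * q.2 ∧ k1 * q.1 + k2 * q.2 < 1}.indicator
      (1 : ℝ × ℝ → ENNReal) p * ψ (α * p.1 + β * p.2) *
        (∫⁻ t : ℝ, E.indicator (1 : ℝ × ℝ → ENNReal) (p + t • u)) =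
    ∫⁻ p : ℝ × ℝ, E.indicator (1 : ℝ × ℝ → ENNReal) p * ψ (α * p.1 + β * p.2) := by
  have hSm : MeasurableSet {q : ℝ × ℝ | 0 ≤ k1 * q.1 + k2 * q.2 ∧ k1 * q.1 + k2 * q.2 < 1} := by
    have a1 : MeasurableSet {q : ℝ × ℝ | 0 ≤ k1 * q.1 + k2 * q.2} :=
      measurableSet_le measurable_const (by fun_prop)
    have a2 : MeasurableSet {q : ℝ × ℝ | k1 * q.1 + k2 * q.2 < 1} :=
      measurableSet_lt (by fun_prop) measurable_const
    exact a1.inter a2
  obtain ⟨w, hw⟩ : ∃ w : ℝ × ℝ → ENNReal, w = {q : ℝ × ℝ | 0 ≤ k1 * q.1 + k2 * q.2 ∧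
    k1 * q.1 + k2 * q.2 < 1}.indicator (1 : ℝ × ℝ → ENNReal) := ⟨_, rfl⟩
  have hwm : Measurable w := by rw [hw]; exact measurable_one.indicator hSm
  obtain ⟨c, hc⟩ : ∃ c : ℝ × ℝ → ENNReal, c = E.indicator (1 : ℝ × ℝ → ENNReal) := ⟨_, rfl⟩
  have hcm : Measurable c := by rw [hc]; exact measurable_one.indicator hE
  obtain ⟨ℓ, hℓ⟩ : ∃ ℓ : ℝ × ℝ → ℝ, ℓ = fun p => α * p.1 + β * p.2 := ⟨_, rfl⟩
  have hℓm : Measurable ℓ := by rw [hℓ]; fun_prop
  have hℓu : ∀ (p : ℝ × ℝ) (t : ℝ), ℓ (p - t • u) = ℓ p := by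
    intro p t
    rw [hℓ]
    simp only [Prod.fst_sub, Prod.snd_sub, Prod.smul_fst, Prod.smul_snd, smul_eq_mul]
    linear_combination (-t) * hαβ
  have hslab : ∀ p, ∫⁻ t : ℝ, w (p - t • u) = 1 := by
    intro p; rw [hw]; exact xr_slab k1 k2 u hk p
  have e : ∀ p : ℝ × ℝ, ψ (α * p.1 + β * p.2) = ψ (ℓ p) := by intro p; rw [hℓ]
  rw [← hw, ← hc]
  simp only [e]
  have m1 : Measurable fun q : (ℝ × ℝ) × ℝ => w q.1 * ψ (ℓ q.1) * c (q.1 + q.2 • u) := by
    have : Measurable fun q : (ℝ × ℝ) × ℝ => q.1 + q.2 • u := by fun_prop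
    exact ((hwm.comp measurable_fst).mul (hψ.comp (hℓm.comp measurable_fst))).mul (hcm.comp this)
  have m2 : Measurable fun q : ℝ × (ℝ × ℝ) => w (q.2 - q.1 • u) * (ψ (ℓ q.2) * c q.2) := by
    have : Measurable fun q : ℝ × (ℝ × ℝ) => q.2 - q.1 • u := by fun_prop
    exact (hwm.comp this).mul ((hψ.comp (hℓm.comp measurable_snd)).mul (hcm.comp measurable_snd))
  calc ∫⁻ p, w p * ψ (ℓ p) * (∫⁻ t : ℝ, c (p + t • u))
      = ∫⁻ p, ∫⁻ t : ℝ, w p * ψ (ℓ p) * c (p + t • u) := by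
        refine lintegral_congr fun p => ?_
        rw [lintegral_const_mul]
        have : Measurable fun t : ℝ => p + t • u := by fun_prop
        exact hcm.comp this
    _ = ∫⁻ t : ℝ, ∫⁻ p, w p * ψ (ℓ p) * c (p + t • u) :=
        lintegral_lintegral_swap m1.aemeasurable
    _ = ∫⁻ t : ℝ, ∫⁻ p, w (p - t • u) * (ψ (ℓ p) * c p) := by
        refine lintegral_congr fun t => ?_
        rw [← lintegral_sub_right_eq_self (fun p => w p * ψ (ℓ p) * c (p + t • u)) (t • u)]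
        refine lintegral_congr fun p => ?_
        rw [hℓu, sub_add_cancel, mul_assoc]
    _ = ∫⁻ p, ∫⁻ t : ℝ, w (p - t • u) * (ψ (ℓ p) * c p) :=
        lintegral_lintegral_swap m2.aemeasurable
    _ = ∫⁻ p, c p * ψ (ℓ p) := by
        refine lintegral_congr fun p => ?_
        rw [lintegral_mul_const, hslab, one_mul, mul_comm]
        have : Measurable fun t : ℝ => p - t • u := by fun_prop
        exact hwm.comp this

theorem xr_integrable (E : Set (ℝ × ℝ)) (hE : MeasurableSet E) (hv : volume E ≠ ⊤)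
    (g : ℝ × ℝ → ℝ) (hg : Measurable g) (C : ℝ) (hC : ∀ p, |g p| ≤ C) :
    Integrable (fun p => E.indicator (1 : ℝ × ℝ → ℝ) p * g p) := by
  have h1 : IntegrableOn g E := by
    apply Measure.integrableOn_of_bounded hv hg.aestronglyMeasurable (M := C)
    exact Filter.Eventually.of_forall hC
  have h2 : (fun p => E.indicator (1 : ℝ × ℝ → ℝ) p * g p) = E.indicator g := by
    funext p
    by_cases h : p ∈ E <;> simp [h]
  rw [h2]
  exact h1.integrable_indicator hE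

theorem xr (K L : Set (ℝ × ℝ)) (hK : IsCompact K) (hL : MeasurableSet L) (u : ℝ × ℝ) (hu : u ≠ 0)
    (hx : ∀ᵐ x ∂(volume : Measure (ℝ × ℝ)),
      (∫⁻ t : ℝ, L.indicator (1 : ℝ × ℝ → ENNReal) (x + t • u)) =
      (∫⁻ t : ℝ, K.indicator (1 : ℝ × ℝ → ENNReal) (x + t • u))) :
    volume L = volume K ∧
    ∀ α β : ℝ, α * u.1 + β * u.2 = 0 →
      ∀ φ : ℝ → ℝ, Measurable φ → (∃ C, ∀ x, |φ x| ≤ C) →
      ∫ p, (L.indicator (1 : ℝ × ℝ → ℝ) p - K.indicator (1 : ℝ × ℝ → ℝ) p) *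
        φ (α * p.1 + β * p.2) = 0 := by
  have hn : u.1 ^ 2 + u.2 ^ 2 ≠ 0 := by
    intro h
    apply hu
    have h1 : u.1 = 0 := by nlinarith [sq_nonneg u.1, sq_nonneg u.2]
    have h2 : u.2 = 0 := by nlinarith [sq_nonneg u.1, sq_nonneg u.2]
    exact Prod.ext h1 h2
  have hk : u.1 / (u.1 ^ 2 + u.2 ^ 2) * u.1 + u.2 / (u.1 ^ 2 + u.2 ^ 2) * u.2 = 1 := by
    field_simp
  have hKm := hK.measurableSet
  have key : ∀ α β : ℝ, α * u.1 + β * u.2 = 0 → ∀ ψ : ℝ → ENNReal, Measurable ψ →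
      ∫⁻ p : ℝ × ℝ, L.indicator (1 : ℝ × ℝ → ENNReal) p * ψ (α * p.1 + β * p.2) =
      ∫⁻ p : ℝ × ℝ, K.indicator (1 : ℝ × ℝ → ENNReal) p * ψ (α * p.1 + β * p.2) := by
    intro α β hαβ ψ hψ
    rw [← xr_key _ _ u hk α β hαβ L hL ψ hψ, ← xr_key _ _ u hk α β hαβ K hKm ψ hψ]
    refine lintegral_congr_ae ?_
    filter_upwards [hx] with p hp
    rw [hp]
  have hvol : volume L = volume K := by
    have h1 := key 0 0 (by ring) (fun _ => 1) measurable_const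
    simp only [mul_one] at h1
    rwa [lintegral_indicator_one hL, lintegral_indicator_one hKm] at h1
  refine ⟨hvol, ?_⟩
  intro α β hαβ φ hφ ⟨C, hC⟩
  have hC0 : 0 ≤ C := le_trans (abs_nonneg _) (hC 0)
  have hKf : volume K ≠ ⊤ := hK.measure_lt_top.ne
  have hLf : volume L ≠ ⊤ := by rw [hvol]; exact hKf
  have hℓm : Measurable fun p : ℝ × ℝ => α * p.1 + β * p.2 := by fun_prop
  -- nonnegative bounded functions
  have pos : ∀ g : ℝ → ℝ, Measurable g → (∀ x, 0 ≤ g x) →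
      ∫ p, L.indicator (1 : ℝ × ℝ → ℝ) p * g (α * p.1 + β * p.2) =
      ∫ p, K.indicator (1 : ℝ × ℝ → ℝ) p * g (α * p.1 + β * p.2) := by
    intro g hg hg0
    have h2 : ∀ E : Set (ℝ × ℝ), MeasurableSet E →
        ∫ p, E.indicator (1 : ℝ × ℝ → ℝ) p * g (α * p.1 + β * p.2) =
        (∫⁻ p : ℝ × ℝ, E.indicator (1 : ℝ × ℝ → ENNReal) p *
          ENNReal.ofReal (g (α * p.1 + β * p.2))).toReal := by
      intro E hE
      rw [integral_eq_lintegral_of_nonneg_ae]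
      · congr 1
        refine lintegral_congr fun p => ?_
        by_cases h : p ∈ E <;> simp [h]
      · refine Filter.Eventually.of_forall fun p => ?_
        exact mul_nonneg (indicator_nonneg (fun _ _ => zero_le_one) p) (hg0 _)
      · exact ((measurable_one.indicator hE).mul (hg.comp hℓm)).aestronglyMeasurable
    rw [h2 L hL, h2 K hKm, key α β hαβ (fun x => ENNReal.ofReal (g x)) hg.ennreal_ofReal]
  have h1 := pos (fun x => φ x + C) (hφ.add_const C) (fun x => by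
    have := (abs_le.1 (hC x)).1; linarith)
  have h2 := pos (fun _ => C) measurable_const (fun _ => hC0)
  have i1 : ∀ E : Set (ℝ × ℝ), MeasurableSet E → volume E ≠ ⊤ →
      Integrable (fun p => E.indicator (1 : ℝ × ℝ → ℝ) p * (φ (α * p.1 + β * p.2) + C)) := by
    intro E hE hEf
    apply xr_integrable E hE hEf (fun p => φ (α * p.1 + β * p.2) + C)
      ((hφ.comp hℓm).add_const C) (2 * C)
    intro p
    have := abs_le.1 (hC (α * p.1 + β * p.2))
    rw [abs_le]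
    constructor <;> linarith
  have i2 : ∀ E : Set (ℝ × ℝ), MeasurableSet E → volume E ≠ ⊤ →
      Integrable (fun p => E.indicator (1 : ℝ × ℝ → ℝ) p * C) := by
    intro E hE hEf
    apply xr_integrable E hE hEf (fun _ => C) measurable_const C
    intro p
    rw [abs_of_nonneg hC0]
  have h3 : ∀ p : ℝ × ℝ, (L.indicator (1 : ℝ × ℝ → ℝ) p - K.indicator (1 : ℝ × ℝ → ℝ) p) *
        φ (α * p.1 + β * p.2) =
      (L.indicator (1 : ℝ × ℝ → ℝ) p * (φ (α * p.1 + β * p.2) + C) -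
        K.indicator (1 : ℝ × ℝ → ℝ) p * (φ (α * p.1 + β * p.2) + C)) -
      (L.indicator (1 : ℝ × ℝ → ℝ) p * C - K.indicator (1 : ℝ × ℝ → ℝ) p * C) := by
    intro p; ring
  simp only [h3]
  have i3 : Integrable (fun p : ℝ × ℝ =>
      L.indicator (1 : ℝ × ℝ → ℝ) p * (φ (α * p.1 + β * p.2) + C) -
        K.indicator (1 : ℝ × ℝ → ℝ) p * (φ (α * p.1 + β * p.2) + C)) :=
    (i1 L hL hLf).sub (i1 K hKm hKf)
  have i4 : Integrable (fun p : ℝ × ℝ =>
      L.indicator (1 : ℝ × ℝ → ℝ) p * C - K.indicator (1 : ℝ × ℝ → ℝ) p * C) :=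
    (i2 L hL hLf).sub (i2 K hKm hKf)
  rw [integral_sub i3 i4,
    integral_sub (i1 L hL hLf) (i1 K hKm hKf), integral_sub (i2 L hL hLf) (i2 K hKm hKf), h1, h2]
  ring


end Pool.Agent.Helper601.XR
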