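import Mathlib
import Pool.Agent.Helper601.XR.Defs
import Pool.Agent.Helper601.XR.Verif
import Pool.Agent.Helper601.XR.Xxr

set_option autoImplicit false

open MeasureTheory Set

namespace Pool.Agent.Helper601.XR


/-- reduction of `Verified` to the signed data: coordinates directions and a third direction -/
theorem verified_of_dat (K : Set (ℝ × ℝ)) (hK : IsCompact K) (hc : Convex ℝ K) (s t : ℝ)
    (hs : 0 < s) (ht : 0 < t)
    (h : ∀ f : ℝ × ℝ → ℝ, Dat K f →
      (∀ φ : ℝ → ℝ, Measurable φ → (∃ C, ∀ x, |φ x| ≤ C) →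
        ∫ p, f p * φ (s * p.1 + t * p.2) = 0) → ∀ᵐ p : ℝ × ℝ, f p = 0) :
    Verified K := by
  classical
  refine ⟨![(0, 1), (1, 0), (t, -s)], ?_, ?_⟩
  · intro i j hij
    rw [LinearIndependent.pair_iff]
    intro a b hab
    have h1 := congrArg Prod.fst hab
    have h2 := congrArg Prod.snd hab
    have hs' : s ≠ 0 := hs.ne'
    have ht' : t ≠ 0 := ht.ne'
    fin_cases i <;> fin_cases j <;> simp_all
  · intro L hL hx
    have hKm : MeasurableSet K := hK.measurableSet
    obtain ⟨v0, x0⟩ := xr K L hK hL (0, 1) (by simp) (hx 0)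
    obtain ⟨-, x1⟩ := xr K L hK hL (1, 0) (by simp) (hx 1)
    obtain ⟨-, x2⟩ := xr K L hK hL (t, -s) (by simp [ht.ne']) (hx 2)
    have hKf : volume K ≠ ⊤ := hK.measure_lt_top.ne
    have hLf : volume L ≠ ⊤ := by rw [v0]; exact hKf
    have hLi : Integrable (L.indicator (1 : ℝ × ℝ → ℝ)) :=
      (integrable_indicator_iff hL).2 (integrableOn_const hLf)
    have hKi : Integrable (K.indicator (1 : ℝ × ℝ → ℝ)) :=
      (integrable_indicator_iff hKm).2 (integrableOn_const hKf)
    have hD : Dat K (fun p => L.indicator (1 : ℝ × ℝ → ℝ) p - K.indicator (1 : ℝ × ℝ → ℝ) p) := by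
      refine ⟨hc, hK, ?_, hLi.sub hKi, ?_, ?_, ?_, ?_, ?_⟩
      · exact (measurable_one.indicator hL).sub (measurable_one.indicator hKm)
      · intro p hp
        rw [indicator_of_notMem hp, sub_zero]
        exact indicator_nonneg (fun _ _ => zero_le_one) p
      · intro p hp
        rw [indicator_of_mem hp]
        have : L.indicator (1 : ℝ × ℝ → ℝ) p ≤ 1 := by
          by_cases hpL : p ∈ L <;> simp [hpL]
        simpa using this
      · intro p
        by_cases hpL : p ∈ L <;> by_cases hpK : p ∈ K <;> simp [hpL, hpK]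
      · intro φ hφ hb
        have := x0 1 0 (by simp) φ hφ hb
        simpa using this
      · intro φ hφ hb
        have := x1 0 1 (by simp) φ hφ hb
        simpa using this
    have hz := h _ hD (fun φ hφ hb => x2 s t (by simp; ring) φ hφ hb)
    rw [Filter.eventuallyEq_set]
    filter_upwards [hz] with p hp
    by_cases hpL : p ∈ L <;> by_cases hpK : p ∈ K <;> simp_all


end Pool.Agent.Helper601.XR
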