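import Mathlib
import Pool.Agent.Helper601.XR.Defs

set_option autoImplicit false

open MeasureTheory Set

namespace Pool.Agent.Helper601.XR


theorem upper_desc (K : Set (ℝ × ℝ)) (hK : IsCompact K) (hc : Convex ℝ K) (α β : ℝ) (hαβ : α < β)
    (hα : ∃ y, (α, y) ∈ K) (hβ : ∃ y, (β, y) ∈ K) :
    ∃ gp : ℝ → ℝ, ConcaveOn ℝ (Icc α β) gp ∧ ContinuousOn gp (Icc α β) ∧
      (∀ x ∈ Icc α β, (x, gp x) ∈ K) ∧ (∀ x ∈ Icc α β, ∀ y, (x, y) ∈ K → y ≤ gp x) := by
  have hne : ∀ x ∈ Icc α β, ∃ y, (x, y) ∈ K := by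
    intro x hx
    obtain ⟨y1, h1⟩ := hα
    obtain ⟨y2, h2⟩ := hβ
    have hd : 0 < β - α := by linarith
    have h3 := hc h1 h2 (a := (β - x) / (β - α)) (b := (x - α) / (β - α))
      (div_nonneg (by linarith [hx.2]) hd.le) (div_nonneg (by linarith [hx.1]) hd.le)
      (by field_simp; ring)
    refine ⟨(β - x) / (β - α) * y1 + (x - α) / (β - α) * y2, ?_⟩
    have h4 : ((β - x) / (β - α)) • ((α, y1) : ℝ × ℝ) + ((x - α) / (β - α)) • ((β, y2) : ℝ × ℝ)
        = (x, (β - x) / (β - α) * y1 + (x - α) / (β - α) * y2) := by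
      ext
      · simp only [Prod.smul_mk, Prod.mk_add_mk, smul_eq_mul]
        field_simp; ring
      · simp
    rwa [h4] at h3
  have hmax : ∀ x, ∃ y, x ∈ Icc α β → (x, y) ∈ K ∧ ∀ y', (x, y') ∈ K → y' ≤ y := by
    intro x
    by_cases hx : x ∈ Icc α β
    · obtain ⟨y0, hy0⟩ := hne x hx
      have hcomp : IsCompact (K ∩ {p : ℝ × ℝ | p.1 = x}) :=
        hK.inter_right (isClosed_eq continuous_fst continuous_const)
      obtain ⟨p, hp, hpm⟩ := hcomp.exists_isMaxOn ⟨(x, y0), hy0, rfl⟩ continuous_snd.continuousOn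
      refine ⟨p.2, fun _ => ⟨?_, fun y' hy' => hpm ⟨hy', rfl⟩⟩⟩
      have h5 : p.1 = x := hp.2
      have : (x, p.2) = p := by rw [← h5]
      rw [this]; exact hp.1
    · exact ⟨0, fun h => absurd h hx⟩
  choose gp hgp using hmax
  have hconc : ConcaveOn ℝ (Icc α β) gp := by
    refine ⟨convex_Icc _ _, fun x hx y hy a b ha hb hab => ?_⟩
    have h1 := hc (hgp x hx).1 (hgp y hy).1 ha hb hab
    exact (hgp _ (convex_Icc _ _ hx hy ha hb hab)).2 _ h1
  have hbetw : ∀ x0 ∈ Icc α β, ∀ e ∈ Icc α β, ∀ t : ℝ, 0 ≤ t → t ≤ 1 →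
      gp x0 + t * (gp e - gp x0) ≤ gp (x0 + t * (e - x0)) := by
    intro x0 hx0 e he t ht0 ht1
    have h0 : (1 - t) + t = 1 := by ring
    have h00 : 0 ≤ 1 - t := by linarith
    have h1 := hconc.2 hx0 he h00 ht0 h0
    simp only [smul_eq_mul] at h1
    have h2 : (1 - t) * x0 + t * e = x0 + t * (e - x0) := by ring
    rw [h2] at h1
    linarith
  have hlow : ∀ x0 ∈ Icc α β, ∀ x ∈ Icc α β,
      min (gp x0 + (x - x0) / (α - x0) * (gp α - gp x0))
        (gp x0 + (x - x0) / (β - x0) * (gp β - gp x0)) ≤ gp x := by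
    intro x0 hx0 x hx
    have hαm : α ∈ Icc α β := ⟨le_rfl, hαβ.le⟩
    have hβm : β ∈ Icc α β := ⟨hαβ.le, le_rfl⟩
    rcases lt_trichotomy x x0 with h | h | h
    · refine (min_le_left _ _).trans ?_
      have hd : 0 < x0 - α := by linarith [hx.1]
      have e1 : (x - x0) / (α - x0) = (x0 - x) / (x0 - α) := by
        rw [← neg_sub x0 x, ← neg_sub x0 α, neg_div_neg_eq]
      have h1 := hbetw x0 hx0 α hαm ((x - x0) / (α - x0))
        (by rw [e1]; exact div_nonneg (by linarith) hd.le)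
        (by rw [e1, div_le_one hd]; linarith [hx.1])
      have h2 : x0 + (x - x0) / (α - x0) * (α - x0) = x := by
        rw [div_mul_cancel₀ _ (by linarith : α - x0 ≠ 0)]; ring
      rwa [h2] at h1
    · subst h
      simp
    · refine (min_le_right _ _).trans ?_
      have hd : 0 < β - x0 := by linarith [hx.2]
      have h1 := hbetw x0 hx0 β hβm ((x - x0) / (β - x0))
        (div_nonneg (by linarith) hd.le) (by rw [div_le_one hd]; linarith [hx.2])
      have h2 : x0 + (x - x0) / (β - x0) * (β - x0) = x := by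
        rw [div_mul_cancel₀ _ hd.ne']; ring
      rwa [h2] at h1
  refine ⟨gp, hconc, ?_, fun x hx => (hgp x hx).1, fun x hx => (hgp x hx).2⟩
  intro x0 hx0
  unfold ContinuousWithinAt
  rw [tendsto_order]
  constructor
  · intro a ha
    have hcont : Continuous (fun x => min (gp x0 + (x - x0) / (α - x0) * (gp α - gp x0))
        (gp x0 + (x - x0) / (β - x0) * (gp β - gp x0))) := by fun_prop
    have hval : a < (fun x => min (gp x0 + (x - x0) / (α - x0) * (gp α - gp x0))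
        (gp x0 + (x - x0) / (β - x0) * (gp β - gp x0))) x0 := by simpa using ha
    have hev := (hcont.tendsto x0).eventually (lt_mem_nhds hval)
    filter_upwards [mem_nhdsWithin_of_mem_nhds hev, self_mem_nhdsWithin] with x hx1 hx2
    exact lt_of_lt_of_le hx1 (hlow x0 hx0 x hx2)
  · intro a ha
    have hP : IsCompact (Prod.fst '' (K ∩ {p : ℝ × ℝ | a ≤ p.2})) :=
      (hK.inter_right (isClosed_le continuous_const continuous_snd)).image continuous_fst
    have hx0P : x0 ∉ Prod.fst '' (K ∩ {p : ℝ × ℝ | a ≤ p.2}) := by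
      rintro ⟨⟨x, y⟩, ⟨hp1, hp2⟩, rfl⟩
      have := (hgp _ hx0).2 y hp1
      have hp3 : a ≤ y := hp2
      simp only at this ha
      linarith
    have hopen : (Prod.fst '' (K ∩ {p : ℝ × ℝ | a ≤ p.2}))ᶜ ∈ nhds x0 :=
      hP.isClosed.isOpen_compl.mem_nhds hx0P
    filter_upwards [mem_nhdsWithin_of_mem_nhds hopen, self_mem_nhdsWithin] with x hx1 hx2
    by_contra hcon
    push Not at hcon
    exact hx1 ⟨(x, gp x), ⟨(hgp x hx2).1, hcon⟩, rfl⟩

/-- a planar compact convex set is the region between two continuous functions -/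
theorem graph_desc (K : Set (ℝ × ℝ)) (hK : IsCompact K) (hc : Convex ℝ K) (α β : ℝ) (hαβ : α < β)
    (hproj : ∀ p ∈ K, α ≤ p.1 ∧ p.1 ≤ β) (hα : ∃ y, (α, y) ∈ K) (hβ : ∃ y, (β, y) ∈ K) :
    ∃ gm gp : ℝ → ℝ, ConvexOn ℝ (Icc α β) gm ∧ ConcaveOn ℝ (Icc α β) gp ∧
      ContinuousOn gm (Icc α β) ∧ ContinuousOn gp (Icc α β) ∧
      (∀ x ∈ Icc α β, gm x ≤ gp x) ∧
      (∀ x y, (x, y) ∈ K ↔ x ∈ Icc α β ∧ gm x ≤ y ∧ y ≤ gp x) := by
  obtain ⟨gp, h1, h2, h3, h4⟩ := upper_desc K hK hc α β hαβ hα hβ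
  have hcont : Continuous (fun p : ℝ × ℝ => (p.1, -p.2)) := by fun_prop
  have hKr : IsCompact ((fun p : ℝ × ℝ => (p.1, -p.2)) '' K) := hK.image hcont
  have hmem : ∀ x y, (x, y) ∈ (fun p : ℝ × ℝ => (p.1, -p.2)) '' K ↔ (x, -y) ∈ K := by
    intro x y
    constructor
    · rintro ⟨⟨u, v⟩, hp, he⟩
      simp only [Prod.mk.injEq] at he
      obtain ⟨rfl, rfl⟩ := he
      simpa using hp
    · intro h
      exact ⟨(x, -y), h, by simp⟩
  have hcr : Convex ℝ ((fun p : ℝ × ℝ => (p.1, -p.2)) '' K) := by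
    rintro ⟨x1, y1⟩ hp1 ⟨x2, y2⟩ hp2 a b ha hb hab
    rw [hmem] at hp1 hp2
    have h5 := hc hp1 hp2 ha hb hab
    simp only [Prod.smul_mk, Prod.mk_add_mk, smul_eq_mul] at h5 ⊢
    rw [hmem]
    have h6 : -(a * y1 + b * y2) = a * -y1 + b * -y2 := by ring
    rw [h6]
    exact h5
  obtain ⟨gm, g1, g2, g3, g4⟩ := upper_desc _ hKr hcr α β hαβ
    (by obtain ⟨y, hy⟩ := hα; exact ⟨-y, (hmem _ _).mpr (by simpa using hy)⟩)
    (by obtain ⟨y, hy⟩ := hβ; exact ⟨-y, (hmem _ _).mpr (by simpa using hy)⟩)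
  refine ⟨fun x => - gm x, gp, g1.neg, h1, g2.neg, h2, ?_, ?_⟩
  · intro x hx
    exact h4 x hx _ ((hmem x (gm x)).mp (g3 x hx))
  · intro x y
    constructor
    · intro h
      have hx : x ∈ Icc α β := hproj _ h
      refine ⟨hx, ?_, h4 x hx y h⟩
      have := g4 x hx (-y) ((hmem x (-y)).mpr (by simpa using h))
      simp only
      linarith
    · rintro ⟨hx, hy1, hy2⟩
      simp only at hy1
      have e1 : (x, - gm x) ∈ K := (hmem x (gm x)).mp (g3 x hx)
      have e2 : (x, gp x) ∈ K := h3 x hx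
      rcases (hy1.trans hy2).eq_or_lt with h | h
      · have : y = gp x := by linarith
        rw [this]; exact e2
      · have hd : 0 < gp x - (- gm x) := by linarith
        have e3 := hc e1 e2 (a := (gp x - y) / (gp x - (- gm x)))
          (b := (y - (- gm x)) / (gp x - (- gm x)))
          (div_nonneg (by linarith) hd.le) (div_nonneg (by linarith) hd.le)
          (by rw [← add_div, div_eq_one_iff_eq hd.ne']; ring)
        have e4 : ((gp x - y) / (gp x - (- gm x))) • ((x, - gm x) : ℝ × ℝ)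
            + ((y - (- gm x)) / (gp x - (- gm x))) • ((x, gp x) : ℝ × ℝ) = (x, y) := by
          ext
          · simp only [Prod.smul_mk, Prod.mk_add_mk, smul_eq_mul]
            field_simp; ring
          · simp only [Prod.smul_mk, Prod.mk_add_mk, smul_eq_mul]
            field_simp; ring
        rwa [e4] at e3


end Pool.Agent.Helper601.XR
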