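import Mathlib
import Pool.Agent.Helper601.XR.Defs
import Pool.Agent.Helper601.XR.Xe0

set_option autoImplicit false

open MeasureTheory Set

namespace Pool.Agent.Helper601.XR


theorem lemE_fun (α β : ℝ) (hαβ : α < β) (gm gp : ℝ → ℝ) (hgm : ConvexOn ℝ (Icc α β) gm)
    (hgp : ConcaveOn ℝ (Icc α β) gp) (cm : ContinuousOn gm (Icc α β))
    (cp : ContinuousOn gp (Icc α β)) (hle : ∀ x ∈ Icc α β, gm x ≤ gp x)
    (x1 x2 : ℝ) (h1 : α ≤ x1) (h12 : x1 < x2) (h2 : x2 ≤ β) (hp : gp x1 ≤ gp x2)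
    (hm : gm x1 ≤ gm x2) (htip : gp β < gp α) :
    ∃ a b : ℝ, α ≤ a ∧ a < b ∧ b ≤ β ∧ gm b ≤ gp a ∧ gm a ≤ gm b ∧ gp a ≤ gp b ∧
      (α < a → gm a = gm b) ∧ (b < β → gp b = gp a) := by
  classical
  set S : Set (ℝ × ℝ) := Icc α β ×ˢ Icc α β with hS
  have hSc : IsCompact S := isCompact_Icc.prod isCompact_Icc
  have c1 : ContinuousOn (fun p : ℝ × ℝ => gp p.1) S :=
    cp.comp continuous_fst.continuousOn (fun p hp => hp.1)
  have c2 : ContinuousOn (fun p : ℝ × ℝ => gp p.2) S :=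
    cp.comp continuous_snd.continuousOn (fun p hp => hp.2)
  have c3 : ContinuousOn (fun p : ℝ × ℝ => gm p.1) S :=
    cm.comp continuous_fst.continuousOn (fun p hp => hp.1)
  have c4 : ContinuousOn (fun p : ℝ × ℝ => gm p.2) S :=
    cm.comp continuous_snd.continuousOn (fun p hp => hp.2)
  have k1 : IsClosed {p | p ∈ S ∧ gp p.1 ≤ gp p.2} := hSc.isClosed.isClosed_le c1 c2
  have k2 : IsClosed {p | p ∈ S ∧ gm p.1 ≤ gm p.2} := hSc.isClosed.isClosed_le c3 c4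
  have k3 : IsClosed {p : ℝ × ℝ | p.1 ≤ p.2} := isClosed_le continuous_fst continuous_snd
  set W : Set (ℝ × ℝ) := {p | p ∈ S ∧ gp p.1 ≤ gp p.2} ∩ {p | p ∈ S ∧ gm p.1 ≤ gm p.2} ∩
    {p : ℝ × ℝ | p.1 ≤ p.2} with hW
  have hWc : IsCompact W := hSc.of_isClosed_subset ((k1.inter k2).inter k3) (fun p hp => hp.1.1.1)
  have hx1 : x1 ∈ Icc α β := ⟨h1, by linarith⟩
  have hx2 : x2 ∈ Icc α β := ⟨by linarith, h2⟩
  have hne : W.Nonempty := ⟨(x1, x2), ⟨⟨⟨hx1, hx2⟩, hp⟩, ⟨⟨hx1, hx2⟩, hm⟩⟩, h12.le⟩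
  obtain ⟨⟨a, b⟩, hab, hmax⟩ := hWc.exists_isMaxOn hne
    (f := fun p : ℝ × ℝ => p.2 - p.1) (by fun_prop)
  obtain ⟨⟨⟨⟨ha, hb⟩, hgpab⟩, ⟨_, hgmab⟩⟩, hab'⟩ := hab
  have hmax' : ∀ c d : ℝ, c ∈ Icc α β → d ∈ Icc α β → gp c ≤ gp d → gm c ≤ gm d → c ≤ d →
      d - c ≤ b - a := by
    intro c d hc hd h3 h4 h5
    exact hmax (show (c, d) ∈ W from ⟨⟨⟨⟨hc, hd⟩, h3⟩, ⟨⟨hc, hd⟩, h4⟩⟩, h5⟩)
  simp only at ha hb hgpab hgmab hab'
  have hlt : a < b := by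
    have := hmax' x1 x2 hx1 hx2 hp hm h12.le
    linarith
  have hi : b < β → gp b = gp a := by
    intro hbβ
    by_contra hcon
    have hlt2 : gp a < gp b := lt_of_le_of_ne hgpab (fun h => hcon h.symm)
    have hcw : ContinuousWithinAt gp (Ioc b β) b :=
      (cp b hb).mono (fun x hx => ⟨by linarith [hb.1, hx.1], hx.2⟩)
    have hev : ∀ᶠ x in nhdsWithin b (Ioc b β), gp a < gp x := hcw.eventually (lt_mem_nhds hlt2)
    have hnb : (nhdsWithin b (Ioc b β)).NeBot := by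
      rw [nhdsWithin_Ioc_eq_nhdsGT hbβ]
      infer_instance
    obtain ⟨x, hx, hxm⟩ := (hev.and self_mem_nhdsWithin).exists
    have hxI : x ∈ Icc α β := ⟨by linarith [hb.1, hxm.1], hxm.2⟩
    have h3 := hgm.le_right_of_left_le'' ha hxI hlt hxm.1.le hgmab
    have := hmax' a x ha hxI hx.le (hgmab.trans h3) (by linarith [hxm.1])
    linarith [hxm.1]
  have hii : α < a → gm a = gm b := by
    intro hαa
    by_contra hcon
    have hlt2 : gm a < gm b := lt_of_le_of_ne hgmab hcon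
    have hcw : ContinuousWithinAt gm (Ico α a) a :=
      (cm a ha).mono (fun x hx => ⟨hx.1, by linarith [ha.2, hx.2]⟩)
    have hev : ∀ᶠ x in nhdsWithin a (Ico α a), gm x < gm b := hcw.eventually (gt_mem_nhds hlt2)
    have hnb : (nhdsWithin a (Ico α a)).NeBot := by
      rw [nhdsWithin_Ico_eq_nhdsLT hαa]
      infer_instance
    obtain ⟨x, hx, hxm⟩ := (hev.and self_mem_nhdsWithin).exists
    have hxI : x ∈ Icc α β := ⟨hxm.1, by linarith [ha.2, hxm.2]⟩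
    have h3 := hgp.left_le_of_le_right'' hxI hb hxm.2.le hlt hgpab
    have := hmax' x b hxI hb (h3.trans hgpab) hx.le (by linarith [hxm.2])
    linarith [hxm.2]
  refine ⟨a, b, ha.1, hlt, hb.2, ?_, hgmab, hgpab, hii, hi⟩
  rcases lt_or_eq_of_le hb.2 with h | h
  · rw [← hi h]
    exact hle b hb
  · have hαa : α < a := by
      rcases lt_or_eq_of_le ha.1 with h' | h'
      · exact h'
      · exfalso
        rw [← h', h] at hgpab
        linarith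
    rw [← hii hαa]
    exact hle a ha

theorem lemE (K : Set (ℝ × ℝ)) (hK : IsCompact K) (hc : Convex ℝ K) (α β : ℝ) (hαβ : α < β)
    (hproj : ∀ p ∈ K, α ≤ p.1 ∧ p.1 ≤ β) (hα : ∃ y, (α, y) ∈ K) (hβ : ∃ y, (β, y) ∈ K)
    (htip : ∀ y y', (α, y) ∈ K → (β, y') ∈ K → y' < y) (hN : ¬ NoN K) :
    ∃ a b c d, a < b ∧ Good K a b c d := by
  obtain ⟨gm, gp, hgm, hgp, cm, cp, hle, hK'⟩ := graph_desc K hK hc α β hαβ hproj hα hβ
  unfold NoN at hN
  push Not at hN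
  obtain ⟨x1, x2, y1, y2, hx, hy, hp1, hp2, hn1, hn2⟩ := hN
  obtain ⟨hx1, hm1, hP1⟩ := (hK' x1 y1).mp hp1
  obtain ⟨hx2, hm2, hP2⟩ := (hK' x2 y2).mp hp2
  have h1 : gp x1 < y2 := by
    by_contra hcon
    exact hn1 ((hK' x1 y2).mpr ⟨hx1, by linarith, not_lt.mp hcon⟩)
  have h2 : y1 < gm x2 := by
    by_contra hcon
    exact hn2 ((hK' x2 y1).mpr ⟨hx2, not_lt.mp hcon, by linarith⟩)
  have hαI : α ∈ Icc α β := ⟨le_rfl, hαβ.le⟩
  have hβI : β ∈ Icc α β := ⟨hαβ.le, le_rfl⟩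
  have htip' : gp β < gp α := htip (gp α) (gp β) ((hK' _ _).mpr ⟨hαI, hle α hαI, le_rfl⟩)
    ((hK' _ _).mpr ⟨hβI, hle β hβI, le_rfl⟩)
  obtain ⟨a, b, hαa, hab, hbβ, h3, h4, h5, h6, h7⟩ := lemE_fun α β hαβ gm gp hgm hgp cm cp hle x1 x2
    hx1.1 hx hx2.2 (by linarith) (by linarith) htip'
  have haI : a ∈ Icc α β := ⟨hαa, by linarith⟩
  have hbI : b ∈ Icc α β := ⟨by linarith, hbβ⟩
  refine ⟨a, b, gm b, gp a, hab, hab.le, h3, ?_, ?_⟩
  · intro x y hax hxb hcy hyd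
    have hxI : x ∈ Icc α β := ⟨by linarith, by linarith⟩
    refine (hK' x y).mpr ⟨hxI, ?_, ?_⟩
    · have := hgm.le_max_of_mem_Icc haI hbI ⟨hax, hxb⟩
      rw [max_eq_right h4] at this
      linarith
    · have := hgp.min_le_of_mem_Icc haI hbI ⟨hax, hxb⟩
      rw [min_eq_left h5] at this
      linarith
  · intro x y hxy hout
    obtain ⟨hxI, hm, hP⟩ := (hK' x y).mp hxy
    rcases hout with h | h
    · have h8 := h6 (lt_of_le_of_lt hxI.1 h)
      have h9 := hgm.le_left_of_right_le'' hxI hbI h.le hab h8.ge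
      have h10 := hgp.left_le_of_le_right'' hxI hbI h.le hab h5
      constructor <;> linarith
    · have h8 := h7 (lt_of_lt_of_le h hxI.2)
      have h9 := hgm.le_right_of_left_le'' haI hxI hab h.le h4
      have h10 := hgp.right_le_of_le_left'' haI hxI hab h.le h8.le
      constructor <;> linarith


end Pool.Agent.Helper601.XR
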