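import Mathlib
import Pool.Agent.Helper601.XR.Defs
import Pool.Agent.Helper601.XR.Xleme

set_option autoImplicit false

open MeasureTheory Set

namespace Pool.Agent.Helper601.XR


/-- the set `K` sheared by slope `m` -/
def shr (K : Set (ℝ × ℝ)) (m : ℝ) : Set (ℝ × ℝ) := {p | (p.1, p.2 + m * p.1) ∈ K}

theorem shr_compact (K : Set (ℝ × ℝ)) (hK : IsCompact K) (m : ℝ) : IsCompact (shr K m) := by
  have h : shr K m = (fun p : ℝ × ℝ => (p.1, p.2 - m * p.1)) '' K := by
    ext p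
    constructor
    · intro hp
      exact ⟨(p.1, p.2 + m * p.1), hp, by ext <;> simp⟩
    · rintro ⟨r, hr, rfl⟩
      show (r.1, r.2 - m * r.1 + m * r.1) ∈ K
      have : (r.1, r.2 - m * r.1 + m * r.1) = r := by ext <;> simp
      rw [this]
      exact hr
  rw [h]
  exact hK.image (by fun_prop)

theorem shr_convex (K : Set (ℝ × ℝ)) (hc : Convex ℝ K) (m : ℝ) : Convex ℝ (shr K m) := by
  intro p hp r hr s t hs ht hst
  have h := hc hp hr hs ht hst
  show ((s • p + t • r).1, (s • p + t • r).2 + m * (s • p + t • r).1) ∈ K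
  convert h using 1
  ext
  · simp
  · simp
    ring

theorem lim_le (u v B : ℝ) (h : ∀ t : ℝ, 0 < t → t ≤ 1 → (1 - t) * u + t * v ≤ B) : u ≤ B := by
  by_contra hcon
  push Not at hcon
  set t : ℝ := min 1 ((u - B) / (2 * (|u - v| + 1))) with ht
  have h0 : 0 < t := by
    apply lt_min one_pos
    apply div_pos (by linarith) (by positivity)
  have h1 : t ≤ 1 := min_le_left _ _
  have h2 : t ≤ (u - B) / (2 * (|u - v| + 1)) := min_le_right _ _
  have h3 := h t h0 h1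
  rw [le_div_iff₀ (by positivity)] at h2
  have h4 : u - v ≤ |u - v| := le_abs_self _
  nlinarith

theorem le_lim (u v B : ℝ) (h : ∀ t : ℝ, 0 < t → t ≤ 1 → B ≤ (1 - t) * u + t * v) : B ≤ u := by
  have := lim_le (-u) (-v) (-B) (fun t h0 h1 => by
    have := h t h0 h1
    linarith)
  linarith

theorem lemE' (K : Set (ℝ × ℝ)) (hK : IsCompact K) (hc : Convex ℝ K) (α β q : ℝ) (hαβ : α < β)
    (hproj : ∀ p ∈ K, α ≤ p.1 ∧ p.1 ≤ β) (hα : ∃ y, (α, y) ∈ K) (hβ : ∃ y, (β, y) ∈ K)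
    (tα : ∀ y, (α, y) ∈ K → q ≤ y) (tβ : ∀ y, (β, y) ∈ K → y ≤ q)
    (m : ℝ) (hm : 0 < m) (hN : ¬ NoN (shr K m)) :
    ∃ a b c d, a < b ∧ Good (shr K m) a b c d := by
  refine lemE (shr K m) (shr_compact K hK m) (shr_convex K hc m) α β hαβ ?_ ?_ ?_ ?_ hN
  · intro p hp
    exact hproj (p.1, p.2 + m * p.1) hp
  · obtain ⟨y, hy⟩ := hα
    refine ⟨y - m * α, ?_⟩
    show (α, y - m * α + m * α) ∈ K
    rw [sub_add_cancel]
    exact hy
  · obtain ⟨y, hy⟩ := hβ
    refine ⟨y - m * β, ?_⟩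
    show (β, y - m * β + m * β) ∈ K
    rw [sub_add_cancel]
    exact hy
  · intro y y' hy hy'
    have h1 := tα _ hy
    have h2 := tβ _ hy'
    have h3 : m * α < m * β := mul_lt_mul_of_pos_left hαβ hm
    simp only at h1 h2
    linarith

/-- reformulation of `Good` -/
def Tc (K : Set (ℝ × ℝ)) (m a b c d : ℝ) : Prop :=
  a ≤ b ∧ c ≤ d ∧ (a, c + m * a) ∈ K ∧ (a, d + m * a) ∈ K ∧ (b, c + m * b) ∈ K ∧
  (b, d + m * b) ∈ K ∧
  ∀ p ∈ K, (a ≤ p.1 ∧ p.1 ≤ b) ∨ (c ≤ p.2 - m * p.1 ∧ p.2 - m * p.1 ≤ d)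

theorem Tc_of_good {K : Set (ℝ × ℝ)} {m a b c d : ℝ} (h : Good (shr K m) a b c d) :
    Tc K m a b c d := by
  obtain ⟨hab, hcd, hr, ho⟩ := h
  refine ⟨hab, hcd, hr a c le_rfl hab le_rfl hcd, hr a d le_rfl hab hcd le_rfl,
    hr b c hab le_rfl le_rfl hcd, hr b d hab le_rfl hcd le_rfl, ?_⟩
  intro p hp
  by_cases h1 : a ≤ p.1 ∧ p.1 ≤ b
  · exact Or.inl h1
  · right
    apply ho p.1 (p.2 - m * p.1)
    · show (p.1, p.2 - m * p.1 + m * p.1) ∈ K
      rw [sub_add_cancel]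
      exact hp
    · by_contra hcon
      push Not at hcon
      exact h1 hcon

theorem good_of_Tc {K : Set (ℝ × ℝ)} (hc : Convex ℝ K) {m a b c d : ℝ} (h : Tc K m a b c d) :
    Good (shr K m) a b c d := by
  obtain ⟨hab, hcd, h1, h2, h3, h4, ho⟩ := h
  have hS := shr_convex K hc m
  have hcol : ∀ x : ℝ, Convex ℝ {y : ℝ | (x, y) ∈ shr K m} := by
    intro x y1 hy1 y2 hy2 s t hs ht hst
    have h5 := hS hy1 hy2 hs ht hst
    show (x, s • y1 + t • y2) ∈ shr K m
    convert h5 using 1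
    ext
    · simp
      rw [← add_mul, hst, one_mul]
    · simp
  have hrow : ∀ y : ℝ, Convex ℝ {x : ℝ | (x, y) ∈ shr K m} := by
    intro y x1 hx1 x2 hx2 s t hs ht hst
    have h5 := hS hx1 hx2 hs ht hst
    show (s • x1 + t • x2, y) ∈ shr K m
    convert h5 using 1
    ext
    · simp
    · simp
      rw [← add_mul, hst, one_mul]
  refine ⟨hab, hcd, ?_, ?_⟩
  · intro x y hax hxb hcy hyd
    have h5 : (a, y) ∈ shr K m := (hcol a).ordConnected.out (x := c) (y := d) h1 h2 ⟨hcy, hyd⟩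
    have h6 : (b, y) ∈ shr K m := (hcol b).ordConnected.out (x := c) (y := d) h3 h4 ⟨hcy, hyd⟩
    exact (hrow y).ordConnected.out (x := a) (y := b) h5 h6 ⟨hax, hxb⟩
  · intro x y hxy hx
    have h5 := ho _ hxy
    simp only at h5
    rcases h5 with h5 | h5
    · exfalso
      rcases hx with hx | hx
      · exact absurd h5.1 (not_le.2 hx)
      · exact absurd h5.2 (not_le.2 hx)
    · constructor
      · linarith [h5.1]
      · linarith [h5.2]

theorem Tc_closed (K : Set (ℝ × ℝ)) (hK : IsClosed K) (m0 : ℝ) :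
    IsClosed {t : ℝ × ℝ × ℝ × ℝ × ℝ | m0 ≤ t.1 ∧
      Tc K t.1 t.2.1 t.2.2.1 t.2.2.2.1 t.2.2.2.2} := by
  unfold Tc
  simp only [Set.ofPred_and, Set.ofPred_forall, Set.ofPred_or]
  refine IsClosed.inter (isClosed_le (by fun_prop) (by fun_prop)) ?_
  refine IsClosed.inter (isClosed_le (by fun_prop) (by fun_prop)) ?_
  refine IsClosed.inter (isClosed_le (by fun_prop) (by fun_prop)) ?_
  refine IsClosed.inter (hK.preimage (f := fun t : ℝ × ℝ × ℝ × ℝ × ℝ =>
    (t.2.1, t.2.2.2.1 + t.1 * t.2.1)) (by fun_prop)) ?_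
  refine IsClosed.inter (hK.preimage (f := fun t : ℝ × ℝ × ℝ × ℝ × ℝ =>
    (t.2.1, t.2.2.2.2 + t.1 * t.2.1)) (by fun_prop)) ?_
  refine IsClosed.inter (hK.preimage (f := fun t : ℝ × ℝ × ℝ × ℝ × ℝ =>
    (t.2.2.1, t.2.2.2.1 + t.1 * t.2.2.1)) (by fun_prop)) ?_
  refine IsClosed.inter (hK.preimage (f := fun t : ℝ × ℝ × ℝ × ℝ × ℝ =>
    (t.2.2.1, t.2.2.2.2 + t.1 * t.2.2.1)) (by fun_prop)) ?_
  refine isClosed_iInter fun p => isClosed_iInter fun _ => ?_
  refine IsClosed.union ?_ ?_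
  · exact IsClosed.inter (isClosed_le (by fun_prop) (by fun_prop))
      (isClosed_le (by fun_prop) (by fun_prop))
  · exact IsClosed.inter (isClosed_le (by fun_prop) (by fun_prop))
      (isClosed_le (by fun_prop) (by fun_prop))

theorem Tc_compact (K : Set (ℝ × ℝ)) (hK : IsCompact K) (α β : ℝ) (hαβ : α < β)
    (hproj : ∀ p ∈ K, α ≤ p.1 ∧ p.1 ≤ β) (hα : ∃ y, (α, y) ∈ K) (hβ : ∃ y, (β, y) ∈ K)
    (m0 : ℝ) (hm0 : 0 < m0) :
    IsCompact {t : ℝ × ℝ × ℝ × ℝ × ℝ | m0 ≤ t.1 ∧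
      Tc K t.1 t.2.1 t.2.2.1 t.2.2.2.1 t.2.2.2.2} := by
  obtain ⟨R, hR⟩ : ∃ R : ℝ, ∀ p ∈ K, |p.2| ≤ R := by
    obtain ⟨R, hR⟩ := hK.isBounded.exists_norm_le
    exact ⟨R, fun p hp => (norm_snd_le p).trans (hR p hp)⟩
  obtain ⟨yα, hyα⟩ := hα
  obtain ⟨yβ, hyβ⟩ := hβ
  set M : ℝ := 6 * R / (β - α) with hM
  set A : ℝ := |α| + |β| with hA
  set N : ℝ := R + M * A with hN
  have hbox : IsCompact ((Icc m0 M) ×ˢ ((Icc α β) ×ˢ ((Icc α β) ×ˢ ((Icc (-N) N) ×ˢ
      (Icc (-N) N)))) : Set (ℝ × ℝ × ℝ × ℝ × ℝ)) :=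
    isCompact_Icc.prod (isCompact_Icc.prod (isCompact_Icc.prod (isCompact_Icc.prod isCompact_Icc)))
  refine hbox.of_isClosed_subset (Tc_closed K hK.isClosed m0) ?_
  rintro ⟨m, a, b, c, d⟩ ⟨hm, hab, hcd, h1, h2, h3, h4, ho⟩
  simp only at hm hab hcd h1 h2 h3 h4 ho
  have ha := hproj _ h1
  have hb := hproj _ h3
  simp only at ha hb
  have r1 := abs_le.1 (hR _ h1)
  have r2 := abs_le.1 (hR _ h2)
  have r3 := abs_le.1 (hR _ h3)
  have r4 := abs_le.1 (hR _ h4)
  have rα := abs_le.1 (hR _ hyα)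
  have rβ := abs_le.1 (hR _ hyβ)
  simp only at r1 r2 r3 r4 rα rβ
  have hmpos : 0 < m := by linarith
  have e1 : m * (a - α) ≤ 2 * R := by
    rcases ho _ hyα with h | h
    · simp only at h
      have : a - α ≤ 0 := by linarith [h.1]
      have : m * (a - α) ≤ 0 := mul_nonpos_of_nonneg_of_nonpos hmpos.le this
      linarith
    · simp only at h
      have : m * (a - α) = m * a - m * α := by ring
      linarith [h.2]
  have e2 : m * (β - b) ≤ 2 * R := by
    rcases ho _ hyβ with h | h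
    · simp only at h
      have : β - b ≤ 0 := by linarith [h.2]
      have : m * (β - b) ≤ 0 := mul_nonpos_of_nonneg_of_nonpos hmpos.le this
      linarith
    · simp only at h
      have : m * (β - b) = m * β - m * b := by ring
      linarith [h.1]
  have e3 : m * (b - a) ≤ 2 * R := by
    have : m * (b - a) = (c + m * b) - (c + m * a) := by ring
    linarith
  have hmM : m ≤ M := by
    rw [hM, le_div_iff₀ (by linarith)]
    have : m * (β - α) = m * (a - α) + m * (b - a) + m * (β - b) := by ring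
    linarith
  have haA : |a| ≤ A := by
    rw [hA, abs_le]
    constructor
    · linarith [neg_abs_le α, abs_nonneg β]
    · linarith [le_abs_self β, abs_nonneg α]
  have hma : |m * a| ≤ M * A := by
    rw [abs_mul, abs_of_pos hmpos]
    exact mul_le_mul hmM haA (abs_nonneg _) (by linarith)
  have hma' := abs_le.1 hma
  refine ⟨⟨hm, hmM⟩, ⟨ha.1, ha.2⟩, ⟨hb.1, hb.2⟩, ⟨?_, ?_⟩, ⟨?_, ?_⟩⟩ <;> simp only <;>
    rw [hN] <;> linarith [hma'.1, hma'.2]

theorem exist_max (K : Set (ℝ × ℝ)) (hK : IsCompact K) (hc : Convex ℝ K) (α β q : ℝ) (hαβ : α < β)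
    (hproj : ∀ p ∈ K, α ≤ p.1 ∧ p.1 ≤ β) (hα : ∃ y, (α, y) ∈ K) (hβ : ∃ y, (β, y) ∈ K)
    (tα : ∀ y, (α, y) ∈ K → q ≤ y) (tβ : ∀ y, (β, y) ∈ K → y ≤ q)
    (strip : ∀ m x c d, 0 < m → (x, c + m * x) ∈ K → (x, d + m * x) ∈ K →
      (∀ p ∈ K, c ≤ p.2 - m * p.1 ∧ p.2 - m * p.1 ≤ d) → False)
    (m0 : ℝ) (hm0 : 0 < m0) (hN : ¬ NoN (shr K m0)) :
    ∃ m a b c d, m0 ≤ m ∧ a < b ∧ c < d ∧ Good (shr K m) a b c d ∧ NoN (shr K m) := by
  have hT := Tc_compact K hK α β hαβ hproj hα hβ m0 hm0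
  have hne : {t : ℝ × ℝ × ℝ × ℝ × ℝ | m0 ≤ t.1 ∧
      Tc K t.1 t.2.1 t.2.2.1 t.2.2.2.1 t.2.2.2.2}.Nonempty := by
    obtain ⟨a, b, c, d, -, hg⟩ := lemE' K hK hc α β q hαβ hproj hα hβ tα tβ m0 hm0 hN
    exact ⟨(m0, a, b, c, d), le_rfl, Tc_of_good hg⟩
  obtain ⟨⟨m, a, b, c, d⟩, ⟨hm, hTc⟩, hmax⟩ :=
    hT.exists_isMaxOn hne (continuous_fst.continuousOn (s := _))
  simp only at hm hTc
  have hmpos : 0 < m := by linarith
  have hmax' : ∀ m' a' b' c' d' : ℝ, m0 ≤ m' → Good (shr K m') a' b' c' d' → m' ≤ m := by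
    intro m' a' b' c' d' h1 h2
    exact hmax (a := (m', a', b', c', d')) ⟨h1, Tc_of_good h2⟩
  obtain ⟨hab, hcd, h1, h2, h3, h4, ho⟩ := hTc
  -- NoN
  have hNoN : NoN (shr K m) := by
    by_contra hcon
    have hcon' := hcon
    unfold NoN at hcon
    push Not at hcon
    obtain ⟨x1, x2, y1, y2, hx, hy, p1, p2, n1, n2⟩ := hcon
    have o1 : ∀ᶠ ε in nhdsWithin (0:ℝ) (Ioi 0), (x1, y2 + m * x1 + ε * (x1 - x2)) ∉ K := by
      apply Filter.Eventually.filter_mono nhdsWithin_le_nhds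
      have hopen : IsOpen {ε : ℝ | (x1, y2 + m * x1 + ε * (x1 - x2)) ∉ K} :=
        (hK.isClosed.preimage (f := fun ε : ℝ => (x1, y2 + m * x1 + ε * (x1 - x2)))
          (by fun_prop)).isOpen_compl
      apply hopen.mem_nhds
      show (x1, y2 + m * x1 + 0 * (x1 - x2)) ∉ K
      rw [zero_mul, add_zero]
      exact n1
    have o2 : ∀ᶠ ε in nhdsWithin (0:ℝ) (Ioi 0), (x2, y1 + m * x2 + ε * (x2 - x1)) ∉ K := by
      apply Filter.Eventually.filter_mono nhdsWithin_le_nhds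
      have hopen : IsOpen {ε : ℝ | (x2, y1 + m * x2 + ε * (x2 - x1)) ∉ K} :=
        (hK.isClosed.preimage (f := fun ε : ℝ => (x2, y1 + m * x2 + ε * (x2 - x1)))
          (by fun_prop)).isOpen_compl
      apply hopen.mem_nhds
      show (x2, y1 + m * x2 + 0 * (x2 - x1)) ∉ K
      rw [zero_mul, add_zero]
      exact n2
    have o3 : ∀ᶠ ε in nhdsWithin (0:ℝ) (Ioi 0), ε * (x2 - x1) < y2 - y1 := by
      apply Filter.Eventually.filter_mono nhdsWithin_le_nhds
      have hopen : IsOpen {ε : ℝ | ε * (x2 - x1) < y2 - y1} :=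
        isOpen_lt (by fun_prop) (by fun_prop)
      apply hopen.mem_nhds
      show 0 * (x2 - x1) < y2 - y1
      linarith
    have o4 : ∀ᶠ ε in nhdsWithin (0:ℝ) (Ioi 0), 0 < ε := self_mem_nhdsWithin
    obtain ⟨ε, e1, e2, e3, e4⟩ := (o1.and (o2.and (o3.and o4))).exists
    have hN' : ¬ NoN (shr K (m + ε)) := by
      intro hN1
      have k := hN1 x1 x2 (y1 - ε * x1) (y2 - ε * x2) hx (by linarith) (by
        show (x1, y1 - ε * x1 + (m + ε) * x1) ∈ K
        have : y1 - ε * x1 + (m + ε) * x1 = y1 + m * x1 := by ring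
        rw [this]
        exact p1) (by
        show (x2, y2 - ε * x2 + (m + ε) * x2) ∈ K
        have : y2 - ε * x2 + (m + ε) * x2 = y2 + m * x2 := by ring
        rw [this]
        exact p2) (by
        intro hk
        apply e1
        have hk' : (x1, y2 - ε * x2 + (m + ε) * x1) ∈ K := hk
        have : y2 - ε * x2 + (m + ε) * x1 = y2 + m * x1 + ε * (x1 - x2) := by ring
        rw [this] at hk'
        exact hk')
      apply e2
      have hk' : (x2, y1 - ε * x1 + (m + ε) * x2) ∈ K := k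
      have : y1 - ε * x1 + (m + ε) * x2 = y1 + m * x2 + ε * (x2 - x1) := by ring
      rw [this] at hk'
      exact hk'
    obtain ⟨a', b', c', d', -, hg⟩ := lemE' K hK hc α β q hαβ hproj hα hβ tα tβ (m + ε)
      (by linarith) hN'
    have := hmax' (m + ε) a' b' c' d' (by linarith) hg
    linarith
  have haα := hproj _ h1
  have hbβ := hproj _ h3
  simp only at haα hbβ
  have hlt : a < b := by
    rcases lt_or_eq_of_le hab with h | h
    · exact h
    exfalso
    apply strip m a c d hmpos h1 h2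
    -- points off the line x = a
    have hoff : ∀ p ∈ K, p.1 ≠ a → c ≤ p.2 - m * p.1 ∧ p.2 - m * p.1 ≤ d := by
      intro p hp hpa
      rcases ho p hp with h5 | h5
      · exfalso
        apply hpa
        rw [← h] at h5
        exact le_antisymm h5.2 h5.1
      · exact h5
    obtain ⟨r, hrK, hra⟩ : ∃ r ∈ K, r.1 ≠ a := by
      obtain ⟨yα, hyα⟩ := hα
      obtain ⟨yβ, hyβ⟩ := hβ
      by_cases h5 : α = a
      · refine ⟨(β, yβ), hyβ, ?_⟩
        show β ≠ a
        rw [← h5]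
        exact hαβ.ne'
      · exact ⟨(α, yα), hyα, h5⟩
    intro p hp
    by_cases hpa : p.1 = a
    · have hseg : ∀ t : ℝ, 0 < t → t ≤ 1 →
          c ≤ (1 - t) * (p.2 - m * p.1) + t * (r.2 - m * r.1) ∧
          (1 - t) * (p.2 - m * p.1) + t * (r.2 - m * r.1) ≤ d := by
        intro t ht0 ht1
        have h6 := hc hp hrK (sub_nonneg.2 ht1) ht0.le (by ring)
        have h7 := hoff _ h6 (by
          show (1 - t) * p.1 + t * r.1 ≠ a
          rw [hpa]
          intro h8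
          have h9 : t * (r.1 - a) = 0 := by linarith
          rcases mul_eq_zero.1 h9 with h10 | h10
          · exact ht0.ne' h10
          · exact hra (by linarith))
        have h8 : ((1 - t) • p + t • r).2 - m * ((1 - t) • p + t • r).1 =
            (1 - t) * (p.2 - m * p.1) + t * (r.2 - m * r.1) := by
          show ((1 - t) * p.2 + t * r.2) - m * ((1 - t) * p.1 + t * r.1) = _
          ring
        rw [h8] at h7
        exact h7
      exact ⟨le_lim _ _ _ fun t h0 h1 => (hseg t h0 h1).1,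
        lim_le _ _ _ fun t h0 h1 => (hseg t h0 h1).2⟩
    · exact hoff p hp hpa
  have hlt2 : c < d := by
    rcases lt_or_eq_of_le hcd with h | h
    · exact h
    exfalso
    have kα : (α, c + m * α) ∈ K := by
      obtain ⟨yα, hyα⟩ := hα
      rcases ho _ hyα with h5 | h5
      · simp only at h5
        have : a = α := le_antisymm h5.1 haα.1
        rw [← this]
        exact h1
      · simp only at h5
        rw [← h] at h5
        have : c + m * α = yα := by linarith [h5.1, h5.2]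
        rw [this]
        exact hyα
    have kβ : (β, c + m * β) ∈ K := by
      obtain ⟨yβ, hyβ⟩ := hβ
      rcases ho _ hyβ with h5 | h5
      · simp only at h5
        have : b = β := le_antisymm hbβ.2 h5.2
        rw [← this]
        exact h3
      · simp only at h5
        rw [← h] at h5
        have : c + m * β = yβ := by linarith [h5.1, h5.2]
        rw [this]
        exact hyβ
    have k1 := tα _ kα
    have k2 := tβ _ kβ
    have k3 : m * α < m * β := mul_lt_mul_of_pos_left hαβ hmpos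
    linarith
  exact ⟨m, a, b, c, d, hm, hlt, hlt2, good_of_Tc hc ⟨hab, hcd, h1, h2, h3, h4, ho⟩, hNoN⟩


end Pool.Agent.Helper601.XR
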