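import Mathlib
import Pool.Agent.Helper601.XR.Defs
import Pool.Agent.Helper601.XR.Xemax

set_option autoImplicit false

open MeasureTheory Set

namespace Pool.Agent.Helper601.XR


/-- `K` in the coordinates `(x - δ y, y)` -/
def shx (K : Set (ℝ × ℝ)) (δ : ℝ) : Set (ℝ × ℝ) := {p | (p.1 + δ * p.2, p.2) ∈ K}

theorem persist (K : Set (ℝ × ℝ)) (hK : IsClosed K) (hN : ¬ NoN K) :
    ∃ ε : ℝ, 0 < ε ∧ ¬ NoN (shr (shx K ε) ε) := by
  unfold NoN at hN
  push Not at hN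
  obtain ⟨x1, x2, y1, y2, hx, hy, h11, h22, h12, h21⟩ := hN
  set S : Set ℝ := {ε | x1 - ε * y1 < x2 - ε * y2} ∩
    ({ε | y1 - ε * (x1 - ε * y1) < y2 - ε * (x2 - ε * y2)} ∩
    ({ε | ((x1 - ε * y1) + ε * ((y2 - ε * (x2 - ε * y2)) + ε * (x1 - ε * y1)),
          (y2 - ε * (x2 - ε * y2)) + ε * (x1 - ε * y1)) ∈ Kᶜ} ∩
     {ε | ((x2 - ε * y2) + ε * ((y1 - ε * (x1 - ε * y1)) + ε * (x2 - ε * y2)),
          (y1 - ε * (x1 - ε * y1)) + ε * (x2 - ε * y2)) ∈ Kᶜ})) with hS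
  have hSo : IsOpen S := by
    rw [hS]
    refine IsOpen.inter ?_ (IsOpen.inter ?_ (IsOpen.inter ?_ ?_))
    · exact isOpen_lt (by fun_prop) (by fun_prop)
    · exact isOpen_lt (by fun_prop) (by fun_prop)
    · exact hK.isOpen_compl.preimage (by fun_prop)
    · exact hK.isOpen_compl.preimage (by fun_prop)
  have h0 : (0 : ℝ) ∈ S := by
    refine ⟨?_, ?_, ?_, ?_⟩
    · simpa using hx
    · simpa using hy
    · simpa using h12
    · simpa using h21
  obtain ⟨r, hr, hball⟩ := Metric.isOpen_iff.1 hSo 0 h0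
  have hε : r / 2 ∈ S := hball (by
    rw [Metric.mem_ball, Real.dist_eq, sub_zero, abs_of_pos (by positivity)]
    linarith)
  refine ⟨r / 2, by positivity, ?_⟩
  generalize r / 2 = ε at hε
  obtain ⟨e1, e2, e3, e4⟩ := hε
  intro hcon
  have h5 := hcon (x1 - ε * y1) (x2 - ε * y2) (y1 - ε * (x1 - ε * y1)) (y2 - ε * (x2 - ε * y2))
    e1 e2 (by
      show ((x1 - ε * y1) + ε * ((y1 - ε * (x1 - ε * y1)) + ε * (x1 - ε * y1)),
        (y1 - ε * (x1 - ε * y1)) + ε * (x1 - ε * y1)) ∈ K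
      have a1 : (y1 - ε * (x1 - ε * y1)) + ε * (x1 - ε * y1) = y1 := by ring
      rw [a1]
      have a2 : (x1 - ε * y1) + ε * y1 = x1 := by ring
      rw [a2]
      exact h11) (by
      show ((x2 - ε * y2) + ε * ((y2 - ε * (x2 - ε * y2)) + ε * (x2 - ε * y2)),
        (y2 - ε * (x2 - ε * y2)) + ε * (x2 - ε * y2)) ∈ K
      have a1 : (y2 - ε * (x2 - ε * y2)) + ε * (x2 - ε * y2) = y2 := by ring
      rw [a1]
      have a2 : (x2 - ε * y2) + ε * y2 = x2 := by ring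
      rw [a2]
      exact h22) e3
  exact e4 h5


end Pool.Agent.Helper601.XR
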