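import Mathlib
import Pool.Agent.Helper601.XR.Defs
import Pool.Agent.Helper601.XR.Xemax
import Pool.Agent.Helper601.XR.Xpersist

set_option autoImplicit false

open MeasureTheory Set

namespace Pool.Agent.Helper601.XR

theorem shx_compact (K : Set (ℝ × ℝ)) (hK : IsCompact K) (δ : ℝ) : IsCompact (shx K δ) := by
  have h : shx K δ = (fun p : ℝ × ℝ => (p.1 - δ * p.2, p.2)) '' K := by
    ext p
    constructor
    · intro hp
      refine ⟨(p.1 + δ * p.2, p.2), hp, ?_⟩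
      ext <;> simp
    · rintro ⟨q, hq, rfl⟩
      show (q.1 - δ * q.2 + δ * q.2, q.2) ∈ K
      rw [sub_add_cancel]
      exact hq
  rw [h]
  exact hK.image (by fun_prop)

theorem shx_convex (K : Set (ℝ × ℝ)) (hK : Convex ℝ K) (δ : ℝ) : Convex ℝ (shx K δ) := by
  intro p hp q hq s t hs ht hst
  have h := hK hp hq hs ht hst
  have e : s • ((p.1 + δ * p.2, p.2) : ℝ × ℝ) + t • ((q.1 + δ * q.2, q.2) : ℝ × ℝ) =
      ((s • p + t • q).1 + δ * (s • p + t • q).2, (s • p + t • q).2) := by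
    ext
    · simp
      ring
    · simp
  rw [e] at h
  exact h

theorem existN (K : Set (ℝ × ℝ)) (hK : IsCompact K) (hc : Convex ℝ K)
    (xm xM ym yM p q : ℝ) (hx : xm < xM) (hy : ym < yM)
    (hbox : ∀ z ∈ K, xm ≤ z.1 ∧ z.1 ≤ xM ∧ ym ≤ z.2 ∧ z.2 ≤ yM)
    (h1 : (xm, q) ∈ K) (h2 : (xM, q) ∈ K) (h3 : (p, ym) ∈ K) (h4 : (p, yM) ∈ K)
    (hN : ¬ NoN K) :
    ∃ δ m a b c d, a < b ∧ c < d ∧ Good (shr (shx K δ) m) a b c d ∧ NoN (shr (shx K δ) m) := by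
  obtain ⟨ε, hε, hNε⟩ := persist K hK.isClosed hN
  have hK' := shx_compact K hK ε
  have hc' := shx_convex K hc ε
  have mk : ∀ x y, (x, y) ∈ K → (x - ε * y, y) ∈ shx K ε := by
    intro x y h
    show (x - ε * y + ε * y, y) ∈ K
    rwa [sub_add_cancel]
  have k1 := mk _ _ h1
  have k2 := mk _ _ h2
  have k3 := mk _ _ h3
  have k4 := mk _ _ h4
  obtain ⟨pa, hpa, hmin⟩ := hK'.exists_isMinOn ⟨_, k3⟩ continuous_fst.continuousOn
  obtain ⟨pb, hpb, hmax⟩ := hK'.exists_isMaxOn ⟨_, k3⟩ continuous_fst.continuousOn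
  have hmin' : ∀ z ∈ shx K ε, pa.1 ≤ z.1 := fun z hz => hmin hz
  have hmax' : ∀ z ∈ shx K ε, z.1 ≤ pb.1 := fun z hz => hmax hz
  have hαβ : pa.1 < pb.1 := by
    have e1 : p - ε * ym ≤ pb.1 := hmax' _ k3
    have e2 : pa.1 ≤ p - ε * yM := hmin' _ k4
    nlinarith
  have tα : ∀ y, (pa.1, y) ∈ shx K ε → q ≤ y := by
    intro y hyy
    by_contra hcon
    have e1 : xm ≤ pa.1 + ε * y := (hbox _ hyy).1
    have e2 : pa.1 ≤ xm - ε * q := hmin' _ k1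
    nlinarith
  have tβ : ∀ y, (pb.1, y) ∈ shx K ε → y ≤ q := by
    intro y hyy
    by_contra hcon
    have e1 : pb.1 + ε * y ≤ xM := (hbox _ hyy).2.1
    have e2 : xM - ε * q ≤ pb.1 := hmax' _ k2
    nlinarith
  have strip : ∀ m x c d, 0 < m → (x, c + m * x) ∈ shx K ε → (x, d + m * x) ∈ shx K ε →
      (∀ p ∈ shx K ε, c ≤ p.2 - m * p.1 ∧ p.2 - m * p.1 ≤ d) → False := by
    intro m x c d hm e1 e2 e3
    have f1 : ym ≤ c + m * x := (hbox _ e1).2.2.1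
    have f2 : d + m * x ≤ yM := (hbox _ e2).2.2.2
    have f3 : c ≤ ym - m * (p - ε * ym) := (e3 _ k3).1
    have f4 : yM - m * (p - ε * yM) ≤ d := (e3 _ k4).2
    have f5 : 0 < m * ε * (yM - ym) := by
      have : 0 < yM - ym := by linarith
      positivity
    nlinarith
  obtain ⟨m, a, b, c, d, -, hab, hcd, hG, hNN⟩ := exist_max (shx K ε) hK' hc' pa.1 pb.1 q hαβ
    (fun z hz => ⟨hmin' z hz, hmax' z hz⟩) ⟨pa.2, hpa⟩ ⟨pb.2, hpb⟩ tα tβ strip ε hε hNε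
  exact ⟨ε, m, a, b, c, d, hab, hcd, hG, hNN⟩

end Pool.Agent.Helper601.XR
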