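import Mathlib
import Pool.Agent.Helper601.XR.Defs
import Pool.Agent.Helper601.XR.Verif
import Pool.Agent.Helper601.XR.Xaffine
import Pool.Agent.Helper601.XR.Xdverif
import Pool.Agent.Helper601.XR.Xcore
import Pool.Agent.Helper601.XR.Xcase1
import Pool.Agent.Helper601.XR.Xconj
import Pool.Agent.Helper601.XR.Xpersist
import Pool.Agent.Helper601.XR.XexistN

set_option autoImplicit false

open MeasureTheory Set

namespace Pool.Agent.Helper601.XR

/-- shear in the second coordinate -/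
noncomputable def eqr (m : ℝ) : (ℝ × ℝ) ≃ₗ[ℝ] (ℝ × ℝ) where
  toFun p := (p.1, p.2 - m * p.1)
  invFun p := (p.1, p.2 + m * p.1)
  map_add' p q := by ext <;> simp; ring
  map_smul' r p := by ext <;> simp; ring
  left_inv p := by ext <;> simp
  right_inv p := by ext <;> simp

/-- shear in the first coordinate -/
noncomputable def eqx (δ : ℝ) : (ℝ × ℝ) ≃ₗ[ℝ] (ℝ × ℝ) where
  toFun p := (p.1 - δ * p.2, p.2)
  invFun p := (p.1 + δ * p.2, p.2)
  map_add' p q := by ext <;> simp; ring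
  map_smul' r p := by ext <;> simp; ring
  left_inv p := by ext <;> simp
  right_inv p := by ext <;> simp

/-- reflection -/
noncomputable def eqm : (ℝ × ℝ) ≃ₗ[ℝ] (ℝ × ℝ) where
  toFun p := (-p.1, p.2)
  invFun p := (-p.1, p.2)
  map_add' p q := by ext <;> simp; ring
  map_smul' r p := by ext <;> simp
  left_inv p := by ext <;> simp
  right_inv p := by ext <;> simp

theorem eqr_image (K : Set (ℝ × ℝ)) (m : ℝ) : eqr m '' K = shr K m := by
  ext p
  rw [LinearEquiv.image_eq_preimage_symm]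
  rfl

theorem eqx_image (K : Set (ℝ × ℝ)) (m : ℝ) : eqx m '' K = shx K m := by
  ext p
  rw [LinearEquiv.image_eq_preimage_symm]
  rfl

theorem eqm_image (K : Set (ℝ × ℝ)) : eqm '' K = mir K := by
  ext p
  rw [LinearEquiv.image_eq_preimage_symm]
  rfl

theorem image_compact (Φ : (ℝ × ℝ) ≃ₗ[ℝ] (ℝ × ℝ)) (K : Set (ℝ × ℝ)) (hK : IsCompact K) :
    IsCompact (Φ '' K) :=
  hK.image (LinearMap.continuous_of_finiteDimensional (Φ : (ℝ × ℝ) →ₗ[ℝ] (ℝ × ℝ)))

theorem image_convex (Φ : (ℝ × ℝ) ≃ₗ[ℝ] (ℝ × ℝ)) (K : Set (ℝ × ℝ)) (hK : Convex ℝ K) :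
    Convex ℝ (Φ '' K) :=
  hK.linear_image (Φ : (ℝ × ℝ) →ₗ[ℝ] (ℝ × ℝ))

theorem verified_good (K : Set (ℝ × ℝ)) (hK : IsCompact K) (hc : Convex ℝ K) {a b c d : ℝ}
    (hN : NoN K) (hG : Good K a b c d) (hab : a < b) (hcd : c < d) : Verified K :=
  verified_of_dat K hK hc (d - c) (b - a) (by linarith) (by linarith)
    (fun _ D h3 => core D hN hG hab hcd h3)

theorem verified_N (K : Set (ℝ × ℝ)) (hK : IsCompact K) (hc : Convex ℝ K)
    (xm xM ym yM p q : ℝ) (hx : xm < xM) (hy : ym < yM)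
    (hbox : ∀ z ∈ K, xm ≤ z.1 ∧ z.1 ≤ xM ∧ ym ≤ z.2 ∧ z.2 ≤ yM)
    (h1 : (xm, q) ∈ K) (h2 : (xM, q) ∈ K) (h3 : (p, ym) ∈ K) (h4 : (p, yM) ∈ K)
    (hN : ¬ NoN K) : Verified K := by
  obtain ⟨δ, m, a, b, c, d, hab, hcd, hG, hNN⟩ :=
    existN K hK hc xm xM ym yM p q hx hy hbox h1 h2 h3 h4 hN
  rw [← eqx_image, ← eqr_image] at hG hNN
  have k1 := image_compact (eqx δ) K hK
  have k2 := image_convex (eqx δ) K hc
  exact verified_of_map (eqx δ) K (verified_of_map (eqr m) _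
    (verified_good _ (image_compact _ _ k1) (image_convex _ _ k2) hNN hG hab hcd))

theorem verified_all (K : Set (ℝ × ℝ)) (hK : IsCompact K) (hc : Convex ℝ K)
    (hi : (interior K).Nonempty) : Verified K := by
  obtain ⟨Φ, xm, xM, ym, yM, p, q, hx, hy, hbox, h1, h2, h3, h4⟩ := conj_norm K hK hi
  have k1 := image_compact Φ K hK
  have k2 := image_convex Φ K hc
  refine verified_of_map Φ K ?_
  by_cases hN : NoN (Φ '' K)
  · by_cases hP : NoN (mir (Φ '' K))
    · exact verified_of_dat _ k1 k2 1 1 one_pos one_pos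
        (fun f D _ => case1 D hN hP p ym yM (fun z hz => (hbox z hz).2.2) h3 h4)
    · refine verified_of_map eqm _ ?_
      have k3 := image_compact eqm _ k1
      have k4 := image_convex eqm _ k2
      rw [eqm_image] at k3 k4 ⊢
      refine verified_N _ k3 k4 (-xM) (-xm) ym yM (-p) q (by linarith) hy ?_ ?_ ?_ ?_ ?_ hP
      · intro z hz
        have h := hbox _ hz
        simp only at h
        exact ⟨by linarith, by linarith, h.2.2.1, h.2.2.2⟩
      · show (- -xM, q) ∈ Φ '' K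
        rwa [neg_neg]
      · show (- -xm, q) ∈ Φ '' K
        rwa [neg_neg]
      · show (- -p, ym) ∈ Φ '' K
        rwa [neg_neg]
      · show (- -p, yM) ∈ Φ '' K
        rwa [neg_neg]
  · exact verified_N _ k1 k2 xm xM ym yM p q hx hy hbox h1 h2 h3 h4 hN

end Pool.Agent.Helper601.XR
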